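import Pool.Agent.H495R3.CesDefs

/-!
# Completing truncated preference lists
-/

set_option autoImplicit false

namespace Pool.Agent.H495R3.CES

/-- `a` comes before `b` in the list. -/
def Bef (l : List ℕ) (a b : ℕ) : Prop := l.idxOf a < l.idxOf b

theorem bef_append_left {l1 l2 : List ℕ} {a b : ℕ} (ha : a ∈ l1) (hb : b ∉ l1) :
    Bef (l1 ++ l2) a b := by
  unfold Bef
  rw [List.idxOf_append_of_mem ha, List.idxOf_append_of_notMem hb]
  have := List.idxOf_lt_length_of_mem ha
  omega

theorem bef_append_both {l1 l2 : List ℕ} {a b : ℕ} (ha : a ∈ l1) (hb : b ∈ l1) :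
    Bef (l1 ++ l2) a b ↔ Bef l1 a b := by
  unfold Bef
  rw [List.idxOf_append_of_mem ha, List.idxOf_append_of_mem hb]

theorem bef_append_right {l1 l2 : List ℕ} {a b : ℕ} (ha : a ∉ l1) (hb : b ∉ l1) :
    Bef (l1 ++ l2) a b ↔ Bef l2 a b := by
  unfold Bef
  rw [List.idxOf_append_of_notMem ha, List.idxOf_append_of_notMem hb]
  omega

theorem bef_head {l : List ℕ} {a b : ℕ} (h : a ≠ b) : Bef (a :: l) a b := by
  unfold Bef
  rw [List.idxOf_cons_self, List.idxOf_cons_ne _ h]
  omega

theorem not_bef_head {l : List ℕ} {a b : ℕ} : ¬ Bef (a :: l) b a := by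
  unfold Bef
  rw [List.idxOf_cons_self]
  omega

theorem bef_cons {l : List ℕ} {a b c : ℕ} (ha : c ≠ a) (hb : c ≠ b) :
    Bef (c :: l) a b ↔ Bef l a b := by
  unfold Bef
  rw [List.idxOf_cons_ne _ ha, List.idxOf_cons_ne _ hb]
  omega

/-- A list starting with `L`, then `s`, then the other ordinary agents, then `t`. -/
def full (n0 : ℕ) (L : List ℕ) (s t : ℕ) : List ℕ :=
  L ++ s :: ((List.range n0).filter (fun a => decide (a ∉ L)) ++ [t])

section Full

variable {n0 : ℕ} {L : List ℕ} {s t : ℕ}

theorem full_s {b : ℕ} (hs : s ∉ L) (hb : b ∉ L) (hbs : b ≠ s) : Bef (full n0 L s t) s b := by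
  unfold full
  rw [bef_append_right hs hb]
  exact bef_head hbs.symm

theorem full_t {a : ℕ} (hL : ∀ x ∈ L, x < n0) (ht : n0 ≤ t) (hst : s ≠ t)
    (ha : a < n0 ∨ a = s) : Bef (full n0 L s t) a t := by
  unfold full
  have htL : t ∉ L := fun h => by have := hL t h; omega
  by_cases haL : a ∈ L
  · exact bef_append_left haL htL
  · rw [bef_append_right haL htL]
    by_cases has : a = s
    · subst has
      exact bef_head hst
    · rw [bef_cons (Ne.symm has) hst]
      refine bef_append_left ?_ ?_
      · rw [List.mem_filter, List.mem_range]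
        exact ⟨ha.resolve_right has, by simpa using haL⟩
      · rw [List.mem_filter, List.mem_range]
        rintro ⟨h, _⟩
        omega

theorem full_mem {a b : ℕ} (hb : b ∈ L) (h : Bef (full n0 L s t) a b) : a ∈ L ∧ Bef L a b := by
  have ha : a ∈ L := by
    by_contra ha
    have h1 : Bef (full n0 L s t) b a := bef_append_left hb ha
    unfold Bef at h h1
    omega
  exact ⟨ha, (bef_append_both ha hb).1 h⟩

theorem full_perm (hL : ∀ x ∈ L, x < n0) (hnd : L.Nodup) (hst : (s = n0 ∧ t = n0 + 1) ∨
    (s = n0 + 1 ∧ t = n0)) : (full n0 L s t).Perm (List.range (n0 + 2)) := by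
  have hsL : s ∉ L := fun h => by have := hL s h; omega
  have htL : t ∉ L := fun h => by have := hL t h; omega
  refine (List.perm_ext_iff_of_nodup ?_ List.nodup_range).2 ?_
  · unfold full
    rw [List.nodup_append]
    refine ⟨hnd, ?_, ?_⟩
    · rw [List.nodup_cons, List.nodup_append]
      refine ⟨?_, List.Nodup.filter _ List.nodup_range, by simp, ?_⟩
      · simp only [List.mem_append, List.mem_filter, List.mem_range, List.mem_singleton]
        omega
      · intro a ha b hb hab
        simp only [List.mem_filter, List.mem_range, List.mem_singleton] at ha hb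
        omega
    · intro a ha b hb hab
      subst hab
      simp only [List.mem_cons, List.mem_append, List.mem_filter, List.mem_range,
        decide_eq_true_eq, List.not_mem_nil, or_false] at hb
      rcases hb with rfl | ⟨_, h⟩ | rfl
      · exact hsL ha
      · exact h ha
      · exact htL ha
  · intro a
    simp only [full, List.mem_append, List.mem_cons, List.mem_filter, List.mem_range,
      decide_eq_true_eq, List.not_mem_nil, or_false]
    constructor
    · rintro (h | h | h | h)
      · have := hL a h; omega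
      · omega
      · omega
      · omega
    · intro h
      by_cases haL : a ∈ L
      · exact Or.inl haL
      · by_cases h1 : a < n0
        · exact Or.inr (Or.inr (Or.inl ⟨h1, haL⟩))
        · omega

end Full

/-- The completed instance. -/
def comp (n0 : ℕ) (Lm Lw : ℕ → List ℕ) : Inst :=
  ((List.range n0).map (fun q => full n0 (Lm q) n0 (n0 + 1)) ++
    [List.range n0 ++ [n0, n0 + 1], [n0 + 1, n0] ++ List.range n0],
   (List.range n0).map (fun q => full n0 (Lw q) (n0 + 1) n0) ++
    [[n0, n0 + 1] ++ List.range n0, List.range n0 ++ [n0 + 1, n0]])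

section Comp

variable {n0 : ℕ} {Lm Lw : ℕ → List ℕ}

theorem comp_n : (comp n0 Lm Lw).n = n0 + 2 := by simp [comp, Inst.n]

theorem getD_aux (f : ℕ → List ℕ) (a b : List ℕ) (q : ℕ) :
    ((List.range n0).map f ++ [a, b]).getD q [] =
      if q < n0 then f q else if q = n0 then a else if q = n0 + 1 then b else [] := by
  rw [List.getD_eq_getElem?_getD]
  split_ifs with h1 h2 h3
  · rw [List.getElem?_append_left (by simpa using h1)]
    simp [h1]
  · subst h2
    rw [List.getElem?_append_right (by simp)]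
    simp
  · subst h3
    rw [List.getElem?_append_right (by simp)]
    simp
  · rw [List.getElem?_eq_none (by simp; omega)]
    rfl

theorem men_ord {q : ℕ} (h : q < n0) (a b : ℕ) :
    Prefers (comp n0 Lm Lw).1 q a b ↔ Bef (full n0 (Lm q) n0 (n0 + 1)) a b := by
  unfold Prefers comp
  rw [getD_aux, if_pos h]
  rfl

theorem men_g (a b : ℕ) :
    Prefers (comp n0 Lm Lw).1 n0 a b ↔ Bef (List.range n0 ++ [n0, n0 + 1]) a b := by
  unfold Prefers comp
  rw [getD_aux, if_neg (by omega), if_pos rfl]
  rfl

theorem men_y (a b : ℕ) :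
    Prefers (comp n0 Lm Lw).1 (n0 + 1) a b ↔ Bef ([n0 + 1, n0] ++ List.range n0) a b := by
  unfold Prefers comp
  rw [getD_aux, if_neg (by omega), if_neg (by omega), if_pos rfl]
  rfl

theorem women_ord {q : ℕ} (h : q < n0) (a b : ℕ) :
    Prefers (comp n0 Lm Lw).2 q a b ↔ Bef (full n0 (Lw q) (n0 + 1) n0) a b := by
  unfold Prefers comp
  rw [getD_aux, if_pos h]
  rfl

theorem women_x (a b : ℕ) :
    Prefers (comp n0 Lm Lw).2 n0 a b ↔ Bef ([n0, n0 + 1] ++ List.range n0) a b := by
  unfold Prefers comp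
  rw [getD_aux, if_neg (by omega), if_pos rfl]
  rfl

theorem women_h (a b : ℕ) :
    Prefers (comp n0 Lm Lw).2 (n0 + 1) a b ↔ Bef (List.range n0 ++ [n0 + 1, n0]) a b := by
  unfold Prefers comp
  rw [getD_aux, if_neg (by omega), if_neg (by omega), if_pos rfl]
  rfl

/-- ordinary agents come first in the lists of `g` and `h` -/
theorem range_bef {a s : ℕ} (ha : a < n0) (l : List ℕ) (hs : n0 ≤ s) :
    Bef (List.range n0 ++ l) a s := by
  refine bef_append_left (List.mem_range.2 ha) ?_
  rw [List.mem_range]; omega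

/-- Both lists are given for every truncated list: a stable matching of the completed instance
matches the special agents with each other, and the ordinary agents with agents in their
truncated lists. -/
theorem sound (hLm : ∀ q < n0, ∀ x ∈ Lm q, x < n0) (hLw : ∀ q < n0, ∀ x ∈ Lw q, x < n0)
    (M : Equiv.Perm (Fin (n0 + 2))) (h1 : ¬ BlockingCoalition (comp n0 Lm Lw).1 M)
    (h2 : ¬ BlockingCoalition (comp n0 Lm Lw).2 M.symm) :
    ∀ q : Fin (n0 + 2), q.1 < n0 → (M q).1 < n0 ∧ (M q).1 ∈ Lm q ∧ q.1 ∈ Lw (M q) := by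
  let G : Fin (n0 + 2) := ⟨n0, by omega⟩
  let Y : Fin (n0 + 2) := ⟨n0 + 1, by omega⟩
  have hcase : ∀ x : Fin (n0 + 2), x.1 < n0 ∨ x = G ∨ x = Y := by
    intro x
    have := x.2
    rcases Nat.lt_or_ge x.1 n0 with h | h
    · exact Or.inl h
    · right
      rcases Nat.eq_or_lt_of_le h with h | h
      · left; exact Fin.ext h.symm
      · right; exact Fin.ext (by change x.1 = n0 + 1; omega)
  have hGY : G ≠ Y := by
    intro h
    have := congrArg Fin.val h
    simp [G, Y] at this
  -- the partner of `x` is not ordinary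
  have c1 : ¬ (M.symm G).1 < n0 := by
    intro hm
    apply h2
    have hu : M.symm (M G) = G := by simp
    rcases hcase (M G) with hu' | hu' | hu'
    · refine blocking_two (x := M G) (y := G) ?_ ?_
      · unfold Envy
        rw [hu, women_ord hu']
        exact full_t (hLw _ hu') le_rfl (by omega) (Or.inl hm)
      · unfold Envy
        rw [hu]
        change Prefers _ n0 _ _
        rw [women_x]
        exact bef_head (by change n0 ≠ _; omega)
    · rw [hu'] at hu
      rw [hu] at hm
      change n0 < n0 at hm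
      omega
    · rw [hu'] at hu
      refine blocking_two (x := Y) (y := G) ?_ ?_
      · unfold Envy
        rw [hu]
        change Prefers _ (n0 + 1) _ _
        rw [women_h]
        exact range_bef hm _ le_rfl
      · unfold Envy
        rw [hu]
        change Prefers _ n0 _ _
        rw [women_x]
        exact bef_head (by change n0 ≠ _; omega)
  -- `y` is matched with `h`
  have c2 : M Y = Y := by
    by_contra hne
    apply h1
    have hp : M (M.symm Y) = Y := by simp
    have hpY : M.symm Y ≠ Y := by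
      intro h
      rw [h] at hp
      exact hne hp
    have hw : (M Y).1 < n0 ∨ M Y = G := by
      rcases hcase (M Y) with h | h | h
      · exact Or.inl h
      · exact Or.inr h
      · exact absurd h hne
    have hwne : (M Y).1 ≠ n0 + 1 := by
      intro h
      exact hne (Fin.ext h)
    refine blocking_two (x := M.symm Y) (y := Y) ?_ ?_
    · unfold Envy
      rw [hp]
      rcases hcase (M.symm Y) with h | h | h
      · rw [men_ord h]
        refine full_t (hLm _ h) (by omega) (by omega) ?_
        rcases hw with hw | hw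
        · exact Or.inl hw
        · right; rw [hw]
      · rw [h]
        change Prefers _ n0 _ _
        rw [men_g]
        rcases hw with hw | hw
        · exact range_bef hw _ (by change n0 ≤ n0 + 1; omega)
        · rw [hw, bef_append_right (by simp [G]) (by simp [Y])]
          exact bef_head (by change n0 ≠ n0 + 1; omega)
      · exact absurd h hpY
    · unfold Envy
      rw [hp]
      change Prefers _ (n0 + 1) _ _
      rw [men_y]
      exact bef_head (Ne.symm hwne)
  have c3 : M G = G := by
    rcases hcase (M.symm G) with h | h | h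
    · exact absurd h c1
    · have : M (M.symm G) = G := by simp
      rw [h] at this
      exact this
    · have : M (M.symm G) = G := by simp
      rw [h, c2] at this
      exact absurd this.symm hGY
  intro q hq
  have hqG : q ≠ G := by
    rintro rfl
    change n0 < n0 at hq
    omega
  have hqY : q ≠ Y := by
    rintro rfl
    change n0 + 1 < n0 at hq
    omega
  have hMq : (M q).1 < n0 := by
    rcases hcase (M q) with h | h | h
    · exact h
    · exact absurd (M.injective (h.trans c3.symm)) hqG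
    · exact absurd (M.injective (h.trans c2.symm)) hqY
  have c2' : M.symm Y = Y := by rw [Equiv.symm_apply_eq]; exact c2.symm
  refine ⟨hMq, ?_, ?_⟩
  · by_contra hcon
    apply h1
    refine blocking_two (x := q) (y := G) ?_ ?_
    · unfold Envy
      rw [men_ord hq, c3]
      refine full_s (fun h => ?_) hcon (by omega)
      have := hLm _ hq _ h
      omega
    · unfold Envy
      rw [c3]
      change Prefers _ n0 _ _
      rw [men_g]
      exact range_bef hMq _ le_rfl
  · by_contra hcon
    apply h2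
    have hs : M.symm (M q) = q := by simp
    refine blocking_two (x := M q) (y := Y) ?_ ?_
    · unfold Envy
      rw [women_ord hMq, c2', hs]
      refine full_s (fun h => ?_) hcon (by omega)
      have := hLw _ hMq _ h
      omega
    · unfold Envy
      rw [c2', hs]
      change Prefers _ (n0 + 1) _ _
      rw [women_h]
      exact range_bef hq _ (by change n0 ≤ n0 + 1; omega)

/-- The converse for the men. -/
theorem complete_men (hLm : ∀ q < n0, ∀ x ∈ Lm q, x < n0)
    (M : Equiv.Perm (Fin (n0 + 2))) (hG : ∀ q : Fin (n0 + 2), n0 ≤ q.1 → M q = q)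
    (hM : ∀ q : Fin (n0 + 2), q.1 < n0 → (M q).1 ∈ Lm q)
    (h : ∀ C : Set (Fin (n0 + 2)), C.Nonempty → (∀ x ∈ C, x.1 < n0 ∧ ∃ y ∈ C,
      (M y).1 ∈ Lm x ∧ Bef (Lm x) (M y) (M x)) → False) :
    ¬ BlockingCoalition (comp n0 Lm Lw).1 M := by
  intro hb
  obtain ⟨C, hC, hC'⟩ := hb.exists_set
  -- successors of ordinary agents
  have key : ∀ x ∈ C, x.1 < n0 → ∃ y ∈ C, y.1 < n0 ∧ (M y).1 ∈ Lm x ∧ Bef (Lm x) (M y) (M x) := by
    intro x hx hxn
    obtain ⟨y, hy, hxy⟩ := hC' x hx
    unfold Envy at hxy
    rw [men_ord hxn] at hxy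
    obtain ⟨h1, h2⟩ := full_mem (hM x hxn) hxy
    refine ⟨y, hy, ?_, h1, h2⟩
    by_contra hyn
    rw [hG y (by omega)] at h1
    have := hLm _ hxn _ h1
    omega
  obtain ⟨x, hx, hxn⟩ : ∃ x ∈ C, x.1 < n0 := by
    obtain ⟨x, hx⟩ := hC
    obtain ⟨y, hy, hxy⟩ := hC' x hx
    by_cases hxn : x.1 < n0
    · exact ⟨x, hx, hxn⟩
    refine ⟨y, hy, ?_⟩
    by_contra hyn
    unfold Envy at hxy
    rw [hG y (by omega), hG x (by omega)] at hxy
    have hx2 := x.2
    have hy2 := y.2
    by_cases hx0 : x.1 = n0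
    · rw [hx0] at hxy
      by_cases hy0 : y.1 = n0
      · rw [hy0] at hxy
        exact lt_irrefl _ hxy
      · rw [show y.1 = n0 + 1 by omega, men_g, bef_append_right (by simp) (by simp)] at hxy
        exact not_bef_head hxy
    · rw [show x.1 = n0 + 1 by omega, men_y] at hxy
      exact not_bef_head hxy
  refine h {x | x ∈ C ∧ x.1 < n0} ⟨x, hx, hxn⟩ ?_
  rintro x ⟨hx, hxn⟩
  obtain ⟨y, hy, hyn, h1, h2⟩ := key x hx hxn
  exact ⟨hxn, y, ⟨hy, hyn⟩, h1, h2⟩

/-- The converse for the women. -/
theorem complete_women (hLw : ∀ q < n0, ∀ x ∈ Lw q, x < n0)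
    (M : Equiv.Perm (Fin (n0 + 2))) (hG : ∀ q : Fin (n0 + 2), n0 ≤ q.1 → M q = q)
    (hM : ∀ q : Fin (n0 + 2), q.1 < n0 → (M q).1 ∈ Lw q)
    (h : ∀ C : Set (Fin (n0 + 2)), C.Nonempty → (∀ x ∈ C, x.1 < n0 ∧ ∃ y ∈ C,
      (M y).1 ∈ Lw x ∧ Bef (Lw x) (M y) (M x)) → False) :
    ¬ BlockingCoalition (comp n0 Lm Lw).2 M := by
  intro hb
  obtain ⟨C, hC, hC'⟩ := hb.exists_set
  have key : ∀ x ∈ C, x.1 < n0 → ∃ y ∈ C, y.1 < n0 ∧ (M y).1 ∈ Lw x ∧ Bef (Lw x) (M y) (M x) := by
    intro x hx hxn
    obtain ⟨y, hy, hxy⟩ := hC' x hx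
    unfold Envy at hxy
    rw [women_ord hxn] at hxy
    obtain ⟨h1, h2⟩ := full_mem (hM x hxn) hxy
    refine ⟨y, hy, ?_, h1, h2⟩
    by_contra hyn
    rw [hG y (by omega)] at h1
    have := hLw _ hxn _ h1
    omega
  obtain ⟨x, hx, hxn⟩ : ∃ x ∈ C, x.1 < n0 := by
    obtain ⟨x, hx⟩ := hC
    obtain ⟨y, hy, hxy⟩ := hC' x hx
    by_cases hxn : x.1 < n0
    · exact ⟨x, hx, hxn⟩
    refine ⟨y, hy, ?_⟩
    by_contra hyn
    unfold Envy at hxy
    rw [hG y (by omega), hG x (by omega)] at hxy
    have hx2 := x.2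
    have hy2 := y.2
    by_cases hx0 : x.1 = n0
    · rw [hx0, women_x] at hxy
      exact not_bef_head hxy
    · rw [show x.1 = n0 + 1 by omega] at hxy
      by_cases hy0 : y.1 = n0
      · rw [hy0, women_h, bef_append_right (by simp) (by simp)] at hxy
        exact not_bef_head hxy
      · rw [show y.1 = n0 + 1 by omega] at hxy
        exact lt_irrefl _ hxy
  refine h {x | x ∈ C ∧ x.1 < n0} ⟨x, hx, hxn⟩ ?_
  rintro x ⟨hx, hxn⟩
  obtain ⟨y, hy, hyn, h1, h2⟩ := key x hx hxn
  exact ⟨hxn, y, ⟨hy, hyn⟩, h1, h2⟩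

theorem comp_valid (hLm : ∀ q < n0, ∀ x ∈ Lm q, x < n0) (hLw : ∀ q < n0, ∀ x ∈ Lw q, x < n0)
    (hm : ∀ q < n0, (Lm q).Nodup) (hw : ∀ q < n0, (Lw q).Nodup) : Valid (comp n0 Lm Lw) := by
  have e1 : ∀ a b : ℕ, (a = n0 ∧ b = n0 + 1) ∨ (a = n0 + 1 ∧ b = n0) →
      ([a, b] ++ List.range n0).Perm (List.range (n0 + 2)) := by
    intro a b hab
    refine (List.perm_ext_iff_of_nodup ?_ List.nodup_range).2 ?_
    · rw [List.nodup_append]
      refine ⟨by simp; omega, List.nodup_range, ?_⟩
      intro c hc d hd hcd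
      simp only [List.mem_cons, List.not_mem_nil, or_false, List.mem_range] at hc hd
      omega
    · intro c
      simp only [List.cons_append, List.nil_append, List.mem_cons, List.mem_range]
      omega
  have e2 : ∀ a b : ℕ, (a = n0 ∧ b = n0 + 1) ∨ (a = n0 + 1 ∧ b = n0) →
      (List.range n0 ++ [a, b]).Perm (List.range (n0 + 2)) := fun a b hab =>
    List.perm_append_comm.trans (e1 a b hab)
  refine ⟨by simp [comp, Inst.n], ?_, ?_⟩
  · intro l hl
    rw [comp_n]
    simp only [comp, List.mem_append, List.mem_map, List.mem_range, List.mem_cons,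
      List.not_mem_nil, or_false] at hl
    rcases hl with ⟨q, hq, rfl⟩ | rfl | rfl
    · exact full_perm (hLm q hq) (hm q hq) (Or.inl ⟨rfl, rfl⟩)
    · exact e2 _ _ (Or.inl ⟨rfl, rfl⟩)
    · exact e1 _ _ (Or.inr ⟨rfl, rfl⟩)
  · intro l hl
    rw [comp_n]
    simp only [comp, List.mem_append, List.mem_map, List.mem_range, List.mem_cons,
      List.not_mem_nil, or_false] at hl
    rcases hl with ⟨q, hq, rfl⟩ | rfl | rfl
    · exact full_perm (hLw q hq) (hw q hq) (Or.inr ⟨rfl, rfl⟩)
    · exact e1 _ _ (Or.inl ⟨rfl, rfl⟩)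
    · exact e2 _ _ (Or.inr ⟨rfl, rfl⟩)

end Comp

end Pool.Agent.H495R3.CES
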