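import Pool.Agent.H495R3.CesRed

/-!
# Correctness of the reduction
-/

set_option autoImplicit false

namespace Pool.Agent.H495R3.CES

open Pool.Agent.NPC

variable {φ : List Cl}

theorem Bef.ne {l : List ℕ} {a b : ℕ} (h : Bef l a b) : a ≠ b := by
  rintro rfl
  exact lt_irrefl _ h

/-- In the list of an occurrence both possible partners of the next occurrence come before the
last choice. -/
theorem occ_list (h : φ ≠ []) (hd : Distinct3 φ) (hb : Bounded3 φ) {k a : ℕ}
    (hk : k < 3 * φ.length)
    (ha : a = occ φ (nxt k) ∨ a = prv (per φ) (occ φ (nxt k))) :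
    a ∈ Lm φ (occ φ k) ∧ badM (per φ) (occ φ k) ∈ Lm φ (occ φ k) ∧
      Bef (Lm φ (occ φ k)) a (badM (per φ) (occ φ k)) := by
  have h1 := Lm_nodup h hd (occ φ k) (occ_lt hb hk)
  have e : Lm φ (occ φ k) = [goodM (occ φ k), occ φ (nxt k), prv (per φ) (occ φ (nxt k)),
      badM (per φ) (occ φ k)] := by
    unfold Lm
    rw [occ_mod hk, if_pos rfl]
  rw [e] at h1 ⊢
  simp only [List.nodup_cons, List.mem_cons, List.not_mem_nil, or_false, not_or,
    not_false_eq_true, List.nodup_nil, and_true] at h1
  obtain ⟨⟨g1, g2, g3⟩, ⟨g4, g5⟩, g6⟩ := h1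
  rcases ha with rfl | rfl
  · exact ⟨by simp, by simp, (bef_cons g1 g3).2 (bef_head g5)⟩
  · exact ⟨by simp, by simp, (bef_cons g2 g3).2 ((bef_cons g4 g5).2 (bef_head g6))⟩

/-- Soundness of the reduction. -/
theorem red_sound (h : φ ≠ []) (hd : Distinct3 φ) (hb : Bounded3 φ)
    (M : Equiv.Perm (Fin (num φ + 2))) (h1 : ¬ BlockingCoalition (red φ).1 M)
    (h2 : ¬ BlockingCoalition (red φ).2 M.symm) : SAT3 φ := by
  have hP := per_pos h
  have hs := sound (Lm_lt h hb) (Lw_lt h) M h1 h2
  let f : ℕ → ℕ := fun q => if hq : q < num φ + 2 then (M ⟨q, hq⟩).1 else q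
  have hf : ∀ q : Fin (num φ + 2), f q.1 = (M q).1 := by
    intro q
    simp only [f]
    rw [dif_pos q.2]
  have hinj : ∀ q < num φ, ∀ r < num φ, f q = f r → q = r := by
    intro q hq r hr hqr
    rw [hf ⟨q, by omega⟩, hf ⟨r, by omega⟩] at hqr
    have := M.injective (Fin.ext hqr)
    simpa using this
  -- two possible partners
  have hdich : ∀ q < num φ, f q = q ∨ f q = prv (per φ) q := by
    intro q hq
    obtain ⟨-, -, h3⟩ := hs ⟨q, by omega⟩ hq
    rw [← hf] at h3
    simp only at h3
    unfold Lw at h3
    split_ifs at h3 with h4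
    · simp only [List.mem_cons, List.not_mem_nil, or_false] at h3
      rcases h3 with h3 | h3
      · exact Or.inl h3.symm
      · right
        have h5 : nx (per φ) (f q) = q := by
          rw [nx_even per_even (by omega) h4]; exact h3.symm
        have h6 := prv_nx (P := per φ) (by omega) (f q)
        rw [h5] at h6
        exact h6.symm
    · simp only [List.mem_cons, List.not_mem_nil, or_false] at h3
      rcases h3 with h3 | h3
      · right
        have h6 := prv_nx (P := per φ) (by omega) (f q)
        rw [← h3] at h6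
        exact h6.symm
      · exact Or.inl h3.symm
  -- propagation
  have hprop : ∀ q < num φ, f q = q → f (nx (per φ) q) = nx (per φ) q := by
    intro q hq hfq
    have hq' : nx (per φ) q < num φ := by
      unfold num at *
      rwa [nx_lt (by omega)]
    rcases hdich _ hq' with h3 | h3
    · exact h3
    · rw [prv_nx (by omega)] at h3
      have := hinj _ hq' q hq (h3.trans hfq.symm)
      exact absurd this (nx_ne (by omega) q)
  have hlt : ∀ v i, v < 3 * φ.length → i < per φ → per φ * v + i < num φ := by
    intro v i hv hi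
    unfold num
    rwa [lt_ji hi]
  have hT : ∀ v < 3 * φ.length, ∀ i0 < per φ, f (per φ * v + i0) = per φ * v + i0 →
      ∀ i, i0 ≤ i → i < per φ → f (per φ * v + i) = per φ * v + i := by
    intro v hv i0 hi0 h0 i hi
    induction i, hi using Nat.le_induction with
    | base => intro _; exact h0
    | succ i hi ih =>
      intro hi'
      have h3 := hprop _ (hlt v i hv (by omega)) (ih (by omega))
      rw [nx_ji (by omega), if_neg (by omega)] at h3
      exact h3
  have hF : ∀ v < 3 * φ.length, ∀ i0 < per φ, f (per φ * v + i0) = per φ * v + i0 →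
      f (per φ * v + 0) = per φ * v + 0 := by
    intro v hv i0 hi0 h0
    have h3 := hT v hv i0 hi0 h0 (per φ - 1) (by omega) (by omega)
    have h4 := hprop _ (hlt v _ hv (by omega)) h3
    rw [nx_ji (by omega), if_pos (by omega)] at h4
    exact h4
  let τ : ℕ → Bool := fun v => decide (f (per φ * v + 0) = per φ * v + 0)
  have hst : ∀ q < num φ, f q = if τ (q / per φ) = true then q else prv (per φ) q := by
    intro q hq
    obtain ⟨v, i, hi, rfl⟩ := exists_ji (by omega : 0 < per φ) q
    have hv : v < 3 * φ.length := by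
      unfold num at hq
      rwa [lt_ji hi] at hq
    rw [div_ji hi]
    split_ifs with ht
    · exact hT v hv 0 (by omega) (by simpa [τ] using ht) i (by omega) hi
    · rcases hdich _ hq with h3 | h3
      · exact absurd (hF v hv i hi h3) (by simpa [τ] using ht)
      · exact h3
  -- a false occurrence has her last choice
  have hbad : ∀ k < 3 * φ.length, τ (lit φ k).2 ≠ (lit φ k).1 →
      f (occ φ k) = badM (per φ) (occ φ k) := by
    intro k hk hne
    rw [hst _ (occ_lt hb hk), occ_div hk]
    unfold badM
    rw [occ_mod_two]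
    cases hl : (lit φ k).1 with
    | true =>
      rw [hl] at hne
      simp [hne]
    | false =>
      rw [hl] at hne
      simp [hne]
  have henvy : ∀ k (hk : k < 3 * φ.length), τ (lit φ k).2 ≠ (lit φ k).1 →
      Envy (red φ).1 M ⟨occ φ k, by have := occ_lt hb hk; omega⟩
        ⟨occ φ (nxt k), by have := occ_lt hb (nxt_lt hk); omega⟩ := by
    intro k hk hne
    have hk2 := occ_lt hb (nxt_lt hk)
    have h3 : f (occ φ (nxt k)) = occ φ (nxt k) ∨
        f (occ φ (nxt k)) = prv (per φ) (occ φ (nxt k)) := hdich _ hk2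
    obtain ⟨h4, h5, h6⟩ := occ_list h hd hb hk h3
    unfold Envy red
    rw [men_ord (occ_lt hb hk), ← hf, ← hf]
    simp only
    rw [hbad k hk hne]
    unfold full
    rw [bef_append_both h4 h5]
    exact h6
  have hocc : ∀ k l, k < 3 * φ.length → l < 3 * φ.length → occ φ k = occ φ l → k = l := by
    intro k l hk hl hkl
    rw [← occ_mod hk, ← occ_mod hl, hkl]
  refine ⟨τ, fun c hc => ?_⟩
  obtain ⟨i, hi, rfl⟩ := List.getElem_of_mem hc
  by_contra hcon
  push Not at hcon
  obtain ⟨c1, c2, c3⟩ := hcon
  rw [← lit_zero hi] at c1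
  rw [← lit_one hi] at c2
  rw [← lit_two hi] at c3
  have n1 : nxt (3 * i) = 3 * i + 1 := by unfold nxt; omega
  have n2 : nxt (3 * i + 1) = 3 * i + 2 := by unfold nxt; omega
  have n3 : nxt (3 * i + 2) = 3 * i := by unfold nxt; omega
  have e1 := henvy (3 * i) (by omega) c1
  have e2 := henvy (3 * i + 1) (by omega) c2
  have e3 := henvy (3 * i + 2) (by omega) c3
  simp only [n1] at e1
  simp only [n2] at e2
  simp only [n3] at e3
  refine h1 (blocking_three ?_ ?_ ?_ e1 e2 e3)
  · intro he
    have := hocc _ _ (by omega) (by omega) (congrArg Fin.val he)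
    omega
  · intro he
    have := hocc _ _ (by omega) (by omega) (congrArg Fin.val he)
    omega
  · intro he
    have := hocc _ _ (by omega) (by omega) (congrArg Fin.val he)
    omega

/-- The partners of the men under an assignment. -/
def fM (φ : List Cl) (τ : ℕ → Bool) (q : ℕ) : ℕ :=
  if q < num φ then (if τ (q / per φ) = true then q else prv (per φ) q) else q

/-- The partners of the women under an assignment. -/
def fW (φ : List Cl) (τ : ℕ → Bool) (q : ℕ) : ℕ :=
  if q < num φ then (if τ (q / per φ) = true then q else nx (per φ) q) else q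

theorem fM_lt (h : φ ≠ []) (τ : ℕ → Bool) (q : ℕ) : fM φ τ q < num φ ↔ q < num φ := by
  have hP := per_pos h
  unfold fM
  split_ifs with h1
  · exact Iff.rfl
  · unfold num at *
    exact prv_lt (by omega)
  · exact Iff.rfl

theorem fW_lt (h : φ ≠ []) (τ : ℕ → Bool) (q : ℕ) : fW φ τ q < num φ ↔ q < num φ := by
  have hP := per_pos h
  unfold fW
  split_ifs with h1
  · exact Iff.rfl
  · unfold num at *
    exact nx_lt (by omega)
  · exact Iff.rfl

theorem fM_div (h : φ ≠ []) (τ : ℕ → Bool) (q : ℕ) : fM φ τ q / per φ = q / per φ := by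
  have hP := per_pos h
  unfold fM
  split_ifs with h1
  · rfl
  · exact prv_div (by omega) q
  · rfl

theorem fW_div (h : φ ≠ []) (τ : ℕ → Bool) (q : ℕ) : fW φ τ q / per φ = q / per φ := by
  have hP := per_pos h
  unfold fW
  split_ifs with h1
  · rfl
  · exact nx_div (by omega) q
  · rfl

theorem fW_fM (h : φ ≠ []) (τ : ℕ → Bool) (q : ℕ) : fW φ τ (fM φ τ q) = q := by
  have hP := per_pos h
  have h1 := fM_lt h τ q
  have h2 := fM_div h τ q
  unfold fW
  rw [h2]
  by_cases hq : q < num φ
  · rw [if_pos (h1.2 hq)]
    unfold fM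
    rw [if_pos hq]
    split_ifs
    · rfl
    · exact nx_prv (by omega) q
  · rw [if_neg (fun h' => hq (h1.1 h'))]
    unfold fM
    rw [if_neg hq]

theorem fM_fW (h : φ ≠ []) (τ : ℕ → Bool) (q : ℕ) : fM φ τ (fW φ τ q) = q := by
  have hP := per_pos h
  have h1 := fW_lt h τ q
  have h2 := fW_div h τ q
  unfold fM
  rw [h2]
  by_cases hq : q < num φ
  · rw [if_pos (h1.2 hq)]
    unfold fW
    rw [if_pos hq]
    split_ifs
    · rfl
    · exact prv_nx (by omega) q
  · rw [if_neg (fun h' => hq (h1.1 h'))]
    unfold fW
    rw [if_neg hq]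

theorem fM_lt' (h : φ ≠ []) (τ : ℕ → Bool) {q : ℕ} (hq : q < num φ + 2) :
    fM φ τ q < num φ + 2 := by
  by_cases h1 : q < num φ
  · have := (fM_lt h τ q).2 h1
    omega
  · unfold fM
    rw [if_neg h1]
    exact hq

theorem fW_lt' (h : φ ≠ []) (τ : ℕ → Bool) {q : ℕ} (hq : q < num φ + 2) :
    fW φ τ q < num φ + 2 := by
  by_cases h1 : q < num φ
  · have := (fW_lt h τ q).2 h1
    omega
  · unfold fW
    rw [if_neg h1]
    exact hq

/-- The matching of an assignment. -/
def matching (h : φ ≠ []) (τ : ℕ → Bool) : Equiv.Perm (Fin (num φ + 2)) where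
  toFun q := ⟨fM φ τ q.1, fM_lt' h τ q.2⟩
  invFun q := ⟨fW φ τ q.1, fW_lt' h τ q.2⟩
  left_inv q := Fin.ext (fW_fM h τ q.1)
  right_inv q := Fin.ext (fM_fW h τ q.1)

theorem men_stable (h : φ ≠ []) (hb : Bounded3 φ) {τ : ℕ → Bool}
    (hτ : ∀ c ∈ φ, τ c.1.2 = c.1.1 ∨ τ c.2.1.2 = c.2.1.1 ∨ τ c.2.2.2 = c.2.2.1) :
    ¬ BlockingCoalition (red φ).1 (matching h τ) := by
  have hP := per_pos h
  -- the two possible partners
  have hgb : ∀ q < num φ, fM φ τ q = goodM q ∨ fM φ τ q = badM (per φ) q := by
    intro q hq
    unfold fM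
    rw [if_pos hq, goodM_eq h]
    unfold badM
    split_ifs <;> simp
  refine complete_men (Lm_lt h hb) _ ?_ ?_ ?_
  · intro q hq
    apply Fin.ext
    change fM φ τ q.1 = q.1
    unfold fM
    rw [if_neg (by omega)]
  · intro q hq
    change fM φ τ q.1 ∈ Lm φ q.1
    rcases hgb q.1 hq with h1 | h1 <;>
    · rw [h1]
      unfold Lm
      split_ifs <;> simp
  · intro C hC hC'
    -- nobody in `C` has the favourite
    have ha : ∀ x ∈ C, fM φ τ x.1 ≠ goodM x.1 := by
      intro x hx hg
      obtain ⟨_, y, hy, h1, h2⟩ := hC' x hx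
      change Bef (Lm φ x.1) _ (fM φ τ x.1) at h2
      rw [hg] at h2
      unfold Lm at h2
      split_ifs at h2
      · exact not_bef_head h2
      · exact not_bef_head h2
    have hbad : ∀ x ∈ C, fM φ τ x.1 = badM (per φ) x.1 := by
      intro x hx
      exact (hgb x.1 (hC' x hx).1).resolve_left (ha x hx)
    -- the holder of the favourite is content
    have hhold : ∀ x ∈ C, ∀ y ∈ C, fM φ τ y.1 ≠ goodM x.1 := by
      intro x hx y hy hxy
      have hxn := (hC' x hx).1
      have hyn := (hC' y hy).1
      have h1 := hbad x hx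
      apply ha y hy
      have hdiv : y.1 / per φ = x.1 / per φ := by
        rw [← fM_div h τ, hxy, good_div h]
      rw [goodM_eq h] at hxy ⊢
      unfold fM at h1 hxy ⊢
      rw [if_pos hxn] at h1
      rw [if_pos hyn, hdiv] at hxy ⊢
      unfold badM at h1
      have hne := prv_ne (P := per φ) (by omega) x.1
      have hmod := prv_mod_two (P := per φ) per_even (by omega) x.1
      have hmod' := nx_mod_two (P := per φ) per_even (by omega) x.1
      have hnp := nx_prv (P := per φ) (by omega) y.1
      by_cases ht : τ (x.1 / per φ) = true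
      · rw [if_pos ht] at h1 hxy ⊢
        by_cases hx2 : x.1 % 2 = 0
        · rw [if_pos hx2] at h1
          exact absurd h1.symm hne
        · rw [if_neg hx2] at hxy
          rw [if_pos (by rw [hxy]; omega)]
      · rw [if_neg ht] at h1 hxy ⊢
        by_cases hx2 : x.1 % 2 = 0
        · rw [if_pos hx2] at hxy
          rw [hxy] at hnp
          rw [if_neg (by rw [← hnp]; omega)]
        · rw [if_neg hx2] at h1
          exact absurd h1 hne
    -- everybody in `C` is an occurrence
    have hocc : ∀ x ∈ C, occ φ ((x.1 % per φ) / 4) = x.1 := by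
      intro x hx
      by_contra hno
      obtain ⟨_, y, hy, h1, h2⟩ := hC' x hx
      change fM φ τ y.1 ∈ Lm φ x.1 at h1
      change Bef (Lm φ x.1) (fM φ τ y.1) (fM φ τ x.1) at h2
      have h3 := h2.ne
      rw [hbad x hx] at h3
      unfold Lm at h1
      rw [if_neg hno] at h1
      simp only [List.mem_cons, List.not_mem_nil, or_false] at h1
      rcases h1 with h1 | h1
      · exact hhold x hx y hy h1
      · exact h3 h1
    have hnext : ∀ x ∈ C, ∀ k, x.1 = occ φ k → k < 3 * φ.length →
        ∃ y ∈ C, y.1 = occ φ (nxt k) := by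
      intro x hx k hk hk3
      obtain ⟨_, y, hy, h1, h2⟩ := hC' x hx
      change fM φ τ y.1 ∈ Lm φ x.1 at h1
      change Bef (Lm φ x.1) (fM φ τ y.1) (fM φ τ x.1) at h2
      have h3 := h2.ne
      rw [hbad x hx] at h3
      have hk' : (x.1 % per φ) / 4 = k := by rw [hk]; exact occ_mod hk3
      unfold Lm at h1
      rw [if_pos (hocc x hx), hk'] at h1
      simp only [List.mem_cons, List.not_mem_nil, or_false] at h1
      refine ⟨y, hy, ?_⟩
      have hyn := (hC' y hy).1
      have h4 : fM φ τ y.1 = y.1 ∨ fM φ τ y.1 = prv (per φ) y.1 := by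
        unfold fM
        rw [if_pos hyn]
        split_ifs <;> simp
      have h5 : fM φ τ y.1 = occ φ (nxt k) ∨ fM φ τ y.1 = prv (per φ) (occ φ (nxt k)) := by
        rcases h1 with h1 | h1 | h1 | h1
        · exact absurd h1 (hhold x hx y hy)
        · exact Or.inl h1
        · exact Or.inr h1
        · exact absurd h1 h3
      -- the possible values of `y`
      have hr := hocc y hy
      have hpos := pos_lt (nxt_lt hk3)
      have hpos2 := pos_pos (φ := φ) (nxt k)
      have hprv : prv (per φ) (occ φ (nxt k)) = per φ * (lit φ (nxt k)).2 +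
          (pos φ (nxt k) - 1) := by
        rw [occ_eq, prv_ji (by omega), if_neg (by omega)]
      have hnx : nx (per φ) (occ φ (nxt k)) = per φ * (lit φ (nxt k)).2 +
          (pos φ (nxt k) + 1) := by
        rw [occ_eq, nx_ji (by omega), if_neg (by omega)]
      have hcase : y.1 = occ φ (nxt k) ∨ y.1 = per φ * (lit φ (nxt k)).2 +
          (pos φ (nxt k) - 1) ∨ y.1 = per φ * (lit φ (nxt k)).2 + (pos φ (nxt k) + 1) := by
        have hnp := nx_prv (P := per φ) (by omega) y.1
        have hnp2 := nx_prv (P := per φ) (by omega) (occ φ (nxt k))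
        rcases h4 with h4 | h4 <;> rcases h5 with h5 | h5
        · exact Or.inl (h4.symm.trans h5)
        · exact Or.inr (Or.inl (by rw [← hprv]; exact h4.symm.trans h5))
        · right; right
          rw [← hnx, ← hnp, ← h4, h5]
        · left
          rw [← hnp, ← h4, h5, hnp2]
      have hpd : pos φ (nxt k) = 4 * nxt k + (if (lit φ (nxt k)).1 = true then 2 else 1) := rfl
      rcases hcase with hy1 | hy1 | hy1
      · exact hy1
      · exfalso
        have e1 : (y.1 % per φ) / 4 = nxt k := by
          rw [hy1, mod_ji (by omega), hpd]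
          split_ifs <;> omega
        rw [e1, hy1, occ_eq] at hr
        omega
      · exfalso
        have e1 : (y.1 % per φ) / 4 = nxt k := by
          rw [hy1, mod_ji (by omega), hpd]
          split_ifs <;> omega
        rw [e1, hy1, occ_eq] at hr
        omega
    have hfalse : ∀ x ∈ C, ∀ k, x.1 = occ φ k → k < 3 * φ.length →
        τ (lit φ k).2 ≠ (lit φ k).1 := by
      intro x hx k hk hk3 heq
      have h1 := ha x hx
      have hxn := (hC' x hx).1
      apply h1
      rw [goodM_eq h]
      unfold fM
      rw [if_pos hxn, hk, occ_div hk3, occ_mod_two, heq]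
      cases (lit φ k).1 <;> simp
    obtain ⟨x, hx⟩ := hC
    have hk := hocc x hx
    have hk3 := slot_lt h x.1
    generalize (x.1 % per φ) / 4 = k at hk hk3
    obtain ⟨y, hy, hyk⟩ := hnext x hx k hk.symm hk3
    obtain ⟨z, hz, hzk⟩ := hnext y hy _ hyk (nxt_lt hk3)
    have f1 := hfalse x hx k hk.symm hk3
    have f2 := hfalse y hy _ hyk (nxt_lt hk3)
    have f3 := hfalse z hz _ hzk (nxt_lt (nxt_lt hk3))
    have hc : k / 3 < φ.length := by omega
    have hall : ∀ j, j / 3 = k / 3 → τ (lit φ j).2 ≠ (lit φ j).1 := by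
      intro j hj
      have : j = k ∨ j = nxt k ∨ j = nxt (nxt k) := by
        unfold nxt
        omega
      rcases this with rfl | rfl | rfl
      · exact f1
      · exact f2
      · exact f3
    have g1 := hall (3 * (k / 3)) (by omega)
    have g2 := hall (3 * (k / 3) + 1) (by omega)
    have g3 := hall (3 * (k / 3) + 2) (by omega)
    rw [lit_zero hc] at g1
    rw [lit_one hc] at g2
    rw [lit_two hc] at g3
    rcases hτ _ (List.getElem_mem hc) with h4 | h4 | h4
    · exact g1 h4
    · exact g2 h4
    · exact g3 h4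

theorem women_stable (h : φ ≠ []) (τ : ℕ → Bool) :
    ¬ BlockingCoalition (red φ).2 (matching h τ).symm := by
  have hP := per_pos h
  refine complete_women (Lw_lt h) _ ?_ ?_ ?_
  · intro q hq
    apply Fin.ext
    change fW φ τ q.1 = q.1
    unfold fW
    rw [if_neg (by omega)]
  · intro q hq
    change fW φ τ q.1 ∈ Lw φ q.1
    unfold fW Lw
    rw [if_pos hq]
    by_cases h2 : q.1 % 2 = 0
    · have := nx_even (P := per φ) per_even (by omega) h2
      rw [if_pos h2, this]
      split_ifs <;> simp
    · rw [if_neg h2]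
      split_ifs <;> simp
  · intro C hC hC'
    obtain ⟨w, hw⟩ := hC
    obtain ⟨hwn, u, hu, h1, h2⟩ := hC' w hw
    obtain ⟨hun, z, hz, h3, h4⟩ := hC' u hu
    change fW φ τ u.1 ∈ Lw φ w.1 at h1
    change Bef (Lw φ w.1) (fW φ τ u.1) (fW φ τ w.1) at h2
    change Bef (Lw φ u.1) (fW φ τ z.1) (fW φ τ u.1) at h4
    have hne := h2.ne
    have hdu := fW_div h τ u.1
    have hmod := prv_mod_two (P := per φ) per_even (by omega) w.1
    have hmod' := nx_mod_two (P := per φ) per_even (by omega) w.1
    have hmod2 := nx_mod_two (P := per φ) per_even (by omega) u.1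
    have hwd : ∀ a ∈ Lw φ w.1, a / per φ = w.1 / per φ := by
      intro a ha
      unfold Lw at ha
      split_ifs at ha with h5
      · rw [← nx_even (P := per φ) per_even (by omega) h5] at ha
        simp only [List.mem_cons, List.not_mem_nil, or_false] at ha
        rcases ha with rfl | rfl
        · rfl
        · exact nx_div (by omega) _
      · simp only [List.mem_cons, List.not_mem_nil, or_false] at ha
        rcases ha with rfl | rfl
        · exact nx_div (by omega) _
        · rfl
    have hdiv : u.1 / per φ = w.1 / per φ := by rw [← hdu, hwd _ h1]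
    -- `w` does not have her favourite
    have hpn := prv_nx (P := per φ) (by omega) u.1
    by_cases hw2 : w.1 % 2 = 0
    · unfold Lw at h1 h2
      rw [if_pos hw2] at h1 h2
      have hx := nx_even (P := per φ) per_even (by omega) hw2
      by_cases ht : τ (w.1 / per φ) = true
      · have e : fW φ τ w.1 = w.1 := by
          unfold fW
          rw [if_pos hwn, if_pos ht]
        rw [e] at h2
        exact not_bef_head h2
      · have e : fW φ τ w.1 = w.1 + 1 := by
          unfold fW
          rw [if_pos hwn, if_neg ht, hx]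
        have eu : fW φ τ u.1 = nx (per φ) u.1 := by
          unfold fW
          rw [if_pos hun, hdiv, if_neg ht]
        simp only [List.mem_cons, List.not_mem_nil, or_false] at h1
        rcases h1 with h1 | h1
        · rw [eu] at h1 h4
          have hu2 : ¬ u.1 % 2 = 0 := by
            intro hu2
            rw [h1] at hmod2
            omega
          unfold Lw at h4
          rw [if_neg hu2] at h4
          exact not_bef_head h4
        · exact hne (h1.trans e.symm)
    · unfold Lw at h1 h2
      rw [if_neg hw2] at h1 h2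
      by_cases ht : τ (w.1 / per φ) = true
      · have e : fW φ τ w.1 = w.1 := by
          unfold fW
          rw [if_pos hwn, if_pos ht]
        have eu : fW φ τ u.1 = u.1 := by
          unfold fW
          rw [if_pos hun, hdiv, if_pos ht]
        simp only [List.mem_cons, List.not_mem_nil, or_false] at h1
        rcases h1 with h1 | h1
        · rw [eu] at h1 h4
          have hu2 : u.1 % 2 = 0 := by
            rw [h1]
            omega
          unfold Lw at h4
          rw [if_pos hu2] at h4
          exact not_bef_head h4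
        · exact hne (h1.trans e.symm)
      · have e : fW φ τ w.1 = nx (per φ) w.1 := by
          unfold fW
          rw [if_pos hwn, if_neg ht]
        rw [e] at h2
        exact not_bef_head h2

theorem perm_cast {n n' : ℕ} (h : n = n') (P : ∀ n, Equiv.Perm (Fin n) → Prop) :
    (∃ M : Equiv.Perm (Fin n), P n M) ↔ ∃ M : Equiv.Perm (Fin n'), P n' M := by
  subst h
  rfl

/-- Correctness of the reduction. -/
theorem red_correct (h : φ ≠ []) (hd : Distinct3 φ) (hb : Bounded3 φ) :
    SAT3 φ ↔ HasCES (red φ) := by
  have hc := perm_cast (n := (red φ).n) (n' := num φ + 2) comp_n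
    (fun n M => ¬ BlockingCoalition (red φ).1 M ∧ ¬ BlockingCoalition (red φ).2 M.symm)
  unfold HasCES Stable
  rw [hc]
  constructor
  · rintro ⟨τ, hτ⟩
    exact ⟨red_valid h hd hb, matching h τ, men_stable h hb hτ, women_stable h τ⟩
  · rintro ⟨-, M, h1, h2⟩
    exact red_sound h hd hb M h1 h2

end Pool.Agent.H495R3.CES
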