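import Pool.Agent.NPC.Sat2
import Pool.Agent.H671R2.PolyAuto

/-!
# Coalition-exchange-stable matchings in the stable marriage problem
-/

set_option autoImplicit false

namespace Pool.Agent.H495R3.CES

/-- An instance of the stable marriage problem: the preference lists of the men and the preference
lists of the women.  The agents of each sex are `0, ..., n - 1`; entry `i` of the first (second)
component is the list of man (woman) `i`, most preferred first. -/
abbrev Inst := List (List ℕ) × List (List ℕ)

/-- The number of men. -/
abbrev Inst.n (I : Inst) : ℕ := I.1.length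

/-- There are as many women as men, and every agent ranks all agents of the opposite sex. -/
def Valid (I : Inst) : Prop :=
  I.2.length = I.n ∧ (∀ l ∈ I.1, l.Perm (List.range I.n)) ∧ ∀ l ∈ I.2, l.Perm (List.range I.n)

/-- The agent `i` with preference lists `L` strictly prefers `a` to `b`. -/
def Prefers (L : List (List ℕ)) (i a b : ℕ) : Prop := (L.getD i []).idxOf a < (L.getD i []).idxOf b

/-- For preference lists `L` of the agents `0, ..., n - 1` of one sex, who are matched by `M` with
the agents of the other sex: an exchange-blocking coalition, that is, distinct agents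
`a 0, ..., a (k - 1)` with `k ≥ 2`, such that `a i` strictly prefers the partner of `a (i + 1)` to
her or his own, with indices modulo `k`. -/
def BlockingCoalition (L : List (List ℕ)) {n : ℕ} (M : Equiv.Perm (Fin n)) : Prop :=
  ∃ (k : ℕ) (a : Fin k → Fin n), 2 ≤ k ∧ Function.Injective a ∧
    ∀ i, Prefers L (a i) (M (a (finRotate k i))) (M (a i))

/-- The matching `M` (man `i` is matched with woman `M i`) is coalition-exchange-stable. -/
def Stable (I : Inst) (M : Equiv.Perm (Fin I.n)) : Prop :=
  ¬ BlockingCoalition I.1 M ∧ ¬ BlockingCoalition I.2 M.symm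

/-- The decision problem: an instance of the stable marriage problem that has a
coalition-exchange-stable matching. -/
def HasCES (I : Inst) : Prop := Valid I ∧ ∃ M : Equiv.Perm (Fin I.n), Stable I M

/-! ### Coalitions and closed sets -/

section

variable {L : List (List ℕ)} {n : ℕ} {M : Equiv.Perm (Fin n)}

/-- `x` envies `y`. -/
def Envy (L : List (List ℕ)) {n : ℕ} (M : Equiv.Perm (Fin n)) (x y : Fin n) : Prop :=
  Prefers L x (M y) (M x)

theorem Envy.ne {x y : Fin n} (h : Envy L M x y) : x ≠ y := by
  rintro rfl
  exact lt_irrefl _ h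

/-- A coalition gives a nonempty set in which everybody envies someone. -/
theorem BlockingCoalition.exists_set (h : BlockingCoalition L M) :
    ∃ C : Set (Fin n), C.Nonempty ∧ ∀ x ∈ C, ∃ y ∈ C, Envy L M x y := by
  obtain ⟨k, a, hk, _, h⟩ := h
  refine ⟨Set.range a, ⟨a ⟨0, by omega⟩, ⟨_, rfl⟩⟩, ?_⟩
  rintro _ ⟨i, rfl⟩
  exact ⟨_, ⟨finRotate k i, rfl⟩, h i⟩

theorem blocking_of_iterate (f : Fin n → Fin n) (x : Fin n) (k : ℕ) (hk : 2 ≤ k)
    (hx : f^[k] x = x) (hinj : ∀ i < k, ∀ j < k, f^[i] x = f^[j] x → i = j)
    (h : ∀ i < k, Envy L M (f^[i] x) (f^[i + 1] x)) : BlockingCoalition L M := by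
  refine ⟨k, fun i => f^[i.1] x, hk, ?_, ?_⟩
  · intro i j hij
    exact Fin.ext (hinj i.1 i.2 j.1 j.2 hij)
  · intro i
    have h1 := h i.1 i.2
    obtain ⟨k, rfl⟩ : ∃ m, k = m + 1 := ⟨k - 1, by omega⟩
    have h2 : f^[(finRotate (k + 1) i).1] x = f^[i.1 + 1] x := by
      by_cases hi : i = Fin.last k
      · rw [hi, finRotate_last]
        simp only [Fin.val_zero, Function.iterate_zero, id_eq, Fin.val_last]
        exact hx.symm
      · rw [coe_finRotate_of_ne_last hi]
    unfold Envy at h1
    simp only
    rw [h2]
    exact h1

/-- Two agents that envy each other. -/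
theorem blocking_two {x y : Fin n} (h1 : Envy L M x y) (h2 : Envy L M y x) :
    BlockingCoalition L M := by
  have hxy := h1.ne
  refine blocking_of_iterate (fun z => if z = x then y else x) x 2 le_rfl ?_ ?_ ?_
  · simp [Function.iterate_succ_apply, hxy.symm]
  · intro i hi j hj hij
    interval_cases i <;> interval_cases j
    · rfl
    · simp [Function.iterate_succ_apply, hxy] at hij
    · simp [Function.iterate_succ_apply, hxy.symm] at hij
    · rfl
  · intro i hi
    interval_cases i
    · simpa [Function.iterate_succ_apply] using h1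
    · simpa [Function.iterate_succ_apply, hxy.symm] using h2

/-- Three agents that envy each other cyclically. -/
theorem blocking_three {x y z : Fin n} (hxy : x ≠ y) (hyz : y ≠ z) (hzx : z ≠ x)
    (h1 : Envy L M x y) (h2 : Envy L M y z) (h3 : Envy L M z x) : BlockingCoalition L M := by
  refine blocking_of_iterate (fun u => if u = x then y else if u = y then z else x) x 3
    (by norm_num) ?_ ?_ ?_
  · simp [Function.iterate_succ_apply, hxy.symm, hyz.symm, hzx]
  · intro i hi j hj hij
    interval_cases i <;> interval_cases j <;>
      simp [Function.iterate_succ_apply, hxy, hxy.symm, hyz, hyz.symm, hzx, hzx.symm] at hij ⊢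
  · intro i hi
    interval_cases i
    · simpa [Function.iterate_succ_apply] using h1
    · simpa [Function.iterate_succ_apply, hxy.symm] using h2
    · simpa [Function.iterate_succ_apply, hxy.symm, hyz.symm, hzx] using h3

/-- If there is a nonempty set in which everybody envies someone, there is a coalition. -/
theorem blocking_of_set {C : Set (Fin n)} (hC : C.Nonempty)
    (h : ∀ x ∈ C, ∃ y ∈ C, Envy L M x y) : BlockingCoalition L M := by
  classical
  choose! f hf1 hf2 using h
  obtain ⟨x0, hx0⟩ := hC
  have hmem : ∀ i, f^[i] x0 ∈ C := by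
    intro i
    induction i with
    | zero => exact hx0
    | succ i ih => rw [Function.iterate_succ_apply']; exact hf1 _ ih
  -- a repetition
  obtain ⟨i, j, hij, hne⟩ : ∃ i j, f^[i] x0 = f^[j] x0 ∧ i < j := by
    have := Finite.exists_ne_map_eq_of_infinite (fun i : ℕ => f^[i] x0)
    obtain ⟨i, j, hne, h⟩ := this
    rcases lt_or_gt_of_ne hne with h' | h'
    · exact ⟨i, j, h, h'⟩
    · exact ⟨j, i, h.symm, h'⟩
  let x := f^[i] x0
  have hper : f^[j - i] x = x := by
    change f^[j - i] (f^[i] x0) = f^[i] x0
    rw [← Function.iterate_add_apply, Nat.sub_add_cancel hne.le, hij]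
  have hpp : x ∈ Function.periodicPts f := ⟨j - i, by omega, hper⟩
  have hxC : ∀ l, f^[l] x ∈ C := by
    intro l
    change f^[l] (f^[i] x0) ∈ C
    rw [← Function.iterate_add_apply]
    exact hmem _
  have hk := Function.minimalPeriod_pos_of_mem_periodicPts hpp
  have hkx : f^[Function.minimalPeriod f x] x = x := Function.iterate_minimalPeriod
  have hstep : ∀ l, Envy L M (f^[l] x) (f^[l + 1] x) := by
    intro l
    rw [Function.iterate_succ_apply']
    exact hf2 _ (hxC l)
  refine blocking_of_iterate f x (Function.minimalPeriod f x) ?_ hkx ?_ (fun l _ => hstep l)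
  · by_contra hlt
    have h1 : Function.minimalPeriod f x = 1 := by omega
    rw [h1] at hkx
    exact (hstep 0).ne hkx.symm
  · intro a ha b hb hab
    exact Function.iterate_injOn_Iio_minimalPeriod ha hb hab

end

end Pool.Agent.H495R3.CES
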