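import Pool.Agent.H609R2.EqPoly

/-!
# Recognizing triangle graphs is coNP-complete
-/

set_option autoImplicit false

namespace Pool.Agent.H495R3

open Pool.Agent.H622R2 Pool.Agent.H609R2 Pool.Agent.NPC

/-- A graph is a triangle graph when, for every maximal stable set `S` and every edge `uv` none of
whose ends is in `S`, some vertex `s` of `S` is adjacent to both `u` and `v`. -/
def IsTriangleGraph {V : Type} (G : SimpleGraph V) : Prop :=
  ∀ S : Set V, Maximal G.IsIndepSet S → ∀ u v : V, G.Adj u v → u ∉ S → v ∉ S →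
    ∃ s ∈ S, G.Adj s u ∧ G.Adj s v

theorem IsTriangleGraph.of_iso {V W : Type} {G : SimpleGraph V} {H : SimpleGraph W} (e : G ≃g H)
    (h : IsTriangleGraph H) : IsTriangleGraph G := by
  intro S hS u v huv hu hv
  obtain ⟨_, ⟨s, hs, rfl⟩, h1, h2⟩ := h (e '' S) ((maximal_image e S).2 hS) (e u) (e v)
    ((e.map_adj_iff).2 huv) (by rwa [e.injective.mem_set_image])
    (by rwa [e.injective.mem_set_image])
  exact ⟨s, hs, (e.map_adj_iff).1 h1, (e.map_adj_iff).1 h2⟩

/-- If every edge is in a strong clique, then the graph is a triangle graph. -/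
theorem IsTriangleGraph.of_edgeStrong {V : Type} {G : SimpleGraph V} (h : EdgeStrong G) :
    IsTriangleGraph G := by
  intro S hS u v huv hu hv
  obtain ⟨C, ⟨hC1, hC2⟩, huC, hvC⟩ := h u v huv
  obtain ⟨s, hsC, hsS⟩ := hC2 S hS
  refine ⟨s, hsS, hC1 hsC huC ?_, hC1 hsC hvC ?_⟩
  · rintro rfl; exact hu hsS
  · rintro rfl; exact hv hsS

/-- If the formula is satisfiable, the graph is not a triangle graph. -/
theorem not_triangle_of_sat {n m : ℕ} {L : ℕ → ℕ → Bool → Bool} {vs : List Lb}
    (hvs : ∀ x, x ∈ vs ↔ ValidE n m L x) (hm : 0 < m)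
    (i0 : ℕ) (hi0 : i0 < n) (hd : ∀ k a, L k i0 a = false) (τ : ℕ → Bool)
    (hτ : ∀ k < m, ∃ i < n, L k i (τ i) = true) : ¬ IsTriangleGraph (labGraph vs (adjE L)) := by
  intro h
  have hu : (Sum.inl (i0, !τ i0) : Lb) ∈ vs := (hvs _).2 hi0
  have hv : (Sum.inr (i0, 0, τ i0) : Lb) ∈ vs := (hvs _).2 ⟨hi0, hm, hd 0 _⟩
  obtain ⟨⟨s, hsv⟩, ⟨i, hs⟩, h1, h2⟩ := h _ (maximal_sat hvs τ hτ) ⟨_, hu⟩ ⟨_, hv⟩
    ((adj_iff _ _).2 ((adjP_lr _ _ _ _ _).2 (Or.inl ⟨rfl, by simp⟩)))
    (by
      rintro ⟨i, hi⟩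
      simp only [Sum.inl.injEq, Prod.mk.injEq] at hi
      obtain ⟨rfl, hi⟩ := hi
      simp at hi)
    (by
      rintro ⟨i, hi⟩
      simp at hi)
  simp only at hs
  subst hs
  rw [adj_iff, adjP_ll] at h1
  rw [adj_iff, adjP_lr] at h2
  obtain ⟨rfl, _⟩ := h1
  rcases h2 with h2 | h2
  · exact h2.2 rfl
  · rw [hd] at h2
    exact absurd h2 (by simp)

/-- The graph of a formula is a triangle graph exactly when the formula is unsatisfiable. -/
theorem eqRed_triangle {φ : List C3} (h1 : Distinct3 φ) (h2 : Bounded3 φ) (h3 : φ ≠ []) :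
    SAT3 φ ↔ ¬ IsTriangleGraph (matGraph (eqRed φ)) := by
  constructor
  · intro hsat h
    have e := matIso (labE φ) (adjE (satL φ)) (labE_nodup φ)
    obtain ⟨τ, hτ⟩ := (SAT3_iff h2).1 hsat
    exact not_triangle_of_sat (mem_labE φ) (List.length_pos_iff.2 h3)
      (3 * φ.length) (by omega) (satL_dummy h2) τ hτ (IsTriangleGraph.of_iso e.symm h)
  · intro h
    by_contra hun
    exact h (IsTriangleGraph.of_edgeStrong (eqRed_unsat h1 h2 hun))

/-- Not being a triangle graph is hard. -/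
theorem hardI_not_triangle :
    HardI (fun M : List (List Bool) => ¬ IsTriangleGraph (matGraph M)) :=
  (hardPr_SAT3b.trans (Pr' := fun _ => True) eqRed_poly (fun _ _ => trivial)
    (fun _ h => eqRed_triangle h.1 h.2.1 h.2.2)).toHardI

/-! ### Membership in coNP -/

/-- Adjacency test. -/
def adjB (M : List (List Bool)) (i j : ℕ) : Bool :=
  decide (i ≠ j) && (entry M i j || entry M j i)

theorem adjB_iff (M : List (List Bool)) (i j : Fin M.length) :
    adjB M i j = true ↔ (matGraph M).Adj i j := by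
  simp [adjB, matGraph, Fin.ext_iff]

/-- The verifier of certificates that a graph is not a triangle graph. -/
def chk (p : List (List Bool) × List ℕ × ℕ × ℕ) : Bool :=
  (p.2.1.all fun i => decide (i < p.1.length)) &&
  (p.2.1.all fun i => p.2.1.all fun j => !adjB p.1 i j) &&
  ((List.range p.1.length).all fun x => decide (x ∈ p.2.1) || p.2.1.any fun i => adjB p.1 i x) &&
  decide (p.2.2.1 < p.1.length) && decide (p.2.2.2 < p.1.length) &&
  adjB p.1 p.2.2.1 p.2.2.2 && !decide (p.2.2.1 ∈ p.2.1) && !decide (p.2.2.2 ∈ p.2.1) &&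
  !(p.2.1.any fun i => adjB p.1 i p.2.2.1 && adjB p.1 i p.2.2.2)

theorem adjB_poly {α : Type} [TEnc α] {M : α → List (List Bool)} {i j : α → ℕ}
    (hM : Poly M) (hi : Poly i) (hj : Poly j) : Poly (fun a => adjB (M a) (i a) (j a)) := by
  unfold adjB entry
  fun_prop

attribute [fun_prop] adjB_poly

theorem chk_poly : Poly chk := by
  unfold chk
  have h1 : Poly (fun p : List (List Bool) × List ℕ × ℕ × ℕ => List.range p.1.length) :=
    Poly.range_length (Poly.fst Poly.id)
  have h2 : Poly (fun p : List (List Bool) × List ℕ × ℕ × ℕ =>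
      (List.range p.1.length).all fun x => decide (x ∈ p.2.1) ||
        p.2.1.any fun i => adjB p.1 i x) := by
    refine Poly.all (p := fun (p : List (List Bool) × List ℕ × ℕ × ℕ) x =>
      decide (x ∈ p.2.1) || p.2.1.any fun i => adjB p.1 i x) h1 ?_
    fun_prop
  fun_prop

theorem sz_filter_le {β : Type} [TEnc β] (p : β → Bool) (l : List β) :
    sz (l.filter p) ≤ sz l := by
  induction l with
  | nil => simp
  | cons a l ih =>
    rw [List.filter_cons]
    split_ifs
    · simp; omega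
    · simp; omega

theorem not_triangle_iff (M : List (List Bool)) :
    ¬ IsTriangleGraph (matGraph M) ↔
      ∃ w : List ℕ × ℕ × ℕ, sz w ≤ (Polynomial.C 4 * Polynomial.X * Polynomial.X +
        Polynomial.C 20 * Polynomial.X + Polynomial.C 20 : Polynomial ℕ).eval (sz M) ∧
        chk (M, w) = true := by
  classical
  constructor
  · intro h
    unfold IsTriangleGraph at h
    push Not at h
    obtain ⟨S, hS, u, v, huv, hu, hv, hs⟩ := h
    let T : List ℕ := (List.range M.length).filter (fun i => decide (∃ h : i < M.length,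
      (⟨i, h⟩ : Fin M.length) ∈ S))
    have hT : ∀ i : ℕ, i ∈ T ↔ ∃ h : i < M.length, (⟨i, h⟩ : Fin M.length) ∈ S := by
      intro i
      simp only [T, List.mem_filter, List.mem_range, decide_eq_true_eq]
      exact ⟨fun h => h.2, fun h => ⟨h.1, h⟩⟩
    refine ⟨(T, u, v), ?_, ?_⟩
    · have h1 : sz T ≤ M.length * (4 * M.length + 2) + 1 :=
        (sz_filter_le _ _).trans (Poly.sz_range_le M.length M.length le_rfl)
      have h2 : ∀ x : Fin M.length, sz (x : ℕ) ≤ 4 * M.length + 1 := by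
        intro x
        have := sz_nat_le (x : ℕ)
        have h3 := Poly.size_le_self (x : ℕ)
        have := x.isLt
        omega
      have h3 := h2 u
      have h4 := h2 v
      have h5 := length_lt_sz M
      simp only [sz_pair, Polynomial.eval_add, Polynomial.eval_mul, Polynomial.eval_C,
        Polynomial.eval_X]
      nlinarith
    · simp only [chk, Bool.and_eq_true, List.all_eq_true, decide_eq_true_eq, Bool.not_eq_true',
        Bool.or_eq_true, List.any_eq_true, List.mem_range, decide_eq_false_iff_not]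
      refine ⟨⟨⟨⟨⟨⟨⟨⟨?_, ?_⟩, ?_⟩, u.isLt⟩, v.isLt⟩, (adjB_iff M u v).2 huv⟩, ?_⟩, ?_⟩, ?_⟩
      · intro i hi
        exact ((hT i).1 hi).1
      · intro i hi j hj
        obtain ⟨hi1, hi2⟩ := (hT i).1 hi
        obtain ⟨hj1, hj2⟩ := (hT j).1 hj
        rw [← Bool.not_eq_true, adjB_iff M ⟨i, hi1⟩ ⟨j, hj1⟩]
        intro hadj
        exact hS.1 hi2 hj2 hadj.ne hadj
      · intro x hx
        by_cases hxS : (⟨x, hx⟩ : Fin M.length) ∈ S
        · exact Or.inl ((hT x).2 ⟨hx, hxS⟩)
        · right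
          by_contra hcon
          push Not at hcon
          apply hxS
          have h1 : (matGraph M).IsIndepSet (insert ⟨x, hx⟩ S) := by
            intro a ha b hb hab hadj
            rcases ha with rfl | ha
            · rcases hb with rfl | hb
              · exact hab rfl
              · exact hcon b.1 ((hT b.1).2 ⟨b.2, hb⟩) ((adjB_iff M b ⟨x, hx⟩).2 hadj.symm)
            · rcases hb with rfl | hb
              · exact hcon a.1 ((hT a.1).2 ⟨a.2, ha⟩) ((adjB_iff M a ⟨x, hx⟩).2 hadj)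
              · exact hS.1 ha hb hab hadj
          exact hS.2 h1 (Set.subset_insert _ _) (Set.mem_insert _ _)
      · rw [hT]
        rintro ⟨_, h⟩
        exact hu h
      · rw [hT]
        rintro ⟨_, h⟩
        exact hv h
      · rw [List.any_eq_false]
        intro i hi hadj
        obtain ⟨hi1, hi2⟩ := (hT i).1 hi
        rw [Bool.and_eq_true, adjB_iff M ⟨i, hi1⟩ u, adjB_iff M ⟨i, hi1⟩ v] at hadj
        exact hs _ hi2 hadj.1 hadj.2
  · rintro ⟨⟨T, u, v⟩, -, hc⟩ h
    simp only [chk, Bool.and_eq_true, List.all_eq_true, decide_eq_true_eq, Bool.not_eq_true',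
        Bool.or_eq_true, List.any_eq_true, List.mem_range, decide_eq_false_iff_not] at hc
    obtain ⟨⟨⟨⟨⟨⟨⟨⟨c1, c2⟩, c3⟩, c4⟩, c5⟩, c6⟩, c7⟩, c8⟩, c9⟩ := hc
    have hmax : Maximal (matGraph M).IsIndepSet {x : Fin M.length | (x : ℕ) ∈ T} := by
      refine ⟨?_, ?_⟩
      · intro a ha b hb _ hadj
        have h1 := c2 _ ha _ hb
        rw [(adjB_iff M a b).2 hadj] at h1
        exact absurd h1 (by simp)
      · intro T' hT' hTT' x hx
        rcases c3 x.1 x.2 with h1 | ⟨i, hi, h1⟩
        · exact h1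
        · exfalso
          have h2 : (⟨i, c1 i hi⟩ : Fin M.length) ∈ T' := hTT' hi
          have h3 := (adjB_iff M ⟨i, c1 i hi⟩ x).1 h1
          exact hT' h2 hx h3.ne h3
    obtain ⟨s, hs, h1, h2⟩ := h _ hmax ⟨u, c4⟩ ⟨v, c5⟩ ((adjB_iff M ⟨u, c4⟩ ⟨v, c5⟩).1 c6) c7 c8
    rw [List.any_eq_false] at c9
    refine c9 _ hs ?_
    rw [Bool.and_eq_true]
    exact ⟨(adjB_iff M s ⟨u, c4⟩).2 h1, (adjB_iff M s ⟨v, c5⟩).2 h2⟩

theorem inCoNP_triangle : InCoNPP (fun M : List (List Bool) => IsTriangleGraph (matGraph M)) :=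
  inCoNPP_of chk_poly _ not_triangle_iff

end Pool.Agent.H495R3
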