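import Pool.Agent.H495R3.CesPoly
import Pool.Agent.NPC.Dec
import Pool.Agent.H495R3.Tri

/-!
# Membership in NP
-/

set_option autoImplicit false

namespace Pool.Agent.H495R3.CES

open Pool.Agent.NPC

section Rank

variable {L : List (List ℕ)} {n : ℕ} {M : Equiv.Perm (Fin n)}

/-- No coalition means that there is a ranking along which envy decreases. -/
theorem not_blocking_iff : ¬ BlockingCoalition L M ↔
    ∃ r : Fin n → ℕ, (∀ x, r x ≤ n) ∧ ∀ x y, Envy L M x y → r y < r x := by
  classical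
  constructor
  · intro h
    have hc : ∀ y, ¬ Relation.TransGen (Envy L M) y y := by
      intro y hy
      apply h
      refine blocking_of_set (C := {z | Relation.TransGen (Envy L M) y z ∧
        Relation.TransGen (Envy L M) z y}) ⟨y, hy, hy⟩ ?_
      rintro z ⟨h1, h2⟩
      obtain ⟨w, hzw, hwy⟩ := Relation.TransGen.head'_iff.1 h2
      refine ⟨w, ⟨h1.tail hzw, ?_⟩, hzw⟩
      rcases (Relation.reflTransGen_iff_eq_or_transGen).1 hwy with h3 | h3
      · rw [← h3]; exact hy
      · exact h3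
    refine ⟨fun x => (Finset.univ.filter (fun z => Relation.TransGen (Envy L M) x z)).card,
      fun x => (Finset.card_le_univ _).trans (by simp), fun x y hxy => ?_⟩
    refine Finset.card_lt_card ?_
    rw [Finset.ssubset_iff_of_subset]
    · refine ⟨y, ?_, ?_⟩
      · simp only [Finset.mem_filter, Finset.mem_univ, true_and]
        exact Relation.TransGen.single hxy
      · simp only [Finset.mem_filter, Finset.mem_univ, true_and]
        exact hc y
    · intro z hz
      simp only [Finset.mem_filter, Finset.mem_univ, true_and] at hz ⊢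
      exact Relation.TransGen.head hxy hz
  · rintro ⟨r, _, hr⟩ hb
    obtain ⟨C, hC, hC'⟩ := hb.exists_set
    obtain ⟨x, hx, hmin⟩ := Set.exists_min_image C r (Set.toFinite C) hC
    obtain ⟨y, hy, hxy⟩ := hC' x hx
    have := hr x y hxy
    have := hmin y hy
    omega

end Rank

theorem index_eq {l : List ℕ} (hl : l.Nodup) {v : ℕ} (hv : v ∈ l) :
    NPC.index l v = l.idxOf v := by
  have h1 := getElem?_index hv
  have h2 : l[l.idxOf v]? = some v := by
    rw [List.getElem?_eq_getElem (List.idxOf_lt_length_of_mem hv), List.getElem_idxOf]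
  have h3 : NPC.index l v < l.length := index_lt hv
  have h4 := List.idxOf_lt_length_of_mem hv
  rw [List.getElem?_eq_getElem h3] at h1
  rw [List.getElem?_eq_getElem h4] at h2
  exact (List.Nodup.getElem_inj_iff hl).1 ((Option.some.inj h1).trans (Option.some.inj h2).symm)

/-- The verifier. -/
noncomputable def cesChk (p : Inst × (List ℕ × List ℕ) × (List ℕ × List ℕ)) : Bool :=
  decide (p.1.2.length = p.1.1.length) &&
  (p.1.1.all fun l => decide (l.length = p.1.1.length) &&
    (List.range p.1.1.length).all fun a => decide (a ∈ l)) &&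
  (p.1.2.all fun l => decide (l.length = p.1.1.length) &&
    (List.range p.1.1.length).all fun a => decide (a ∈ l)) &&
  ((List.range p.1.1.length).all fun i =>
    decide (p.2.1.1.getD i 0 < p.1.1.length) && decide (p.2.1.2.getD i 0 < p.1.1.length) &&
    decide (p.2.1.2.getD (p.2.1.1.getD i 0) 0 = i) &&
    decide (p.2.1.1.getD (p.2.1.2.getD i 0) 0 = i) &&
    (List.range p.1.1.length).all fun j =>
      (!decide (NPC.index (p.1.1.getD i []) (p.2.1.1.getD j 0) <
          NPC.index (p.1.1.getD i []) (p.2.1.1.getD i 0)) ||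
        decide (p.2.2.1.getD j 0 < p.2.2.1.getD i 0)) &&
      (!decide (NPC.index (p.1.2.getD i []) (p.2.1.2.getD j 0) <
          NPC.index (p.1.2.getD i []) (p.2.1.2.getD i 0)) ||
        decide (p.2.2.2.getD j 0 < p.2.2.2.getD i 0)))

attribute [fun_prop] NPC.Poly.index

theorem cesChk_poly : NPC.Poly cesChk := by
  unfold cesChk
  have hr : NPC.Poly (fun p : Inst × (List ℕ × List ℕ) × (List ℕ × List ℕ) =>
      List.range p.1.1.length) :=
    NPC.Poly.range_length (NPC.Poly.fst (NPC.Poly.fst NPC.Poly.id))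
  refine NPC.Poly.and (NPC.Poly.and (NPC.Poly.and (by fun_prop) ?_) ?_) ?_
  · refine NPC.Poly.all (p := fun (p : Inst × (List ℕ × List ℕ) × (List ℕ × List ℕ)) (l : List ℕ) =>
      decide (l.length = p.1.1.length) &&
      (List.range p.1.1.length).all fun a => decide (a ∈ l)) (by fun_prop) ?_
    refine NPC.Poly.and (by fun_prop) ?_
    refine NPC.Poly.all (p := fun (q : (Inst × (List ℕ × List ℕ) × (List ℕ × List ℕ)) × List ℕ)
      a => decide (a ∈ q.2)) (hr.comp (NPC.Poly.fst NPC.Poly.id)) ?_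
    fun_prop
  · refine NPC.Poly.all (p := fun (p : Inst × (List ℕ × List ℕ) × (List ℕ × List ℕ)) (l : List ℕ) =>
      decide (l.length = p.1.1.length) &&
      (List.range p.1.1.length).all fun a => decide (a ∈ l)) (by fun_prop) ?_
    refine NPC.Poly.and (by fun_prop) ?_
    refine NPC.Poly.all (p := fun (q : (Inst × (List ℕ × List ℕ) × (List ℕ × List ℕ)) × List ℕ)
      a => decide (a ∈ q.2)) (hr.comp (NPC.Poly.fst NPC.Poly.id)) ?_
    fun_prop
  · refine NPC.Poly.all (p := fun (p : Inst × (List ℕ × List ℕ) × (List ℕ × List ℕ)) i =>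
      decide (p.2.1.1.getD i 0 < p.1.1.length) && decide (p.2.1.2.getD i 0 < p.1.1.length) &&
      decide (p.2.1.2.getD (p.2.1.1.getD i 0) 0 = i) &&
      decide (p.2.1.1.getD (p.2.1.2.getD i 0) 0 = i) &&
      (List.range p.1.1.length).all fun j =>
        (!decide (NPC.index (p.1.1.getD i []) (p.2.1.1.getD j 0) <
            NPC.index (p.1.1.getD i []) (p.2.1.1.getD i 0)) ||
          decide (p.2.2.1.getD j 0 < p.2.2.1.getD i 0)) &&
        (!decide (NPC.index (p.1.2.getD i []) (p.2.1.2.getD j 0) <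
            NPC.index (p.1.2.getD i []) (p.2.1.2.getD i 0)) ||
          decide (p.2.2.2.getD j 0 < p.2.2.2.getD i 0))) hr ?_
    refine NPC.Poly.and (by fun_prop) ?_
    refine NPC.Poly.all (p := fun (q : (Inst × (List ℕ × List ℕ) × (List ℕ × List ℕ)) × ℕ) j =>
        (!decide (NPC.index (q.1.1.1.getD q.2 []) (q.1.2.1.1.getD j 0) <
            NPC.index (q.1.1.1.getD q.2 []) (q.1.2.1.1.getD q.2 0)) ||
          decide (q.1.2.2.1.getD j 0 < q.1.2.2.1.getD q.2 0)) &&
        (!decide (NPC.index (q.1.1.2.getD q.2 []) (q.1.2.1.2.getD j 0) <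
            NPC.index (q.1.1.2.getD q.2 []) (q.1.2.1.2.getD q.2 0)) ||
          decide (q.1.2.2.2.getD j 0 < q.1.2.2.2.getD q.2 0)))
      (hr.comp (NPC.Poly.fst NPC.Poly.id)) ?_
    have g1 : NPC.Poly (fun x : ((Inst × (List ℕ × List ℕ) × (List ℕ × List ℕ)) × ℕ) × ℕ =>
        x.1.1.1.1.getD x.1.2 []) := by fun_prop
    have g2 : NPC.Poly (fun x : ((Inst × (List ℕ × List ℕ) × (List ℕ × List ℕ)) × ℕ) × ℕ =>
        x.1.1.1.2.getD x.1.2 []) := by fun_prop
    have g3 : NPC.Poly (fun x : ((Inst × (List ℕ × List ℕ) × (List ℕ × List ℕ)) × ℕ) × ℕ =>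
        x.1.1.2.1.1.getD x.1.2 0) := by fun_prop
    have g4 : NPC.Poly (fun x : ((Inst × (List ℕ × List ℕ) × (List ℕ × List ℕ)) × ℕ) × ℕ =>
        x.1.1.2.1.1.getD x.2 0) := by fun_prop
    have g5 : NPC.Poly (fun x : ((Inst × (List ℕ × List ℕ) × (List ℕ × List ℕ)) × ℕ) × ℕ =>
        x.1.1.2.1.2.getD x.1.2 0) := by fun_prop
    have g6 : NPC.Poly (fun x : ((Inst × (List ℕ × List ℕ) × (List ℕ × List ℕ)) × ℕ) × ℕ =>
        x.1.1.2.1.2.getD x.2 0) := by fun_prop
    refine NPC.Poly.and (NPC.Poly.or (NPC.Poly.not (NPC.Poly.decide_lt (NPC.Poly.index g1 g4)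
      (NPC.Poly.index g1 g3))) (NPC.Poly.decide_lt ?_ ?_)) (NPC.Poly.or (NPC.Poly.not
      (NPC.Poly.decide_lt (NPC.Poly.index g2 g6) (NPC.Poly.index g2 g5)))
      (NPC.Poly.decide_lt ?_ ?_))
    · fun_prop
    · fun_prop
    · fun_prop
    · fun_prop

theorem perm_range_iff (l : List ℕ) (n : ℕ) :
    l.Perm (List.range n) ↔ l.length = n ∧ ∀ a < n, a ∈ l := by
  constructor
  · intro h
    refine ⟨by simpa using h.length_eq, fun a ha => ?_⟩
    rw [h.mem_iff, List.mem_range]
    exact ha
  · rintro ⟨h1, h2⟩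
    have h3 : (List.range n).Subperm l := by
      refine List.Nodup.subperm List.nodup_range ?_
      intro a ha
      exact h2 a (List.mem_range.1 ha)
    exact (h3.perm_of_length_le (by simp [h1])).symm

theorem getD_ofFn {n : ℕ} (f : Fin n → ℕ) (i : Fin n) : (List.ofFn f).getD i.1 0 = f i := by
  rw [List.getD_eq_getElem?_getD, List.getElem?_ofFn]
  simp

theorem getD_mem {L : List (List ℕ)} {i : ℕ} (hi : i < L.length) : L.getD i [] ∈ L := by
  rw [List.getD_eq_getElem?_getD, List.getElem?_eq_getElem hi]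
  exact List.getElem_mem hi

theorem sz_ofFn_le {n : ℕ} (f : Fin n → ℕ) (hf : ∀ i, f i ≤ n) :
    sz (List.ofFn f) ≤ n * (4 * n + 2) + 1 := by
  have h := sz_le_length_mul (List.ofFn f) (4 * n + 1) (by
    intro a ha
    rw [List.mem_ofFn] at ha
    obtain ⟨i, rfl⟩ := ha
    have h1 := sz_nat_le (f i)
    have h2 := NPC.Poly.size_le_self (f i)
    have h3 := hf i
    omega)
  simpa using h

theorem hasCES_iff (I : Inst) : HasCES I ↔
    ∃ w : (List ℕ × List ℕ) × (List ℕ × List ℕ),
      sz w ≤ (Polynomial.C 16 * Polynomial.X * Polynomial.X + Polynomial.C 8 * Polynomial.X +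
        Polynomial.C 20 : Polynomial ℕ).eval (sz I) ∧ cesChk (I, w) = true := by
  classical
  constructor
  · rintro ⟨⟨v1, v2, v3⟩, M, s1, s2⟩
    obtain ⟨r1, hr1, hr1'⟩ := not_blocking_iff.1 s1
    obtain ⟨r2, hr2, hr2'⟩ := not_blocking_iff.1 s2
    let fm : Fin I.n → ℕ := fun i => (M i).1
    let fi : Fin I.n → ℕ := fun i => (M.symm i).1
    refine ⟨((List.ofFn fm, List.ofFn fi), (List.ofFn r1, List.ofFn r2)), ?_, ?_⟩
    · have a1 := sz_ofFn_le fm (fun i => (M i).2.le)
      have a2 := sz_ofFn_le fi (fun i => (M.symm i).2.le)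
      have a3 := sz_ofFn_le r1 hr1
      have a4 := sz_ofFn_le r2 hr2
      have a5 := length_lt_sz I.1
      have a6 : sz I.1 ≤ sz I := by
        obtain ⟨x, y⟩ := I
        simp only [sz_pair]
        omega
      simp only [sz_pair, Polynomial.eval_add, Polynomial.eval_mul, Polynomial.eval_C,
        Polynomial.eval_X]
      unfold Inst.n at *
      nlinarith
    · have hprefM : ∀ (i j : Fin I.n), NPC.index (I.1.getD i.1 []) (M j).1 <
          NPC.index (I.1.getD i.1 []) (M i).1 ↔ Envy I.1 M i j := by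
        intro i j
        have hl : (I.1.getD i.1 []).Perm (List.range I.n) := v2 _ (getD_mem i.2)
        have hnd : (I.1.getD i.1 []).Nodup := hl.nodup_iff.2 List.nodup_range
        rw [index_eq hnd (by rw [hl.mem_iff, List.mem_range]; exact (M j).2),
          index_eq hnd (by rw [hl.mem_iff, List.mem_range]; exact (M i).2)]
        rfl
      have hprefW : ∀ (i j : Fin I.n), NPC.index (I.2.getD i.1 []) (M.symm j).1 <
          NPC.index (I.2.getD i.1 []) (M.symm i).1 ↔ Envy I.2 M.symm i j := by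
        intro i j
        have hl : (I.2.getD i.1 []).Perm (List.range I.n) :=
          v3 _ (getD_mem (by rw [v1]; exact i.2))
        have hnd : (I.2.getD i.1 []).Nodup := hl.nodup_iff.2 List.nodup_range
        rw [index_eq hnd (by rw [hl.mem_iff, List.mem_range]; exact (M.symm j).2),
          index_eq hnd (by rw [hl.mem_iff, List.mem_range]; exact (M.symm i).2)]
        rfl
      simp only [cesChk, Bool.and_eq_true, List.all_eq_true, decide_eq_true_eq, Bool.or_eq_true,
        Bool.not_eq_true', List.mem_range, decide_eq_false_iff_not]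
      refine ⟨⟨⟨v1, ?_⟩, ?_⟩, ?_⟩
      · intro l hl
        exact (perm_range_iff l _).1 (v2 l hl)
      · intro l hl
        exact (perm_range_iff l _).1 (v3 l hl)
      · intro i hi
        have e1 : (List.ofFn fm).getD i 0 = (M ⟨i, hi⟩).1 := getD_ofFn fm ⟨i, hi⟩
        have e2 : (List.ofFn fi).getD i 0 = (M.symm ⟨i, hi⟩).1 := getD_ofFn fi ⟨i, hi⟩
        refine ⟨⟨⟨⟨?_, ?_⟩, ?_⟩, ?_⟩, ?_⟩
        · rw [e1]; exact (M ⟨i, hi⟩).2
        · rw [e2]; exact (M.symm ⟨i, hi⟩).2
        · rw [e1, getD_ofFn fi (M ⟨i, hi⟩)]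
          simp [fi]
        · rw [e2, getD_ofFn fm (M.symm ⟨i, hi⟩)]
          simp [fm]
        · intro j hj
          have e3 : (List.ofFn fm).getD j 0 = (M ⟨j, hj⟩).1 := getD_ofFn fm ⟨j, hj⟩
          have e4 : (List.ofFn fi).getD j 0 = (M.symm ⟨j, hj⟩).1 := getD_ofFn fi ⟨j, hj⟩
          rw [e1, e2, e3, e4, getD_ofFn r1 ⟨i, hi⟩, getD_ofFn r1 ⟨j, hj⟩, getD_ofFn r2 ⟨i, hi⟩,
            getD_ofFn r2 ⟨j, hj⟩]
          constructor
          · by_cases h : Envy I.1 M ⟨i, hi⟩ ⟨j, hj⟩
            · exact Or.inr (hr1' _ _ h)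
            · exact Or.inl (fun h' => h ((hprefM _ _).1 h'))
          · by_cases h : Envy I.2 M.symm ⟨i, hi⟩ ⟨j, hj⟩
            · exact Or.inr (hr2' _ _ h)
            · exact Or.inl (fun h' => h ((hprefW _ _).1 h'))
  · rintro ⟨⟨⟨m, mi⟩, ⟨r1, r2⟩⟩, -, hc⟩
    simp only [cesChk, Bool.and_eq_true, List.all_eq_true, decide_eq_true_eq, Bool.or_eq_true,
        Bool.not_eq_true', List.mem_range, decide_eq_false_iff_not] at hc
    obtain ⟨⟨⟨v1, v2⟩, v3⟩, hc⟩ := hc
    have v2' : ∀ l ∈ I.1, l.Perm (List.range I.n) := fun l hl => (perm_range_iff l _).2 (v2 l hl)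
    have v3' : ∀ l ∈ I.2, l.Perm (List.range I.n) := fun l hl => (perm_range_iff l _).2 (v3 l hl)
    refine ⟨⟨v1, v2', v3'⟩, ?_⟩
    let M : Equiv.Perm (Fin I.n) :=
      { toFun := fun i => ⟨m.getD i.1 0, (hc i.1 i.2).1.1.1.1⟩
        invFun := fun i => ⟨mi.getD i.1 0, (hc i.1 i.2).1.1.1.2⟩
        left_inv := fun i => Fin.ext (hc i.1 i.2).1.1.2
        right_inv := fun i => Fin.ext (hc i.1 i.2).1.2 }
    have hM : ∀ i : Fin I.n, (M i).1 = m.getD i.1 0 := fun _ => rfl
    have hMi : ∀ i : Fin I.n, (M.symm i).1 = mi.getD i.1 0 := fun _ => rfl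
    have hbound : ∀ (L : List (List ℕ)) (N : Equiv.Perm (Fin I.n)) (r : Fin I.n → ℕ),
        (∀ x y, Envy L N x y → r y < r x) → ¬ BlockingCoalition L N := by
      intro L N r hr hb
      obtain ⟨C, hC, hC'⟩ := hb.exists_set
      obtain ⟨x, hx, hmin⟩ := Set.exists_min_image C r (Set.toFinite C) hC
      obtain ⟨y, hy, hxy⟩ := hC' x hx
      have := hr x y hxy
      have := hmin y hy
      omega
    refine ⟨M, hbound I.1 M (fun x => r1.getD x.1 0) ?_,
      hbound I.2 M.symm (fun x => r2.getD x.1 0) ?_⟩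
    · intro x y hxy
      have h1 := ((hc x.1 x.2).2 y.1 y.2).1
      rcases h1 with h1 | h1
      · exfalso
        apply h1
        have hl : (I.1.getD x.1 []).Perm (List.range I.n) := v2' _ (getD_mem x.2)
        have hnd : (I.1.getD x.1 []).Nodup := hl.nodup_iff.2 List.nodup_range
        rw [← hM, ← hM, index_eq hnd (by rw [hl.mem_iff, List.mem_range]; exact (M y).2),
          index_eq hnd (by rw [hl.mem_iff, List.mem_range]; exact (M x).2)]
        exact hxy
      · exact h1
    · intro x y hxy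
      have h1 := ((hc x.1 x.2).2 y.1 y.2).2
      rcases h1 with h1 | h1
      · exfalso
        apply h1
        have hl : (I.2.getD x.1 []).Perm (List.range I.n) :=
          v3' _ (getD_mem (by rw [v1]; exact x.2))
        have hnd : (I.2.getD x.1 []).Nodup := hl.nodup_iff.2 List.nodup_range
        rw [← hMi, ← hMi, index_eq hnd (by rw [hl.mem_iff, List.mem_range]; exact (M.symm y).2),
          index_eq hnd (by rw [hl.mem_iff, List.mem_range]; exact (M.symm x).2)]
        exact hxy
      · exact h1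

theorem inNP_HasCES : InNPP HasCES := inNPP_of cesChk_poly _ hasCES_iff

end Pool.Agent.H495R3.CES
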