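import Pool.Agent.H495R3.CesMem

/-!
# Coalition-exchange-stable matchings are NP-hard to find

Deciding whether an instance of the stable marriage problem with complete strict preference lists
has a coalition-exchange-stable matching is NP-complete.  Hence the search problem is NP-hard, as
conjectured by Cechlárová and Manlove.

Reduction from 3SAT.  Two special men `g`, `y` and two special women `x`, `h` are used to truncate
the lists of the ordinary agents: in a stable matching `g` is matched with `x` and `y` with `h`,
each ordinary man `m` has a partner in his truncated list `Lm m` and each ordinary woman has a
partner in her truncated list, and envy of ordinary agents matters only inside the truncated lists
(`CES.sound`, `CES.complete_men`, `CES.complete_women`).  For every variable there is a cycle in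
the graph of admissible pairs, whose two perfect matchings are the two truth values.  Three men
representing the literals of a clause form an exchange-blocking coalition exactly when all three
literals are false, and all other envy is harmless.
-/

set_option autoImplicit false

namespace Pool.Agent.H495R3.CesNPComplete

open Pool.Agent.NPC Pool.Agent.H495R3.CES

/-- **It is NP-complete to decide whether an instance of the stable marriage problem has a
coalition-exchange-stable matching.** -/
theorem result : InNPP HasCES ∧ NPHardP HasCES :=
  ⟨inNP_HasCES, hardI_HasCES.toNPHardP⟩

end Pool.Agent.H495R3.CesNPComplete
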