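import Pool.Agent.H495R3.CesCor

/-!
# The reduction is computable in polynomial time
-/

set_option autoImplicit false

namespace Pool.Agent.H495R3.CES

open Pool.Agent.NPC

variable {α : Type} [TEnc α]

theorem prv_poly {P q : α → ℕ} (hP : Poly P) (hq : Poly q) :
    Poly (fun a => prv (P a) (q a)) := by
  unfold prv
  fun_prop

attribute [fun_prop] prv_poly

theorem nx_poly {P q : α → ℕ} (hP : Poly P) (hq : Poly q) :
    Poly (fun a => nx (P a) (q a)) := by
  unfold nx
  fun_prop

attribute [fun_prop] nx_poly

theorem lit_poly {φ : α → List Cl} {k : α → ℕ} (hf : Poly φ) (hk : Poly k) :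
    Poly (fun a => lit (φ a) (k a)) := by
  unfold lit
  fun_prop

attribute [fun_prop] lit_poly

theorem nxt_poly {k : α → ℕ} (hk : Poly k) : Poly (fun a => nxt (k a)) := by
  unfold nxt
  fun_prop

attribute [fun_prop] nxt_poly

theorem per_poly {φ : α → List Cl} (hf : Poly φ) : Poly (fun a => per (φ a)) := by
  unfold per
  fun_prop

attribute [fun_prop] per_poly

theorem occ_poly {φ : α → List Cl} {k : α → ℕ} (hf : Poly φ) (hk : Poly k) :
    Poly (fun a => occ (φ a) (k a)) := by
  unfold occ
  fun_prop

attribute [fun_prop] occ_poly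

theorem goodM_poly {k : α → ℕ} (hk : Poly k) : Poly (fun a => goodM (k a)) := by
  unfold goodM
  fun_prop

attribute [fun_prop] goodM_poly

theorem badM_poly {P k : α → ℕ} (hP : Poly P) (hk : Poly k) :
    Poly (fun a => badM (P a) (k a)) := by
  unfold badM
  fun_prop

attribute [fun_prop] badM_poly

theorem Lm_poly {φ : α → List Cl} {k : α → ℕ} (hf : Poly φ) (hk : Poly k) :
    Poly (fun a => Lm (φ a) (k a)) := by
  unfold Lm
  fun_prop

attribute [fun_prop] Lm_poly

theorem Lw_poly {φ : α → List Cl} {k : α → ℕ} (hf : Poly φ) (hk : Poly k) :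
    Poly (fun a => Lw (φ a) (k a)) := by
  unfold Lw
  fun_prop

attribute [fun_prop] Lw_poly

theorem range_num {φ : α → List Cl} (hf : Poly φ) :
    Poly (fun a => List.range (num (φ a))) := by
  have h : UPoly (fun a => num (φ a)) := by
    unfold num per
    exact ((UPoly.const 4).mul ((UPoly.const 3).mul (UPoly.length hf))).mul
      ((UPoly.const 3).mul (UPoly.length hf))
  exact h.range

attribute [fun_prop] range_num

theorem num_poly {φ : α → List Cl} (hf : Poly φ) : Poly (fun a => num (φ a)) := by
  unfold num
  fun_prop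

attribute [fun_prop] num_poly

theorem red_poly : Poly red := by
  unfold red comp full
  have h0 : Poly (fun φ : List Cl => List.range (num φ)) := range_num NPC.Poly.id
  refine NPC.Poly.pair (NPC.Poly.append (NPC.Poly.map (F := fun (φ : List Cl) q =>
      Lm φ q ++ num φ :: ((List.range (num φ)).filter (fun a => decide (a ∉ Lm φ q)) ++
        [num φ + 1])) h0 ?_) ?_)
    (NPC.Poly.append (NPC.Poly.map (F := fun (φ : List Cl) q =>
      Lw φ q ++ (num φ + 1) :: ((List.range (num φ)).filter (fun a => decide (a ∉ Lw φ q)) ++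
        [num φ])) h0 ?_) ?_)
  · fun_prop
  · fun_prop
  · fun_prop
  · fun_prop

/-- Existence of a coalition-exchange-stable matching is hard. -/
theorem hardI_HasCES : HardI HasCES :=
  (hardPr_SAT3b.trans (Pr' := fun _ => True) red_poly (fun _ _ => trivial)
    (fun _ h => red_correct h.2.2 h.1 h.2.1)).toHardI

end Pool.Agent.H495R3.CES
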