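import Pool.Agent.H495R3.CesComp

/-!
# The reduction from 3SAT

For every variable `v` there is a cycle of `P` men and `P` women (`P = 12 m` for `m` clauses); the
agents of the cycle have the numbers `P * v + i` with `i < P`.  Man `q` can be matched with woman
`q` (if the variable is true) or with woman `prv P q` (if it is false).
-/

set_option autoImplicit false

namespace Pool.Agent.H495R3.CES

open Pool.Agent.NPC

/-- Clauses with three literals. -/
abbrev Cl := (Bool × ℕ) × (Bool × ℕ) × (Bool × ℕ)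

/-- The previous number in the cycle. -/
def prv (P q : ℕ) : ℕ := if q % P = 0 then q + (P - 1) else q - 1

/-- The next number in the cycle. -/
def nx (P q : ℕ) : ℕ := if (q + 1) % P = 0 then q + 1 - P else q + 1

/-- The literal in the slot `k`. -/
def lit (φ : List Cl) (k : ℕ) : Bool × ℕ :=
  (φ[k / 3]?).elim (false, 0) (fun c => if k % 3 = 0 then c.1 else if k % 3 = 1 then c.2.1
    else c.2.2)

/-- The next slot of the same clause. -/
def nxt (k : ℕ) : ℕ := 3 * (k / 3) + (k % 3 + 1) % 3

/-- The length of the cycles. -/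
def per (φ : List Cl) : ℕ := 4 * (3 * φ.length)

/-- The man representing the slot `k`. -/
def occ (φ : List Cl) (k : ℕ) : ℕ :=
  per φ * (lit φ k).2 + 4 * k + (if (lit φ k).1 = true then 2 else 1)

/-- The favourite of man `q`. -/
def goodM (q : ℕ) : ℕ := if q % 2 = 0 then q else q - 1

/-- The last choice of man `q`. -/
def badM (P q : ℕ) : ℕ := if q % 2 = 0 then prv P q else q

/-- The truncated lists of the men. -/
def Lm (φ : List Cl) (q : ℕ) : List ℕ :=
  if occ φ ((q % per φ) / 4) = q then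
    [goodM q, occ φ (nxt ((q % per φ) / 4)), prv (per φ) (occ φ (nxt ((q % per φ) / 4))),
      badM (per φ) q]
  else [goodM q, badM (per φ) q]

/-- The truncated lists of the women. -/
def Lw (φ : List Cl) (q : ℕ) : List ℕ :=
  if q % 2 = 0 then [q, q + 1] else [nx (per φ) q, q]

/-- The number of ordinary agents of each sex. -/
def num (φ : List Cl) : ℕ := per φ * (3 * φ.length)

/-- The reduction. -/
def red (φ : List Cl) : Inst := comp (num φ) (Lm φ) (Lw φ)

/-! ### Arithmetic -/

section Arith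

variable {P : ℕ}

theorem exists_ji (hP : 0 < P) (q : ℕ) : ∃ j i, i < P ∧ q = P * j + i :=
  ⟨q / P, q % P, Nat.mod_lt _ hP, (Nat.div_add_mod q P).symm⟩

theorem mod_ji {j i : ℕ} (h : i < P) : (P * j + i) % P = i := by
  rw [Nat.mul_add_mod, Nat.mod_eq_of_lt h]

theorem div_ji {j i : ℕ} (h : i < P) : (P * j + i) / P = j := by
  rw [Nat.mul_add_div (by omega), Nat.div_eq_of_lt h, Nat.add_zero]

theorem prv_ji {j i : ℕ} (h : i < P) :
    prv P (P * j + i) = P * j + (if i = 0 then P - 1 else i - 1) := by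
  unfold prv
  rw [mod_ji h]
  split_ifs with h1
  · omega
  · omega

theorem nx_ji {j i : ℕ} (h : i < P) :
    nx P (P * j + i) = P * j + (if i + 1 = P then 0 else i + 1) := by
  unfold nx
  by_cases h1 : i + 1 = P
  · have h2 : (P * j + i + 1) % P = 0 := by
      rw [add_assoc, h1, Nat.mul_add_mod, Nat.mod_self]
    rw [if_pos h2, if_pos h1]
    omega
  · have h2 : (P * j + i + 1) % P = i + 1 := by
      rw [add_assoc]
      exact mod_ji (by omega)
    rw [h2, if_neg (by omega), if_neg h1]
    omega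

theorem lt_ji {j i N : ℕ} (h : i < P) : P * j + i < P * N ↔ j < N := by
  constructor
  · intro h1
    by_contra h2
    have : P * N ≤ P * j := Nat.mul_le_mul_left P (by omega)
    omega
  · intro h1
    have : P * (j + 1) ≤ P * N := Nat.mul_le_mul_left P (by omega)
    rw [mul_add, mul_one] at this
    omega

theorem nx_prv (hP : 0 < P) (q : ℕ) : nx P (prv P q) = q := by
  obtain ⟨j, i, hi, rfl⟩ := exists_ji hP q
  rw [prv_ji hi, nx_ji (by split_ifs <;> omega)]
  split_ifs <;> omega

theorem prv_nx (hP : 0 < P) (q : ℕ) : prv P (nx P q) = q := by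
  obtain ⟨j, i, hi, rfl⟩ := exists_ji hP q
  rw [nx_ji hi, prv_ji (by split_ifs <;> omega)]
  by_cases h : i + 1 = P
  · rw [if_pos h, if_pos rfl]
    omega
  · rw [if_neg h, if_neg (by omega)]
    omega

theorem prv_div (hP : 0 < P) (q : ℕ) : prv P q / P = q / P := by
  obtain ⟨j, i, hi, rfl⟩ := exists_ji hP q
  rw [prv_ji hi, div_ji hi, div_ji (by split_ifs <;> omega)]

theorem nx_div (hP : 0 < P) (q : ℕ) : nx P q / P = q / P := by
  obtain ⟨j, i, hi, rfl⟩ := exists_ji hP q
  rw [nx_ji hi, div_ji hi, div_ji (by split_ifs <;> omega)]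

theorem prv_lt (hP : 0 < P) {q N : ℕ} : prv P q < P * N ↔ q < P * N := by
  obtain ⟨j, i, hi, rfl⟩ := exists_ji hP q
  rw [prv_ji hi, lt_ji hi, lt_ji (by split_ifs <;> omega)]

theorem nx_lt (hP : 0 < P) {q N : ℕ} : nx P q < P * N ↔ q < P * N := by
  obtain ⟨j, i, hi, rfl⟩ := exists_ji hP q
  rw [nx_ji hi, lt_ji hi, lt_ji (by split_ifs <;> omega)]

theorem prv_ne (hP : 2 ≤ P) (q : ℕ) : prv P q ≠ q := by
  obtain ⟨j, i, hi, rfl⟩ := exists_ji (by omega : 0 < P) q
  rw [prv_ji hi]
  split_ifs <;> omega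

theorem nx_ne (hP : 2 ≤ P) (q : ℕ) : nx P q ≠ q := by
  obtain ⟨j, i, hi, rfl⟩ := exists_ji (by omega : 0 < P) q
  rw [nx_ji hi]
  split_ifs <;> omega

/-- parity -/
theorem mod_two_ji (hP : P % 2 = 0) {j i : ℕ} : (P * j + i) % 2 = i % 2 := by
  obtain ⟨r, rfl⟩ : ∃ r, P = 2 * r := ⟨P / 2, by omega⟩
  rw [mul_assoc, Nat.mul_add_mod]

/-- For odd `q` the previous number is `q - 1`. -/
theorem prv_odd (hP : P % 2 = 0) (hP0 : 0 < P) {q : ℕ} (hq : q % 2 = 1) : prv P q = q - 1 := by
  obtain ⟨j, i, hi, rfl⟩ := exists_ji hP0 q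
  rw [mod_two_ji hP] at hq
  rw [prv_ji hi, if_neg (by omega)]
  omega

/-- For even `q` the next number is `q + 1`. -/
theorem nx_even (hP : P % 2 = 0) (hP0 : 0 < P) {q : ℕ} (hq : q % 2 = 0) : nx P q = q + 1 := by
  obtain ⟨j, i, hi, rfl⟩ := exists_ji hP0 q
  rw [mod_two_ji hP] at hq
  rw [nx_ji hi, if_neg (by omega)]
  omega

theorem prv_mod_two (hP : P % 2 = 0) (hP0 : 0 < P) (q : ℕ) : prv P q % 2 = (q + 1) % 2 := by
  obtain ⟨j, i, hi, rfl⟩ := exists_ji hP0 q
  rw [prv_ji hi, mod_two_ji hP, add_assoc, mod_two_ji hP]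
  split_ifs <;> omega

theorem nx_mod_two (hP : P % 2 = 0) (hP0 : 0 < P) (q : ℕ) : nx P q % 2 = (q + 1) % 2 := by
  obtain ⟨j, i, hi, rfl⟩ := exists_ji hP0 q
  rw [nx_ji hi, mod_two_ji hP, add_assoc, mod_two_ji hP]
  split_ifs <;> omega

end Arith

/-! ### Slots -/

section Slots

variable {φ : List Cl}

theorem lit_zero {c : ℕ} (hc : c < φ.length) : lit φ (3 * c) = φ[c].1 := by
  unfold lit
  rw [show 3 * c / 3 = c by omega, show 3 * c % 3 = 0 by omega, List.getElem?_eq_getElem hc]
  rfl

theorem lit_one {c : ℕ} (hc : c < φ.length) : lit φ (3 * c + 1) = φ[c].2.1 := by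
  unfold lit
  rw [show (3 * c + 1) / 3 = c by omega, show (3 * c + 1) % 3 = 1 by omega,
    List.getElem?_eq_getElem hc]
  rfl

theorem lit_two {c : ℕ} (hc : c < φ.length) : lit φ (3 * c + 2) = φ[c].2.2 := by
  unfold lit
  rw [show (3 * c + 2) / 3 = c by omega, show (3 * c + 2) % 3 = 2 by omega,
    List.getElem?_eq_getElem hc]
  rfl

theorem nxt_lt {k : ℕ} (hk : k < 3 * φ.length) : nxt k < 3 * φ.length := by
  unfold nxt
  omega

theorem nxt3 (k : ℕ) : nxt (nxt (nxt k)) = k := by
  unfold nxt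
  omega

theorem nxt_ne (k : ℕ) : nxt k ≠ k := by
  unfold nxt
  omega

theorem lit_lt (hφ : Bounded3 φ) {k : ℕ} (hk : k < 3 * φ.length) :
    (lit φ k).2 < 3 * φ.length := by
  have hc : k / 3 < φ.length := by omega
  obtain ⟨h1, h2, h3⟩ := hφ _ (List.getElem_mem hc)
  unfold lit
  rw [List.getElem?_eq_getElem hc]
  simp only [Option.elim_some]
  split_ifs
  · exact h1
  · exact h2
  · exact h3

theorem lit_ne (hφ : Distinct3 φ) {k : ℕ} (hk : k < 3 * φ.length) :
    (lit φ (nxt k)).2 ≠ (lit φ k).2 := by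
  have hc : k / 3 < φ.length := by omega
  obtain ⟨h1, h2, h3⟩ := hφ _ (List.getElem_mem hc)
  have hk' : k = 3 * (k / 3) ∨ k = 3 * (k / 3) + 1 ∨ k = 3 * (k / 3) + 2 := by omega
  rcases hk' with h | h | h
  · have hn : nxt k = 3 * (k / 3) + 1 := by unfold nxt; omega
    rw [hn, lit_one hc]
    have e : lit φ k = φ[k / 3].1 := by
      conv_lhs => rw [h]
      rw [lit_zero hc]
    rw [e]
    exact h1.symm
  · have hn : nxt k = 3 * (k / 3) + 2 := by unfold nxt; omega
    rw [hn, lit_two hc]
    have e : lit φ k = φ[k / 3].2.1 := by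
      conv_lhs => rw [h]
      rw [lit_one hc]
    rw [e]
    exact h3.symm
  · have hn : nxt k = 3 * (k / 3) := by unfold nxt; omega
    rw [hn, lit_zero hc]
    have e : lit φ k = φ[k / 3].2.2 := by
      conv_lhs => rw [h]
      rw [lit_two hc]
    rw [e]
    exact h2

end Slots

/-! ### Facts about the instance -/

section Facts

variable {φ : List Cl}

theorem per_pos (h : φ ≠ []) : 12 ≤ per φ := by
  have := List.length_pos_iff.2 h
  unfold per
  omega

theorem per_even : per φ % 2 = 0 := by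
  unfold per
  omega

/-- The position of an occurrence in its cycle. -/
def pos (φ : List Cl) (k : ℕ) : ℕ := 4 * k + (if (lit φ k).1 = true then 2 else 1)

theorem occ_eq (k : ℕ) : occ φ k = per φ * (lit φ k).2 + pos φ k := by
  unfold occ pos
  ring

theorem pos_lt {k : ℕ} (hk : k < 3 * φ.length) : pos φ k + 1 < per φ := by
  unfold pos per
  split_ifs <;> omega

theorem pos_pos (k : ℕ) : 0 < pos φ k := by
  unfold pos
  split_ifs <;> omega

theorem pos_div (k : ℕ) : pos φ k / 4 = k := by
  unfold pos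
  split_ifs <;> omega

theorem occ_lt (hb : Bounded3 φ) {k : ℕ} (hk : k < 3 * φ.length) : occ φ k < num φ := by
  have := pos_lt hk
  rw [occ_eq]
  unfold num
  rw [lt_ji (by omega)]
  exact lit_lt hb hk

theorem occ_mod {k : ℕ} (hk : k < 3 * φ.length) : (occ φ k % per φ) / 4 = k := by
  have := pos_lt hk
  rw [occ_eq, mod_ji (by omega), pos_div]

theorem occ_div {k : ℕ} (hk : k < 3 * φ.length) : occ φ k / per φ = (lit φ k).2 := by
  have := pos_lt hk
  rw [occ_eq, div_ji (by omega)]

theorem occ_mod_two {k : ℕ} : occ φ k % 2 = if (lit φ k).1 = true then 0 else 1 := by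
  rw [occ_eq, mod_two_ji per_even]
  unfold pos
  split_ifs <;> omega

theorem slot_lt (h : φ ≠ []) (q : ℕ) : (q % per φ) / 4 < 3 * φ.length := by
  have := per_pos h
  have h1 := Nat.mod_lt q (by omega : 0 < per φ)
  unfold per at h1 ⊢
  omega

theorem goodM_eq (h : φ ≠ []) (q : ℕ) :
    goodM q = if q % 2 = 0 then q else prv (per φ) q := by
  unfold goodM
  split_ifs with h1
  · rfl
  · rw [prv_odd per_even (by have := per_pos h; omega) (by omega)]

theorem good_ne_bad (h : φ ≠ []) (q : ℕ) : goodM q ≠ badM (per φ) q := by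
  have := per_pos h
  have h2 := prv_ne (P := per φ) (by omega) q
  rw [goodM_eq h]
  unfold badM
  split_ifs
  · exact h2.symm
  · exact h2

theorem good_lt (h : φ ≠ []) {q : ℕ} (hq : q < num φ) : goodM q < num φ := by
  unfold goodM
  split_ifs <;> omega

theorem bad_lt (h : φ ≠ []) {q : ℕ} (hq : q < num φ) : badM (per φ) q < num φ := by
  have := per_pos h
  unfold badM
  split_ifs
  · unfold num at *
    rwa [prv_lt (by omega)]
  · exact hq

theorem good_div (h : φ ≠ []) (q : ℕ) : goodM q / per φ = q / per φ := by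
  have := per_pos h
  rw [goodM_eq h]
  split_ifs
  · rfl
  · exact prv_div (by omega) q

theorem bad_div (h : φ ≠ []) (q : ℕ) : badM (per φ) q / per φ = q / per φ := by
  have := per_pos h
  unfold badM
  split_ifs
  · exact prv_div (by omega) q
  · rfl

theorem Lm_lt (h : φ ≠ []) (hb : Bounded3 φ) : ∀ q < num φ, ∀ x ∈ Lm φ q, x < num φ := by
  intro q hq x hx
  have hper := per_pos h
  have hs := nxt_lt (slot_lt h q)
  have ho := occ_lt hb hs
  have hp : prv (per φ) (occ φ (nxt ((q % per φ) / 4))) < num φ := by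
    unfold num at *
    rwa [prv_lt (by omega)]
  unfold Lm at hx
  split_ifs at hx
  · simp only [List.mem_cons, List.not_mem_nil, or_false] at hx
    rcases hx with rfl | rfl | rfl | rfl
    · exact good_lt h hq
    · exact ho
    · exact hp
    · exact bad_lt h hq
  · simp only [List.mem_cons, List.not_mem_nil, or_false] at hx
    rcases hx with rfl | rfl
    · exact good_lt h hq
    · exact bad_lt h hq

theorem Lw_lt (h : φ ≠ []) : ∀ q < num φ, ∀ x ∈ Lw φ q, x < num φ := by
  intro q hq x hx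
  have hper := per_pos h
  have hn : nx (per φ) q < num φ := by
    unfold num at *
    rwa [nx_lt (by omega)]
  unfold Lw at hx
  split_ifs at hx with h1
  · rw [nx_even per_even (by omega) h1] at hn
    simp only [List.mem_cons, List.not_mem_nil, or_false] at hx
    rcases hx with rfl | rfl
    · exact hq
    · exact hn
  · simp only [List.mem_cons, List.not_mem_nil, or_false] at hx
    rcases hx with rfl | rfl
    · exact hn
    · exact hq

/-- The members of the other cycle. -/
theorem other_div (h : φ ≠ []) (hd : Distinct3 φ) {q : ℕ}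
    (ho : occ φ ((q % per φ) / 4) = q) :
    occ φ (nxt ((q % per φ) / 4)) / per φ ≠ q / per φ := by
  have hs := slot_lt h q
  rw [occ_div (nxt_lt hs)]
  have h1 := occ_div hs
  rw [ho] at h1
  rw [h1]
  exact lit_ne hd hs

theorem Lm_nodup (h : φ ≠ []) (hd : Distinct3 φ) : ∀ q < num φ, (Lm φ q).Nodup := by
  intro q _
  have hper := per_pos h
  have h1 := good_ne_bad h q
  unfold Lm
  split_ifs with ho
  · have h2 := other_div h hd ho
    have h3 := prv_div (P := per φ) (by omega) (occ φ (nxt ((q % per φ) / 4)))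
    have h4 := prv_ne (P := per φ) (by omega) (occ φ (nxt ((q % per φ) / 4)))
    have h5 := good_div h q
    have h6 := bad_div h q
    simp only [List.nodup_cons, List.mem_cons, List.not_mem_nil, or_false, not_or,
      not_false_eq_true, List.nodup_nil, and_true]
    refine ⟨⟨?_, ?_, h1⟩, ⟨h4.symm, ?_⟩, ?_⟩
    · intro e; rw [e] at h5; exact h2 h5
    · intro e; rw [e, h3] at h5; exact h2 h5
    · intro e; rw [← e] at h6; exact h2 h6
    · intro e; rw [← e, h3] at h6; exact h2 h6
  · simp [h1]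

theorem Lw_nodup (h : φ ≠ []) : ∀ q < num φ, (Lw φ q).Nodup := by
  intro q _
  have hper := per_pos h
  have h1 := nx_ne (P := per φ) (by omega) q
  unfold Lw
  split_ifs
  · simp
  · simp [h1]

theorem red_valid (h : φ ≠ []) (hd : Distinct3 φ) (hb : Bounded3 φ) : Valid (red φ) :=
  comp_valid (Lm_lt h hb) (Lw_lt h) (Lm_nodup h hd) (Lw_nodup h)

end Facts

end Pool.Agent.H495R3.CES
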