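import Pool.Agent.H495R3.Tri

/-!
# Recognizing CIS graphs is coNP-complete
-/

set_option autoImplicit false

namespace Pool.Agent.H495R3

open Pool.Agent.H622R2 Pool.Agent.H609R2 Pool.Agent.NPC

/-- A graph is CIS when every maximal clique meets every maximal stable set. -/
def IsCIS {V : Type} (G : SimpleGraph V) : Prop :=
  ∀ C S : Set V, Maximal G.IsClique C → Maximal G.IsIndepSet S → (C ∩ S).Nonempty

theorem maximal_clique_image {V W : Type} {G : SimpleGraph V} {H : SimpleGraph W} (e : G ≃g H)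
    {C : Set V} (hC : Maximal G.IsClique C) : Maximal H.IsClique (e '' C) := by
  refine ⟨?_, ?_⟩
  · rintro _ ⟨a, ha, rfl⟩ _ ⟨b, hb, rfl⟩ hab
    exact (e.map_adj_iff).2 (hC.1 ha hb (fun h => hab (by rw [h])))
  · intro T hT hCT x hx
    have h1 : G.IsClique (e ⁻¹' T) := by
      intro a ha b hb hab
      exact (e.map_adj_iff).1 (hT ha hb (fun h => hab (e.injective h)))
    have h2 : C ⊆ e ⁻¹' T := fun a ha => hCT ⟨a, ha, rfl⟩
    obtain ⟨y, rfl⟩ := e.surjective x
    exact ⟨y, hC.2 h1 h2 hx, rfl⟩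

theorem IsCIS.of_iso {V W : Type} {G : SimpleGraph V} {H : SimpleGraph W} (e : G ≃g H)
    (h : IsCIS H) : IsCIS G := by
  intro C S hC hS
  obtain ⟨_, ⟨c, hc, rfl⟩, ⟨s, hs, h2⟩⟩ := h (e '' C) (e '' S) (maximal_clique_image e hC)
    ((maximal_image e S).2 hS)
  rw [e.injective h2] at hs
  exact ⟨c, hc, hs⟩

section

variable {n m : ℕ} {L : ℕ → ℕ → Bool → Bool} {vs : List Lb}

/-- A label outside a maximal clique is not adjacent to some member of the clique. -/
theorem exists_not_adj {C : Set {x // x ∈ vs}} (hC : Maximal (labGraph vs (adjE L)).IsClique C)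
    {x : Lb} (hx : x ∈ vs) (hxC : ¬ In C x) : ∃ y, In C y ∧ ¬ AdjP L x y := by
  by_contra hcon
  push Not at hcon
  apply hxC
  refine ⟨hx, ?_⟩
  have h1 : (labGraph vs (adjE L)).IsClique (insert ⟨x, hx⟩ C) := by
    intro a ha b hb hab
    rcases ha with rfl | ha
    · rcases hb with rfl | hb
      · exact absurd rfl hab
      · exact (adj_iff _ _).2 (hcon b.1 ⟨b.2, hb⟩)
    · rcases hb with rfl | hb
      · exact (adj_iff _ _).2 (hcon a.1 ⟨a.2, ha⟩).symm
      · exact hC.1 ha hb hab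
  exact hC.2 h1 (Set.subset_insert _ _) (Set.mem_insert _ _)

theorem In.adj {C : Set {x // x ∈ vs}} (hC : (labGraph vs (adjE L)).IsClique C) {x y : Lb}
    (hx : In C x) (hy : In C y) (hne : x ≠ y) : AdjP L x y := by
  obtain ⟨hx, hxC⟩ := hx
  obtain ⟨hy, hyC⟩ := hy
  exact (adj_iff _ _).1 (hC hxC hyC (fun e => hne (congrArg Subtype.val e)))

/-- If the formula is unsatisfiable, the graph is CIS. -/
theorem isCIS_of_unsat (hvs : ∀ x, x ∈ vs ↔ ValidE n m L x) (hn : 0 < n)
    (hL : ∀ k i, L k i true = true → L k i false = false)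
    (hun : ∀ τ : ℕ → Bool, ∃ k < m, ∀ i < n, L k i (τ i) = false) :
    IsCIS (labGraph vs (adjE L)) := by
  intro C S hC hS
  obtain ⟨τ, k, hτ⟩ := total_of_unsat hvs hn hL hun hS
  by_contra hcon
  have hl : ∀ i < n, ¬ In C (Sum.inl (i, τ i)) := by
    intro i hi h
    obtain ⟨h1, h2⟩ := (hτ i hi).1
    obtain ⟨_, h3⟩ := h
    exact hcon ⟨_, h3, h2⟩
  have hr : ∀ i < n, ¬ In C (Sum.inr (i, k, τ i)) := by
    intro i hi h
    obtain ⟨h1, h2⟩ := (hτ i hi).2
    obtain ⟨_, h3⟩ := h
    exact hcon ⟨_, h3, h2⟩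
  by_cases hex : ∃ j b, In C (Sum.inr (j, k, b))
  · obtain ⟨j, b, hj⟩ := hex
    have hjn : j < n := ((hvs _).1 hj.1).1
    have hb : b ≠ τ j := by
      rintro rfl
      exact hr j hjn hj
    obtain ⟨y, hy, hna⟩ := exists_not_adj hC (hτ j hjn).2.1 (hr j hjn)
    apply hna
    rcases y with ⟨i, a⟩ | ⟨i, l, c⟩
    · have hin : i < n := (hvs _).1 hy.1
      have hadj := In.adj hC.1 hy hj (by simp)
      rw [adjP_lr] at hadj
      refine ((adjP_lr _ _ _ _ _).2 ?_).symm
      rcases hadj with ⟨rfl, h⟩ | h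
      · exfalso
        have : a = τ i := by
          cases a <;> cases b <;> cases hti : τ i <;> simp_all
        rw [this] at hy
        exact hl i hin hy
      · exact Or.inr h
    · refine (adjP_rr _ _ _ _ _ _).2 ?_
      by_cases hkl : k = l
      · subst hkl
        right
        by_cases hyj : (Sum.inr (i, k, c) : Lb) = Sum.inr (j, k, b)
        · simp only [Sum.inr.injEq, Prod.mk.injEq, true_and] at hyj
          exact ⟨hyj.1.symm, fun h => hb (by rw [← hyj.2, h])⟩
        · have hadj := In.adj hC.1 hy hj hyj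
          rw [adjP_rr] at hadj
          rcases hadj with h | ⟨rfl, h⟩
          · exact absurd rfl h
          · exfalso
            have : c = τ i := by
              cases c <;> cases b <;> cases hti : τ i <;> simp_all
            rw [this] at hy
            exact hr i hjn hy
      · exact Or.inl hkl
  · push Not at hex
    obtain ⟨y, hy, hna⟩ := exists_not_adj hC (hτ 0 hn).2.1 (hr 0 hn)
    rcases y with ⟨j, a⟩ | ⟨j, l, c⟩
    · have hjn : j < n := (hvs _).1 hy.1
      have ha : a ≠ τ j := by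
        rintro rfl
        exact hl j hjn hy
      obtain ⟨z, hz, hnz⟩ := exists_not_adj hC (hτ j hjn).2.1 (hr j hjn)
      apply hnz
      rcases z with ⟨i, d⟩ | ⟨i, l, c⟩
      · by_cases hzy : (Sum.inl (i, d) : Lb) = Sum.inl (j, a)
        · simp only [Sum.inl.injEq, Prod.mk.injEq] at hzy
          obtain ⟨rfl, rfl⟩ := hzy
          exact ((adjP_lr _ _ _ _ _).2 (Or.inl ⟨rfl, ha⟩)).symm
        · have hadj := In.adj hC.1 hz hy hzy
          rw [adjP_ll] at hadj
          obtain ⟨rfl, hda⟩ := hadj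
          exfalso
          have : d = τ i := by
            cases d <;> cases a <;> cases hti : τ i <;> simp_all
          rw [this] at hz
          exact hl i hjn hz
      · by_cases hkl : k = l
        · subst hkl
          exact absurd hz (hex _ _)
        · exact (adjP_rr _ _ _ _ _ _).2 (Or.inl hkl)
    · by_cases hkl : k = l
      · subst hkl
        exact absurd hy (hex _ _)
      · exact hna ((adjP_rr _ _ _ _ _ _).2 (Or.inl hkl))

/-- If the formula is satisfiable, the graph is not CIS. -/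
theorem not_isCIS_of_sat (hvs : ∀ x, x ∈ vs ↔ ValidE n m L x) (hm : 0 < m)
    (i0 : ℕ) (hi0 : i0 < n) (hd : ∀ k a, L k i0 a = false) (τ : ℕ → Bool)
    (hτ : ∀ k < m, ∃ i < n, L k i (τ i) = true) : ¬ IsCIS (labGraph vs (adjE L)) := by
  intro h
  have hC : Maximal (labGraph vs (adjE L)).IsClique {x : {x // x ∈ vs} |
      x.1 = Sum.inl (i0, !τ i0) ∨ ∃ k, x.1 = Sum.inr (i0, k, τ i0)} := by
    refine ⟨?_, ?_⟩
    · rintro ⟨x, hx⟩ hx' ⟨y, hy⟩ hy' hne
      rw [adj_iff]
      have hne' : x ≠ y := fun e => hne (Subtype.ext e)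
      simp only [Set.mem_setOf_eq] at hx' hy' ⊢
      rcases hx' with rfl | ⟨k, rfl⟩ <;> rcases hy' with rfl | ⟨l, rfl⟩
      · exact absurd rfl hne'
      · exact (adjP_lr _ _ _ _ _).2 (Or.inl ⟨rfl, by simp⟩)
      · exact ((adjP_lr _ _ _ _ _).2 (Or.inl ⟨rfl, by simp⟩)).symm
      · refine (adjP_rr _ _ _ _ _ _).2 (Or.inl ?_)
        rintro rfl
        exact hne' rfl
    · intro T hT hCT x hx
      have h0 : (Sum.inl (i0, !τ i0) : Lb) ∈ vs := (hvs _).2 hi0
      have h1 : (Sum.inr (i0, 0, τ i0) : Lb) ∈ vs := (hvs _).2 ⟨hi0, hm, hd 0 _⟩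
      have h0T : (⟨_, h0⟩ : {x // x ∈ vs}) ∈ T := hCT (Or.inl rfl)
      have h1T : (⟨_, h1⟩ : {x // x ∈ vs}) ∈ T := hCT (Or.inr ⟨0, rfl⟩)
      obtain ⟨x, hxv⟩ := x
      by_contra hxC
      simp only [Set.mem_setOf_eq, not_or, not_exists] at hxC
      obtain ⟨n1, n2⟩ := hxC
      have a0 : AdjP L x (Sum.inl (i0, !τ i0)) :=
        (adj_iff _ _).1 (hT hx h0T (fun e => n1 (congrArg Subtype.val e)))
      have a1 : AdjP L x (Sum.inr (i0, 0, τ i0)) :=
        (adj_iff _ _).1 (hT hx h1T (fun e => n2 0 (congrArg Subtype.val e)))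
      rcases x with ⟨i, a⟩ | ⟨i, l, c⟩
      · rw [adjP_ll] at a0
        obtain ⟨rfl, h2⟩ := a0
        rw [adjP_lr] at a1
        rcases a1 with ⟨_, h3⟩ | h3
        · cases a <;> cases hti : τ i <;> simp_all
        · rw [hd] at h3
          exact absurd h3 (by simp)
      · have a0' := (adjP_lr _ _ _ _ _).1 a0.symm
        rcases a0' with ⟨rfl, h2⟩ | h2
        · apply n2 l
          have : c = τ i0 := by
            cases c <;> cases hti : τ i0 <;> simp_all
          rw [this]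
        · rw [hd] at h2
          exact absurd h2 (by simp)
  obtain ⟨⟨x, hx⟩, h1, ⟨i, h2⟩⟩ := h _ _ hC (maximal_sat hvs τ hτ)
  simp only [Set.mem_setOf_eq] at h1 h2
  subst h2
  rcases h1 with h1 | ⟨k, h1⟩
  · simp only [Sum.inl.injEq, Prod.mk.injEq] at h1
    obtain ⟨rfl, h1⟩ := h1
    simp at h1
  · simp at h1

end

end Pool.Agent.H495R3
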