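import Pool.Agent.H495R3.Cis

/-!
# Recognizing CIS graphs: hardness and membership in coNP
-/

set_option autoImplicit false

namespace Pool.Agent.H495R3

open Pool.Agent.H622R2 Pool.Agent.H609R2 Pool.Agent.NPC

/-- The graph of a formula is CIS exactly when the formula is unsatisfiable. -/
theorem eqRed_cis {φ : List C3} (h1 : Distinct3 φ) (h2 : Bounded3 φ) (h3 : φ ≠ []) :
    SAT3 φ ↔ ¬ IsCIS (matGraph (eqRed φ)) := by
  have e := matIso (labE φ) (adjE (satL φ)) (labE_nodup φ)
  constructor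
  · intro hsat h
    obtain ⟨τ, hτ⟩ := (SAT3_iff h2).1 hsat
    exact not_isCIS_of_sat (mem_labE φ) (List.length_pos_iff.2 h3)
      (3 * φ.length) (by omega) (satL_dummy h2) τ hτ (IsCIS.of_iso e.symm h)
  · intro h
    by_contra hun
    rw [SAT3_iff h2] at hun
    push Not at hun
    refine h (IsCIS.of_iso e (isCIS_of_unsat (mem_labE φ) (by omega)
      (satL_consistent h1) ?_))
    intro τ
    obtain ⟨k, hk, h⟩ := hun τ
    exact ⟨k, hk, fun i hi => by simpa using h i hi⟩

/-- Not being CIS is hard. -/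
theorem hardI_not_cis :
    HardI (fun M : List (List Bool) => ¬ IsCIS (matGraph M)) :=
  (hardPr_SAT3b.trans (Pr' := fun _ => True) eqRed_poly (fun _ _ => trivial)
    (fun _ h => eqRed_cis h.1 h.2.1 h.2.2)).toHardI

/-! ### Membership in coNP -/

section

variable {M : List (List Bool)}

theorem maxStable_of_list (T : List ℕ) (c1 : ∀ i ∈ T, i < M.length)
    (c2 : ∀ i ∈ T, ∀ j ∈ T, adjB M i j = false)
    (c3 : ∀ x < M.length, x ∈ T ∨ ∃ i ∈ T, adjB M i x = true) :
    Maximal (matGraph M).IsIndepSet {x : Fin M.length | (x : ℕ) ∈ T} := by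
  refine ⟨?_, ?_⟩
  · intro a ha b hb _ hadj
    have h1 := c2 _ ha _ hb
    rw [(adjB_iff M a b).2 hadj] at h1
    exact absurd h1 (by simp)
  · intro T' hT' hTT' x hx
    rcases c3 x.1 x.2 with h1 | ⟨i, hi, h1⟩
    · exact h1
    · exfalso
      have h2 : (⟨i, c1 i hi⟩ : Fin M.length) ∈ T' := hTT' hi
      have h3 := (adjB_iff M ⟨i, c1 i hi⟩ x).1 h1
      exact hT' h2 hx h3.ne h3

theorem maxClique_of_list (T : List ℕ) (c1 : ∀ i ∈ T, i < M.length)
    (c2 : ∀ i ∈ T, ∀ j ∈ T, i = j ∨ adjB M i j = true)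
    (c3 : ∀ x < M.length, x ∈ T ∨ ∃ i ∈ T, adjB M i x = false) :
    Maximal (matGraph M).IsClique {x : Fin M.length | (x : ℕ) ∈ T} := by
  refine ⟨?_, ?_⟩
  · intro a ha b hb hab
    rcases c2 _ ha _ hb with h | h
    · exact absurd (Fin.ext h) hab
    · exact (adjB_iff M a b).1 h
  · intro T' hT' hTT' x hx
    rcases c3 x.1 x.2 with h1 | ⟨i, hi, h1⟩
    · exact h1
    · by_cases hix : (⟨i, c1 i hi⟩ : Fin M.length) = x
      · rw [← hix]; exact hi
      · exfalso
        have h2 : (⟨i, c1 i hi⟩ : Fin M.length) ∈ T' := hTT' hi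
        have h3 := hT' h2 hx hix
        rw [← adjB_iff, h1] at h3
        exact absurd h3 (by simp)

open Classical in
/-- The sorted list of the members of a set of vertices. -/
noncomputable def toL (S : Set (Fin M.length)) : List ℕ :=
  (List.range M.length).filter (fun i => decide (∃ h : i < M.length, (⟨i, h⟩ : Fin M.length) ∈ S))

theorem mem_toL (S : Set (Fin M.length)) (i : ℕ) :
    i ∈ toL S ↔ ∃ h : i < M.length, (⟨i, h⟩ : Fin M.length) ∈ S := by
  classical
  simp only [toL, List.mem_filter, List.mem_range, decide_eq_true_eq]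
  exact ⟨fun h => h.2, fun h => ⟨h.1, h⟩⟩

theorem sz_toL_le (S : Set (Fin M.length)) : sz (toL S) ≤ M.length * (4 * M.length + 2) + 1 := by
  classical
  exact (sz_filter_le _ _).trans (Poly.sz_range_le M.length M.length le_rfl)

theorem list_of_maxStable {S : Set (Fin M.length)} (hS : Maximal (matGraph M).IsIndepSet S) :
    (∀ i ∈ toL S, i < M.length) ∧ (∀ i ∈ toL S, ∀ j ∈ toL S, adjB M i j = false) ∧
      ∀ x < M.length, x ∈ toL S ∨ ∃ i ∈ toL S, adjB M i x = true := by
  refine ⟨fun i hi => ((mem_toL S i).1 hi).1, ?_, ?_⟩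
  · intro i hi j hj
    obtain ⟨hi1, hi2⟩ := (mem_toL S i).1 hi
    obtain ⟨hj1, hj2⟩ := (mem_toL S j).1 hj
    rw [← Bool.not_eq_true, adjB_iff M ⟨i, hi1⟩ ⟨j, hj1⟩]
    intro hadj
    exact hS.1 hi2 hj2 hadj.ne hadj
  · intro x hx
    by_cases hxS : (⟨x, hx⟩ : Fin M.length) ∈ S
    · exact Or.inl ((mem_toL S x).2 ⟨hx, hxS⟩)
    · right
      by_contra hcon
      push Not at hcon
      apply hxS
      have h1 : (matGraph M).IsIndepSet (insert ⟨x, hx⟩ S) := by
        intro a ha b hb hab hadj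
        rcases ha with rfl | ha
        · rcases hb with rfl | hb
          · exact hab rfl
          · exact hcon b.1 ((mem_toL S b.1).2 ⟨b.2, hb⟩) ((adjB_iff M b ⟨x, hx⟩).2 hadj.symm)
        · rcases hb with rfl | hb
          · exact hcon a.1 ((mem_toL S a.1).2 ⟨a.2, ha⟩) ((adjB_iff M a ⟨x, hx⟩).2 hadj)
          · exact hS.1 ha hb hab hadj
      exact hS.2 h1 (Set.subset_insert _ _) (Set.mem_insert _ _)

theorem list_of_maxClique {C : Set (Fin M.length)} (hC : Maximal (matGraph M).IsClique C) :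
    (∀ i ∈ toL C, i < M.length) ∧ (∀ i ∈ toL C, ∀ j ∈ toL C, i = j ∨ adjB M i j = true) ∧
      ∀ x < M.length, x ∈ toL C ∨ ∃ i ∈ toL C, adjB M i x = false := by
  refine ⟨fun i hi => ((mem_toL C i).1 hi).1, ?_, ?_⟩
  · intro i hi j hj
    obtain ⟨hi1, hi2⟩ := (mem_toL C i).1 hi
    obtain ⟨hj1, hj2⟩ := (mem_toL C j).1 hj
    by_cases hij : i = j
    · exact Or.inl hij
    · right
      rw [adjB_iff M ⟨i, hi1⟩ ⟨j, hj1⟩]
      exact hC.1 hi2 hj2 (fun h => hij (congrArg Fin.val h))
  · intro x hx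
    by_cases hxC : (⟨x, hx⟩ : Fin M.length) ∈ C
    · exact Or.inl ((mem_toL C x).2 ⟨hx, hxC⟩)
    · right
      by_contra hcon
      push Not at hcon
      apply hxC
      have h1 : (matGraph M).IsClique (insert ⟨x, hx⟩ C) := by
        intro a ha b hb hab
        rcases ha with rfl | ha
        · rcases hb with rfl | hb
          · exact absurd rfl hab
          · have := hcon b.1 ((mem_toL C b.1).2 ⟨b.2, hb⟩)
            exact ((adjB_iff M b ⟨x, hx⟩).1 (by simpa using this)).symm
        · rcases hb with rfl | hb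
          · have := hcon a.1 ((mem_toL C a.1).2 ⟨a.2, ha⟩)
            exact (adjB_iff M a ⟨x, hx⟩).1 (by simpa using this)
          · exact hC.1 ha hb hab
      exact hC.2 h1 (Set.subset_insert _ _) (Set.mem_insert _ _)

end

/-- The verifier of certificates that a graph is not CIS. -/
def chkCis (p : List (List Bool) × List ℕ × List ℕ) : Bool :=
  ((p.2.1.all fun i => decide (i < p.1.length)) &&
  (p.2.1.all fun i => p.2.1.all fun j => decide (i = j) || adjB p.1 i j) &&
  ((List.range p.1.length).all fun x => decide (x ∈ p.2.1) ||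
    p.2.1.any fun i => !adjB p.1 i x)) &&
  (((p.2.2.all fun i => decide (i < p.1.length)) &&
  (p.2.2.all fun i => p.2.2.all fun j => !adjB p.1 i j) &&
  ((List.range p.1.length).all fun x => decide (x ∈ p.2.2) ||
    p.2.2.any fun i => adjB p.1 i x)) &&
  p.2.1.all fun i => !decide (i ∈ p.2.2))

theorem chkCis_poly : Poly chkCis := by
  unfold chkCis
  have h1 : Poly (fun p : List (List Bool) × List ℕ × List ℕ => List.range p.1.length) :=
    Poly.range_length (Poly.fst Poly.id)
  have h2 : Poly (fun p : List (List Bool) × List ℕ × List ℕ =>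
      (List.range p.1.length).all fun x => decide (x ∈ p.2.1) ||
        p.2.1.any fun i => !adjB p.1 i x) := by
    refine Poly.all (p := fun (p : List (List Bool) × List ℕ × List ℕ) x =>
      decide (x ∈ p.2.1) || p.2.1.any fun i => !adjB p.1 i x) h1 ?_
    fun_prop
  have h3 : Poly (fun p : List (List Bool) × List ℕ × List ℕ =>
      (List.range p.1.length).all fun x => decide (x ∈ p.2.2) ||
        p.2.2.any fun i => adjB p.1 i x) := by
    refine Poly.all (p := fun (p : List (List Bool) × List ℕ × List ℕ) x =>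
      decide (x ∈ p.2.2) || p.2.2.any fun i => adjB p.1 i x) h1 ?_
    fun_prop
  fun_prop

theorem not_cis_iff (M : List (List Bool)) :
    ¬ IsCIS (matGraph M) ↔
      ∃ w : List ℕ × List ℕ, sz w ≤ (Polynomial.C 8 * Polynomial.X * Polynomial.X +
        Polynomial.C 20 * Polynomial.X + Polynomial.C 20 : Polynomial ℕ).eval (sz M) ∧
        chkCis (M, w) = true := by
  constructor
  · intro h
    unfold IsCIS at h
    push Not at h
    obtain ⟨C, S, hC, hS, hCS⟩ := h
    obtain ⟨a1, a2, a3⟩ := list_of_maxClique hC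
    obtain ⟨b1, b2, b3⟩ := list_of_maxStable hS
    refine ⟨(toL C, toL S), ?_, ?_⟩
    · have h1 := sz_toL_le C
      have h2 := sz_toL_le S
      have h5 := length_lt_sz M
      simp only [sz_pair, Polynomial.eval_add, Polynomial.eval_mul, Polynomial.eval_C,
        Polynomial.eval_X]
      nlinarith
    · simp only [chkCis, Bool.and_eq_true, List.all_eq_true, decide_eq_true_eq,
        Bool.not_eq_true', Bool.or_eq_true, List.any_eq_true, List.mem_range,
        decide_eq_false_iff_not]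
      refine ⟨⟨⟨a1, a2⟩, a3⟩, ⟨⟨b1, b2⟩, b3⟩, ?_⟩
      intro i hi hi'
      obtain ⟨h1, h2⟩ := (mem_toL C i).1 hi
      obtain ⟨_, h3⟩ := (mem_toL S i).1 hi'
      have : (⟨i, h1⟩ : Fin M.length) ∈ C ∩ S := ⟨h2, h3⟩
      rw [hCS] at this
      exact this
  · rintro ⟨⟨C, S⟩, -, hc⟩ h
    simp only [chkCis, Bool.and_eq_true, List.all_eq_true, decide_eq_true_eq,
        Bool.not_eq_true', Bool.or_eq_true, List.any_eq_true, List.mem_range,
        decide_eq_false_iff_not] at hc
    obtain ⟨⟨⟨a1, a2⟩, a3⟩, ⟨⟨b1, b2⟩, b3⟩, c⟩ := hc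
    obtain ⟨x, h1, h2⟩ := h _ _ (maxClique_of_list C a1 a2 a3) (maxStable_of_list S b1 b2 b3)
    exact c _ h1 h2

theorem inCoNP_cis : InCoNPP (fun M : List (List Bool) => IsCIS (matGraph M)) :=
  inCoNPP_of chkCis_poly _ not_cis_iff

end Pool.Agent.H495R3
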