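import Pool.Agent.H495R3.CyGraph

/-!
# Correctness of the construction
-/

set_option autoImplicit false

namespace Pool.Agent.H495R3.Cy

open Pool.Agent.H622R2

variable {E : List ℕ} {Q : List Quad}

theorem adjC_iff (u v : ℕ × ℕ) : adjC Q u v = true ↔
    (u.1 = 1 ∨ u.1 = 2 ∨ u.1 = 3) ∧ (v.1 = 0 ∨ v.1 = 4 ∨ v.1 = 5) ∧
      ((2 ≤ u.1 ∧ 2 ≤ v.1 ∧ (u.2 < v.2 ∨ (u.2 = v.2 ∧ v.1 = u.1 + 2))) ∨
        (¬ (2 ≤ u.1 ∧ 2 ≤ v.1) ∧ el Q u = el Q v)) := by
  unfold adjC isA isB
  by_cases h : 2 ≤ u.1 ∧ 2 ≤ v.1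
  · rw [if_pos h]
    simp only [Bool.and_eq_true, Bool.or_eq_true, decide_eq_true_eq, or_assoc]
    have h1 := h.1
    have h2 := h.2
    simp only [h1, h2, and_self, not_true_eq_false, false_and, or_false, true_and]
  · rw [if_neg h]
    simp only [Bool.and_eq_true, Bool.or_eq_true, decide_eq_true_eq, or_assoc]
    constructor
    · rintro ⟨h1, h2, h3⟩
      exact ⟨h1, h2, Or.inr ⟨h, h3⟩⟩
    · rintro ⟨h1, h2, ⟨h3, h4, _⟩ | ⟨_, h3⟩⟩
      · exact absurd ⟨h3, h4⟩ h
      · exact ⟨h1, h2, h3⟩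

theorem off_s {r : ℕ} {u : ℕ × ℕ} (h : u.1 = 0) : off r u = 2 * r := by
  unfold off; rw [if_pos h]

theorem off_t {r : ℕ} {u : ℕ × ℕ} (h : u.1 = 1) : off r u = 2 * r + 1 := by
  unfold off; rw [if_neg (by omega), if_pos h]

theorem off_A {r : ℕ} {u : ℕ × ℕ} (h : u.1 = 2 ∨ u.1 = 3) (h2 : u.2 < r) :
    off r u < 2 * r := by
  unfold off; split_ifs <;> omega

theorem off_B {r : ℕ} {u : ℕ × ℕ} (h : u.1 = 4 ∨ u.1 = 5) : 2 * r + 2 ≤ off r u := by
  unfold off; split_ifs <;> omega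

theorem el_center {u : ℕ × ℕ} (h : u.1 < 2) : el Q u = u.2 := by
  unfold el
  rw [if_pos h]

section Complete

variable {g : ℕ → ℤ}

theorem NonSep.swap1 {V : Type} {f : V → ℤ} {u v x y : V} (h : NonSep f u v x y) :
    NonSep f v u x y := by
  unfold NonSep Btw at *
  rw [or_comm, h, or_comm]

theorem NonSep.swap2 {V : Type} {f : V → ℤ} {u v x y : V} (h : NonSep f u v x y) :
    NonSep f u v y x := Iff.symm h

/-- A vertex of another cluster is not between two vertices of a cluster. -/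
theorem outside (hg : Set.InjOn g {x | x ∈ E}) (hQ : QOk E Q) {x y p : ℕ × ℕ}
    (hx : x ∈ vsC E Q) (hy : y ∈ vsC E Q) (hp : p ∈ vsC E Q) (hxy : el Q x = el Q y)
    (h : el Q p ≠ el Q x) : ¬ Btw (posC Q g) x y p := by
  have h1 := pos_iff_of hg hQ hp hx h
  have h2 := pos_iff_of hg hQ hx hp h.symm
  have h3 := pos_iff_of hg hQ hp hy (by rw [← hxy]; exact h)
  have h4 := pos_iff_of hg hQ hy hp (by rw [← hxy]; exact h.symm)
  rw [← hxy] at h3 h4
  unfold Btw
  rw [h1.1, h2.1, h3.1, h4.1]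
  omega

/-- Inside a cluster. -/
theorem inside {x y p : ℕ × ℕ} (hxy : el Q x = el Q y) (h : el Q p = el Q x) :
    Btw (posC Q g) x y p ↔ (off Q.length x < off Q.length p ∧ off Q.length p < off Q.length y) ∨
      (off Q.length y < off Q.length p ∧ off Q.length p < off Q.length x) := by
  unfold Btw
  rw [pos_eq_of h.symm, pos_eq_of (h.trans hxy), pos_eq_of (hxy.symm.trans h.symm), pos_eq_of h]

theorem core (hg : Set.InjOn g {x | x ∈ E}) (hQ : QOk E Q)
    (hs : ∀ q ∈ Q, NonSep g q.1 q.2.2.1 q.2.1 q.2.2.2) {u v x y : ℕ × ℕ}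
    (hu : u ∈ vsC E Q) (hv : v ∈ vsC E Q) (hx : x ∈ vsC E Q) (hy : y ∈ vsC E Q)
    (h1 : adjC Q u v = true) (h2 : adjC Q x y = true) (h3 : ¬ adjC Q u y = true)
    (h4 : ¬ adjC Q x v = true) : NonSep (posC Q g) u v x y := by
  -- a center-type edge `xy` against any vertex `p`
  have hu' := (mem_vsC u).1 hu
  have hv' := (mem_vsC v).1 hv
  have hx' := (mem_vsC x).1 hx
  have hy' := (mem_vsC y).1 hy
  have key : ∀ {u v x y : ℕ × ℕ}, u ∈ vsC E Q → v ∈ vsC E Q → x ∈ vsC E Q → y ∈ vsC E Q →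
      adjC Q u v = true → adjC Q x y = true → ¬ adjC Q u y = true → ¬ adjC Q x v = true →
      (2 ≤ u.1 ∧ 2 ≤ v.1) → ¬ (2 ≤ x.1 ∧ 2 ≤ y.1) →
      ¬ Btw (posC Q g) x y u ∧ ¬ Btw (posC Q g) x y v := by
    intro u v x y hu hv hx hy h1 h2 h3 h4 h5 h6
    rw [adjC_iff] at h1 h2 h3 h4
    obtain ⟨a1, a2, a3⟩ := h1
    obtain ⟨b1, b2, b3⟩ := h2
    have hxy : el Q x = el Q y := by
      rcases b3 with ⟨c1, c2, _⟩ | ⟨_, c⟩
      · exact absurd ⟨c1, c2⟩ h6
      · exact c
    have hxm := (mem_vsC x).1 hx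
    have hym := (mem_vsC y).1 hy
    have hum := (mem_vsC u).1 hu
    have hvm := (mem_vsC v).1 hv
    constructor
    · by_cases he : el Q u = el Q x
      · rw [inside hxy he]
        by_cases hy2 : 2 ≤ y.1
        · have hx1 : x.1 = 1 := by omega
          have hoy := off_B (r := Q.length) (u := y) (by omega)
          have hox := off_t (r := Q.length) hx1
          have hou := off_A (r := Q.length) (u := u) (by omega) (by omega)
          omega
        · exfalso
          apply h3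
          exact ⟨a1, b2, Or.inr ⟨fun h => hy2 h.2, he.trans hxy⟩⟩
      · exact outside hg hQ hx hy hu hxy he
    · by_cases he : el Q v = el Q x
      · rw [inside hxy he]
        by_cases hx2 : 2 ≤ x.1
        · have hy0 : y.1 = 0 := by omega
          have hoy := off_s (r := Q.length) hy0
          have hox := off_A (r := Q.length) (u := x) (by omega) (by omega)
          have hov := off_B (r := Q.length) (u := v) (by omega)
          omega
        · exfalso
          apply h4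
          exact ⟨b1, a2, Or.inr ⟨fun h => hx2 h.1, he.symm⟩⟩
      · exact outside hg hQ hx hy hv hxy he
  have hinj := posC_inj (g := g) hg hQ
  have hne : ∀ {p q : ℕ × ℕ}, p ∈ vsC E Q → q ∈ vsC E Q → p ≠ q → posC Q g p ≠ posC Q g q := by
    intro p q hp hq hpq h
    apply hpq
    have := @hinj ⟨p, hp⟩ ⟨q, hq⟩ h
    simpa using this
  have a := (adjC_iff u v).1 h1
  have b := (adjC_iff x y).1 h2
  have hux : u ≠ x := by rintro rfl; exact h3 h2
  have huy : u ≠ y := by
    rintro rfl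
    omega
  have hvx : v ≠ x := by
    rintro rfl
    omega
  have hvy : v ≠ y := by rintro rfl; exact h3 h1
  by_cases t1 : 2 ≤ u.1 ∧ 2 ≤ v.1
  · by_cases t2 : 2 ≤ x.1 ∧ 2 ≤ y.1
    · -- both are system edges
      rw [adjC_iff] at h3 h4
      obtain ⟨a1, a2, a3⟩ := a
      obtain ⟨b1, b2, b3⟩ := b
      have a4 : u.2 < v.2 ∨ (u.2 = v.2 ∧ v.1 = u.1 + 2) := by
        rcases a3 with ⟨_, _, c⟩ | ⟨c, _⟩
        · exact c
        · exact absurd t1 c
      have b4 : x.2 < y.2 ∨ (x.2 = y.2 ∧ y.1 = x.1 + 2) := by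
        rcases b3 with ⟨_, _, c⟩ | ⟨c, _⟩
        · exact c
        · exact absurd t2 c
      have c1 : ¬ (u.2 < y.2 ∨ (u.2 = y.2 ∧ y.1 = u.1 + 2)) := by
        intro h
        exact h3 ⟨a1, b2, Or.inl ⟨t1.1, t2.2, h⟩⟩
      have c2 : ¬ (x.2 < v.2 ∨ (x.2 = v.2 ∧ v.1 = x.1 + 2)) := by
        intro h
        exact h4 ⟨b1, a2, Or.inl ⟨t2.1, t1.2, h⟩⟩
      have hi : u.2 < Q.length := by omega
      -- the general statement for the two edges
      have main : ∀ i (hi : i < Q.length),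
          NonSep (posC Q g) (2, i) (4, i) (3, i) (5, i) := by
        intro i hi
        obtain ⟨q1, q2, q3, q4, q5, q6, q7, q8, q9, q10⟩ := hQ _ (List.getElem_mem hi)
        have hn := hs _ (List.getElem_mem hi)
        have m2 : ((2, i) : ℕ × ℕ) ∈ vsC E Q := (mem_vsC _).2 (Or.inr ⟨by simp, by simp, hi⟩)
        have m3 : ((3, i) : ℕ × ℕ) ∈ vsC E Q := (mem_vsC _).2 (Or.inr ⟨by simp, by simp, hi⟩)
        have m4 : ((4, i) : ℕ × ℕ) ∈ vsC E Q := (mem_vsC _).2 (Or.inr ⟨by simp, by simp, hi⟩)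
        have m5 : ((5, i) : ℕ × ℕ) ∈ vsC E Q := (mem_vsC _).2 (Or.inr ⟨by simp, by simp, hi⟩)
        have e2 : el Q (2, i) = Q[i].1 := by
          unfold el qc; rw [getD_quad hi]; simp
        have e3 : el Q (3, i) = Q[i].2.1 := by
          unfold el qc; rw [getD_quad hi]; simp
        have e4 : el Q (4, i) = Q[i].2.2.1 := by
          unfold el qc; rw [getD_quad hi]; simp
        have e5 : el Q (5, i) = Q[i].2.2.2 := by
          unfold el qc; rw [getD_quad hi]; simp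
        have p23 := pos_iff_of hg hQ m2 m3 (by rw [e2, e3]; exact q5)
        have p32 := pos_iff_of hg hQ m3 m2 (by rw [e2, e3]; exact q5.symm)
        have p25 := pos_iff_of hg hQ m2 m5 (by rw [e2, e5]; exact q7)
        have p52 := pos_iff_of hg hQ m5 m2 (by rw [e2, e5]; exact q7.symm)
        have p43 := pos_iff_of hg hQ m4 m3 (by rw [e4, e3]; exact q8.symm)
        have p34 := pos_iff_of hg hQ m3 m4 (by rw [e4, e3]; exact q8)
        have p45 := pos_iff_of hg hQ m4 m5 (by rw [e4, e5]; exact q10)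
        have p54 := pos_iff_of hg hQ m5 m4 (by rw [e4, e5]; exact q10.symm)
        unfold NonSep Btw at hn ⊢
        rw [p23.1, p32.1, p25.1, p52.1, p43.1, p34.1, p45.1, p54.1, e2, e3, e4, e5]
        exact hn
      have m := main u.2 hi
      obtain ⟨k, i⟩ := u
      obtain ⟨l, j⟩ := v
      obtain ⟨k', i'⟩ := x
      obtain ⟨l', j'⟩ := y
      simp only at *
      have ej : j = i := by omega
      have ei' : i' = i := by omega
      have ej' : j' = i := by omega
      subst ej ei' ej'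
      have hk : (k = 2 ∧ k' = 3) ∨ (k = 3 ∧ k' = 2) := by omega
      rcases hk with ⟨rfl, rfl⟩ | ⟨rfl, rfl⟩
      · have hl : l = 4 := by omega
        have hl' : l' = 5 := by omega
        subst hl hl'
        exact m
      · have hl : l = 5 := by omega
        have hl' : l' = 4 := by omega
        subst hl hl'
        exact m.symm (hne hx hu hux.symm) (hne hx hv hvx.symm) (hne hy hu huy.symm)
          (hne hy hv hvy.symm)
    · obtain ⟨k1, k2⟩ := key hu hv hx hy h1 h2 h3 h4 t1 t2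
      have : NonSep (posC Q g) x y u v := iff_of_false k1 k2
      exact this.symm (hne hx hu hux.symm) (hne hx hv hvx.symm) (hne hy hu huy.symm)
        (hne hy hv hvy.symm)
  · by_cases t2 : 2 ≤ x.1 ∧ 2 ≤ y.1
    · obtain ⟨k1, k2⟩ := key hx hy hu hv h2 h1 h4 h3 t2 t1
      exact iff_of_false k1 k2
    · -- both center-type
      have huv : el Q u = el Q v := by
        rcases a.2.2 with ⟨c1, c2, _⟩ | ⟨_, c⟩
        · exact absurd ⟨c1, c2⟩ t1
        · exact c
      have hxy : el Q x = el Q y := by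
        rcases b.2.2 with ⟨c1, c2, _⟩ | ⟨_, c⟩
        · exact absurd ⟨c1, c2⟩ t2
        · exact c
      by_cases he : el Q x = el Q u
      · exfalso
        rw [adjC_iff] at h3 h4
        by_cases s1 : 2 ≤ u.1 ∧ 2 ≤ y.1
        · apply h4
          exact ⟨b.1, a.2.1, Or.inr ⟨by omega, he.trans huv⟩⟩
        · apply h3
          exact ⟨a.1, b.2.1, Or.inr ⟨s1, he.symm.trans hxy⟩⟩
      · exact iff_of_false (outside hg hQ hu hv hx huv he)
          (outside hg hQ hu hv hy huv (by rw [← hxy]; exact he))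

theorem solv_to_good (hQ : QOk E Q) (h : Solv E Q) : HasGoodOrdering (grC E Q) := by
  obtain ⟨g, hg, hs⟩ := h
  refine hasGoodOrdering_of_goodZ (f := fun u => posC Q g u.1) (posC_inj hg hQ) ?_
  have hcore : ∀ u v x y : {x // x ∈ vsC E Q}, adjC Q u.1 v.1 = true → adjC Q x.1 y.1 = true →
      ¬ (grC E Q).Adj u y → ¬ (grC E Q).Adj v x →
      NonSep (fun u : {x // x ∈ vsC E Q} => posC Q g u.1) u v x y := by
    intro u v x y h1 h2 n1 n2
    rw [adj_iffC] at n1 n2
    exact core hg hQ hs u.2 v.2 x.2 y.2 h1 h2 (fun h => n1 (Or.inl h)) (fun h => n2 (Or.inr h))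
  intro u v x y huv hxy n1 n2 n3 n4
  rw [adj_iffC] at huv hxy
  rcases huv with huv | huv <;> rcases hxy with hxy | hxy
  · exact hcore u v x y huv hxy n2 n3
  · exact (hcore u v y x huv hxy n1 n4).swap2
  · exact (hcore v u x y huv hxy n4 n1).swap1
  · exact (hcore v u y x huv hxy n3 n2).swap1.swap2

end Complete

theorem good_to_solv (hQ : QOk E Q) (h : HasGoodOrdering (grC E Q)) : Solv E Q := by
  classical
  obtain ⟨f, hf, h⟩ := h
  have hG := goodZ_of_not_obstruction hf h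
  have hfz : Function.Injective (fun u : {x // x ∈ vsC E Q} => (f u : ℤ)) := by
    intro u v huv
    exact hf (by simpa using huv)
  have m0 : ∀ x ∈ E, ((0, x) : ℕ × ℕ) ∈ vsC E Q := fun x hx => (mem_vsC _).2
    (Or.inl ⟨by simp, hx⟩)
  have m1 : ∀ x ∈ E, ((1, x) : ℕ × ℕ) ∈ vsC E Q := fun x hx => (mem_vsC _).2
    (Or.inl ⟨by simp, hx⟩)
  have mk : ∀ k, 2 ≤ k → k < 6 → ∀ i < Q.length, ((k, i) : ℕ × ℕ) ∈ vsC E Q :=
    fun k h1 h2 i hi => (mem_vsC _).2 (Or.inr ⟨h1, h2, hi⟩)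
  let g : ℕ → ℤ := fun x => if hx : x ∈ E then (f ⟨(0, x), m0 x hx⟩ : ℤ) else 0
  have hgE : ∀ x (hx : x ∈ E), g x = (f ⟨(0, x), m0 x hx⟩ : ℤ) := by
    intro x hx
    simp only [g]
    rw [dif_pos hx]
  refine ⟨g, ?_, ?_⟩
  · intro x hx y hy hxy
    rw [hgE x hx, hgE y hy] at hxy
    have := hfz hxy
    simpa using this
  · intro q hq
    obtain ⟨i, hi, rfl⟩ := List.getElem_of_mem hq
    obtain ⟨q1, q2, q3, q4, q5, q6, q7, q8, q9, q10⟩ := hQ _ (List.getElem_mem hi)
    have e2 : el Q (2, i) = Q[i].1 := by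
      unfold el qc; rw [getD_quad hi]; simp
    have e3 : el Q (3, i) = Q[i].2.1 := by
      unfold el qc; rw [getD_quad hi]; simp
    have e4 : el Q (4, i) = Q[i].2.2.1 := by
      unfold el qc; rw [getD_quad hi]; simp
    have e5 : el Q (5, i) = Q[i].2.2.2 := by
      unfold el qc; rw [getD_quad hi]; simp
    have ec : ∀ k x, k < 2 → el Q (k, x) = x := fun k x hk => el_center hk
    let p : Fin 5 → {x // x ∈ vsC E Q} := ![⟨(0, Q[i].1), m0 _ q1⟩,
      ⟨(2, i), mk 2 le_rfl (by norm_num) i hi⟩, ⟨(4, i), mk 4 (by norm_num) (by norm_num) i hi⟩,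
      ⟨(1, Q[i].2.2.1), m1 _ q3⟩, ⟨(0, Q[i].2.2.1), m0 _ q3⟩]
    let r : Fin 5 → {x // x ∈ vsC E Q} := ![⟨(0, Q[i].2.1), m0 _ q2⟩,
      ⟨(3, i), mk 3 (by norm_num) (by norm_num) i hi⟩,
      ⟨(5, i), mk 5 (by norm_num) (by norm_num) i hi⟩,
      ⟨(1, Q[i].2.2.2), m1 _ q4⟩, ⟨(0, Q[i].2.2.2), m0 _ q4⟩]
    have hpr := paths_nonSep hfz hG p r ?_ ?_ ?_ ?_
    · have h1 := hgE _ q1
      have h2 := hgE _ q2
      have h3 := hgE _ q3
      have h4 := hgE _ q4
      unfold NonSep Btw at hpr ⊢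
      rw [h1, h2, h3, h4]
      exact hpr
    · intro j
      fin_cases j
      · refine (adj_iffC _ _).2 (Or.inr ((adjC_iff _ _).2 ?_))
        simp [p, e2, ec]
      · refine (adj_iffC _ _).2 (Or.inl ((adjC_iff _ _).2 ?_))
        simp [p]
      · refine (adj_iffC _ _).2 (Or.inr ((adjC_iff _ _).2 ?_))
        simp [p, e4, ec]
      · refine (adj_iffC _ _).2 (Or.inl ((adjC_iff _ _).2 ?_))
        simp [p, ec]
    · intro j
      fin_cases j
      · refine (adj_iffC _ _).2 (Or.inr ((adjC_iff _ _).2 ?_))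
        simp [r, e3, ec]
      · refine (adj_iffC _ _).2 (Or.inl ((adjC_iff _ _).2 ?_))
        simp [r]
      · refine (adj_iffC _ _).2 (Or.inr ((adjC_iff _ _).2 ?_))
        simp [r, e5, ec]
      · refine (adj_iffC _ _).2 (Or.inl ((adjC_iff _ _).2 ?_))
        simp [r, ec]
    · intro j l
      fin_cases j <;> fin_cases l <;>
        simp [p, r, q5, q6, q7, q8, q9, q10, Ne.symm q5, Ne.symm q6, Ne.symm q7, Ne.symm q8,
          Ne.symm q9, Ne.symm q10]
    · intro j l
      rw [adj_iffC, adjC_iff, adjC_iff]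
      fin_cases j <;> fin_cases l <;>
        simp [p, r, e2, e3, e4, e5, ec, q5, q6, q7, q8, q9, q10, Ne.symm q5, Ne.symm q6,
          Ne.symm q7, Ne.symm q8, Ne.symm q9, Ne.symm q10]

/-- The construction is correct. -/
theorem good_iff_solv (hQ : QOk E Q) : HasGoodOrdering (grC E Q) ↔ Solv E Q :=
  ⟨good_to_solv hQ, solv_to_good hQ⟩

theorem grC_bipartite : (grC E Q).IsBipartite := by
  refine ⟨SimpleGraph.Coloring.mk (fun u => if isA u.1.1 = true then 0 else 1) ?_⟩
  intro u v huv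
  rw [adj_iffC, adjC_iff, adjC_iff] at huv
  unfold isA
  simp only [Bool.or_eq_true, decide_eq_true_eq]
  split_ifs with h1 h2 h2
  · omega
  · simp
  · simp
  · omega

end Pool.Agent.H495R3.Cy
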