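import Pool.Agent.H622R2.Base
import Pool.Agent.NPC.Sat2
import Pool.Agent.H671R2.PolyAuto

/-!
# Cyclic orderings of graphs without alternating edges
-/

set_option autoImplicit false

namespace Pool.Agent.H495R3.Cy

open Pool.Agent.H622R2

/-- The vertices are placed around a circle in the order of increasing `f`. Going around the circle
one meets `a`, `b`, `c`, `d` in this cyclic order. -/
def MetInOrder {V : Type} (f : V → ℕ) (a b c d : V) : Prop :=
  (f a < f b ∧ f b < f c ∧ f c < f d) ∨ (f b < f c ∧ f c < f d ∧ f d < f a) ∨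
    (f c < f d ∧ f d < f a ∧ f a < f b) ∨ (f d < f a ∧ f a < f b ∧ f b < f c)

/-- An alternating-edge obstruction in the graph `G` with the cyclic ordering `f`: four vertices
`a`, `b`, `c`, `d`, met in this cyclic order, such that `ac` and `bd` are edges and none of `ab`,
`bc`, `cd`, `da` is an edge. -/
def Obstruction {V : Type} (G : SimpleGraph V) (f : V → ℕ) : Prop :=
  ∃ a b c d : V, MetInOrder f a b c d ∧ G.Adj a c ∧ G.Adj b d ∧
    ¬ G.Adj a b ∧ ¬ G.Adj b c ∧ ¬ G.Adj c d ∧ ¬ G.Adj d a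

/-- The graph has a cyclic ordering without alternating-edge obstruction. -/
def HasGoodOrdering {V : Type} (G : SimpleGraph V) : Prop :=
  ∃ f : V → ℕ, Function.Injective f ∧ ¬ Obstruction G f

/-- The decision problem: a bipartite graph that has a cyclic ordering without alternating-edge
obstruction.  The input is the adjacency matrix. -/
def BipGoodOrdering (M : List (List Bool)) : Prop :=
  (matGraph M).IsBipartite ∧ HasGoodOrdering (matGraph M)

/-! ### Separation -/

section Sep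

variable {V : Type} (f : V → ℤ)

/-- `x` is between `u` and `v`. -/
def Btw (u v x : V) : Prop := (f u < f x ∧ f x < f v) ∨ (f v < f x ∧ f x < f u)

/-- The chords `uv` and `xy` do not cross. -/
def NonSep (u v x y : V) : Prop := Btw f u v x ↔ Btw f u v y

variable {f}

theorem NonSep.symm {u v x y : V} (h1 : f u ≠ f x) (h2 : f u ≠ f y) (h3 : f v ≠ f x)
    (h4 : f v ≠ f y) (h : NonSep f u v x y) : NonSep f x y u v := by
  unfold NonSep Btw at *
  omega

theorem NonSep.trans {u v x y z : V} (h : NonSep f u v x y) (h' : NonSep f u v y z) :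
    NonSep f u v x z := Iff.trans h h'

/-- Ordering by integers without crossing edges. -/
def GoodZ (G : SimpleGraph V) (f : V → ℤ) : Prop :=
  ∀ u v x y, G.Adj u v → G.Adj x y → ¬ G.Adj u x → ¬ G.Adj u y → ¬ G.Adj v x → ¬ G.Adj v y →
    NonSep f u v x y

theorem hasGoodOrdering_of_goodZ {G : SimpleGraph V} [Finite V] (hf : Function.Injective f)
    (h : GoodZ G f) : HasGoodOrdering G := by
  obtain ⟨C, hC⟩ : ∃ C : ℤ, ∀ v, 0 ≤ f v + C := by
    obtain ⟨C, hC⟩ := (Set.finite_range f).bddBelow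
    exact ⟨-C, fun v => by have := hC ⟨v, rfl⟩; omega⟩
  refine ⟨fun v => (f v + C).toNat, ?_, ?_⟩
  · intro u v huv
    have h1 := hC u
    have h2 := hC v
    simp only at huv
    exact hf (by omega)
  · rintro ⟨a, b, c, d, hm, hac, hbd, n1, n2, n3, n4⟩
    have h1 := h a c b d hac hbd n1 (fun h => n4 h.symm) (fun h => n2 h.symm) n3
    have ha := hC a
    have hb := hC b
    have hc := hC c
    have hd := hC d
    unfold NonSep Btw at h1
    unfold MetInOrder at hm
    simp only at hm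
    omega

theorem alt_cases {a b c d : ℕ} (h1 : a ≠ c) (h2 : a ≠ d) (h3 : b ≠ c) (h4 : b ≠ d)
    (h : ¬ ((a < c ∧ c < b) ∨ (b < c ∧ c < a) ↔ (a < d ∧ d < b) ∨ (b < d ∧ d < a))) :
    ((a < c ∧ c < b ∧ b < d) ∨ (c < b ∧ b < d ∧ d < a) ∨ (b < d ∧ d < a ∧ a < c) ∨
      (d < a ∧ a < c ∧ c < b)) ∨
    ((a < d ∧ d < b ∧ b < c) ∨ (d < b ∧ b < c ∧ c < a) ∨ (b < c ∧ c < a ∧ a < d) ∨
      (c < a ∧ a < d ∧ d < b)) := by
  by_cases e1 : (a < c ∧ c < b) ∨ (b < c ∧ c < a) <;>
    by_cases e2 : (a < d ∧ d < b) ∨ (b < d ∧ d < a)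
  · exact absurd (iff_of_true e1 e2) h
  · rcases e1 with e1 | e1 <;> omega
  · rcases e2 with e2 | e2 <;> omega
  · exact absurd (iff_of_false e1 e2) h

theorem goodZ_of_not_obstruction {G : SimpleGraph V} {f : V → ℕ} (hf : Function.Injective f)
    (h : ¬ Obstruction G f) : GoodZ G (fun v => (f v : ℤ)) := by
  intro u v x y huv hxy n1 n2 n3 n4
  have e1 : u ≠ x := fun e => n2 (by rw [e]; exact hxy)
  have e2 : u ≠ y := fun e => n1 (by rw [e]; exact hxy.symm)
  have e3 : v ≠ x := fun e => n4 (by rw [e]; exact hxy)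
  have e4 : v ≠ y := fun e => n3 (by rw [e]; exact hxy.symm)
  have g1 := fun e => e1 (hf e)
  have g2 := fun e => e2 (hf e)
  have g3 := fun e => e3 (hf e)
  have g4 := fun e => e4 (hf e)
  by_contra hcon
  apply h
  simp only [NonSep, Btw, Nat.cast_lt] at hcon
  rcases alt_cases g1 g2 g3 g4 hcon with hm | hm
  · exact ⟨u, x, v, y, hm, huv, hxy, n1, fun h => n3 h.symm, n4, fun h => n2 h.symm⟩
  · exact ⟨u, y, v, x, hm, huv, hxy.symm, n2, fun h => n4 h.symm, n3, fun h => n1 h.symm⟩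

/-- Two paths of length four without edges between them do not cross. -/
theorem paths_nonSep {G : SimpleGraph V} {f : V → ℤ} (hf : Function.Injective f)
    (hG : GoodZ G f) (p q : Fin 5 → V) (hp : ∀ i : Fin 4, G.Adj (p i.castSucc) (p i.succ))
    (hq : ∀ i : Fin 4, G.Adj (q i.castSucc) (q i.succ)) (hne : ∀ i j, p i ≠ q j)
    (hno : ∀ i j, ¬ G.Adj (p i) (q j)) : NonSep f (p 0) (p 4) (q 0) (q 4) := by
  have hfe : ∀ i j, f (p i) ≠ f (q j) := fun i j h => hne i j (hf h)
  have h1 : ∀ i j : Fin 4, NonSep f (q j.castSucc) (q j.succ) (p i.castSucc) (p i.succ) := by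
    intro i j
    exact (hG _ _ _ _ (hp i) (hq j) (hno _ _) (hno _ _) (hno _ _) (hno _ _)).symm
      (hfe _ _) (hfe _ _) (hfe _ _) (hfe _ _)
  have h2 : ∀ j : Fin 4, NonSep f (q j.castSucc) (q j.succ) (p 0) (p 4) := by
    intro j
    exact (((h1 0 j).trans (h1 1 j)).trans (h1 2 j)).trans (h1 3 j)
  have h3 : ∀ j : Fin 4, NonSep f (p 0) (p 4) (q j.castSucc) (q j.succ) := by
    intro j
    exact (h2 j).symm (hfe _ _).symm (hfe _ _).symm (hfe _ _).symm (hfe _ _).symm
  exact (((h3 0).trans (h3 1)).trans (h3 2)).trans (h3 3)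

theorem HasGoodOrdering.of_iso {W : Type} {G : SimpleGraph V} {H : SimpleGraph W} (e : G ≃g H)
    (h : HasGoodOrdering H) : HasGoodOrdering G := by
  obtain ⟨f, hf, h⟩ := h
  refine ⟨fun v => f (e v), hf.comp e.injective, ?_⟩
  rintro ⟨a, b, c, d, hm, h1, h2, h3, h4, h5, h6⟩
  exact h ⟨e a, e b, e c, e d, hm, e.map_adj_iff.2 h1, e.map_adj_iff.2 h2,
    fun h => h3 (e.map_adj_iff.1 h), fun h => h4 (e.map_adj_iff.1 h),
    fun h => h5 (e.map_adj_iff.1 h), fun h => h6 (e.map_adj_iff.1 h)⟩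

end Sep

end Pool.Agent.H495R3.Cy
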