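import Pool.Agent.H495R3.CyDefs

/-!
# From non-separation constraints to bipartite graphs

Elements are natural numbers; a constraint `(a, z, b, c)` says that on the circle the pair
`{a, b}` does not separate the pair `{z, c}`.  The vertices of the graph are `(0, x)` and `(1, x)`
for the elements `x` and `(2, i), (3, i), (4, i), (5, i)` for the constraint number `i`: copies of
its elements `a, z, b, c`.
-/

set_option autoImplicit false

namespace Pool.Agent.H495R3.Cy

open Pool.Agent.H622R2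

/-- A constraint. -/
abbrev Quad := ℕ × ℕ × ℕ × ℕ

/-- Component `k` of a quadruple. -/
def qc (q : Quad) (k : ℕ) : ℕ := if k = 2 then q.1 else if k = 3 then q.2.1 else
  if k = 4 then q.2.2.1 else q.2.2.2

/-- The element of a vertex. -/
def el (Q : List Quad) (u : ℕ × ℕ) : ℕ :=
  if u.1 < 2 then u.2 else qc (Q.getD u.2 (0, 0, 0, 0)) u.1

/-- First side. -/
def isA (k : ℕ) : Bool := decide (k = 1) || decide (k = 2) || decide (k = 3)

/-- Second side. -/
def isB (k : ℕ) : Bool := decide (k = 0) || decide (k = 4) || decide (k = 5)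

/-- Adjacency of a vertex of the first side and a vertex of the second side. -/
def adjC (Q : List Quad) (u v : ℕ × ℕ) : Bool :=
  isA u.1 && (isB v.1 && (if 2 ≤ u.1 ∧ 2 ≤ v.1 then
    decide (u.2 < v.2) || (decide (u.2 = v.2) && decide (v.1 = u.1 + 2))
    else decide (el Q u = el Q v)))

/-- The vertices. -/
def vsC (E : List ℕ) (Q : List Quad) : List (ℕ × ℕ) :=
  E.map (fun x => (0, x)) ++ (E.map (fun x => (1, x)) ++
    (List.range Q.length).flatMap (fun i => [(2, i), (3, i), (4, i), (5, i)]))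

theorem mem_vsC {E : List ℕ} {Q : List Quad} (u : ℕ × ℕ) :
    u ∈ vsC E Q ↔ (u.1 < 2 ∧ u.2 ∈ E) ∨ (2 ≤ u.1 ∧ u.1 < 6 ∧ u.2 < Q.length) := by
  obtain ⟨k, x⟩ := u
  simp only [vsC, List.mem_append, List.mem_map, Prod.mk.injEq, List.mem_flatMap, List.mem_range,
    List.mem_cons, List.not_mem_nil, or_false]
  constructor
  · rintro (⟨y, hy, rfl, rfl⟩ | ⟨y, hy, rfl, rfl⟩ | ⟨i, hi, h⟩)
    · exact Or.inl ⟨by omega, hy⟩
    · exact Or.inl ⟨by omega, hy⟩
    · right
      omega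
  · rintro (⟨h1, h2⟩ | ⟨h1, h2, h3⟩)
    · interval_cases k
      · exact Or.inl ⟨x, h2, rfl, rfl⟩
      · exact Or.inr (Or.inl ⟨x, h2, rfl, rfl⟩)
    · exact Or.inr (Or.inr ⟨x, h3, by omega⟩)

/-- The promise on the constraints: the four elements are different members of `E`. -/
def QOk (E : List ℕ) (Q : List Quad) : Prop :=
  ∀ q ∈ Q, q.1 ∈ E ∧ q.2.1 ∈ E ∧ q.2.2.1 ∈ E ∧ q.2.2.2 ∈ E ∧ q.1 ≠ q.2.1 ∧ q.1 ≠ q.2.2.1 ∧
    q.1 ≠ q.2.2.2 ∧ q.2.1 ≠ q.2.2.1 ∧ q.2.1 ≠ q.2.2.2 ∧ q.2.2.1 ≠ q.2.2.2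

/-- The constraints can be satisfied. -/
def Solv (E : List ℕ) (Q : List Quad) : Prop :=
  ∃ g : ℕ → ℤ, Set.InjOn g {x | x ∈ E} ∧ ∀ q ∈ Q, NonSep g q.1 q.2.2.1 q.2.1 q.2.2.2

section

variable {E : List ℕ} {Q : List Quad}

theorem getD_quad {i : ℕ} (hi : i < Q.length) : Q.getD i (0, 0, 0, 0) = Q[i] := by
  rw [List.getD_eq_getElem?_getD, List.getElem?_eq_getElem hi]
  rfl

theorem el_mem (hQ : QOk E Q) {u : ℕ × ℕ} (hu : u ∈ vsC E Q) : el Q u ∈ E := by
  rw [mem_vsC] at hu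
  unfold el
  rcases hu with ⟨h1, h2⟩ | ⟨h1, h2, h3⟩
  · rw [if_pos h1]; exact h2
  · rw [if_neg (by omega), getD_quad h3]
    obtain ⟨g1, g2, g3, g4, _⟩ := hQ _ (List.getElem_mem h3)
    unfold qc
    split_ifs <;> assumption

/-- The graph. -/
abbrev grC (E : List ℕ) (Q : List Quad) := labGraph (vsC E Q) (adjC Q)

theorem adj_iffC (u v : {x // x ∈ vsC E Q}) : (grC E Q).Adj u v ↔
    adjC Q u.1 v.1 = true ∨ adjC Q v.1 u.1 = true := by
  change (u ≠ v ∧ _) ↔ _
  constructor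
  · exact fun h => h.2
  · intro h
    refine ⟨?_, h⟩
    rintro rfl
    simp only [adjC, isA, isB, Bool.and_eq_true, Bool.or_eq_true, decide_eq_true_eq, or_self] at h
    omega

/-- The offset in the cluster. -/
def off (r : ℕ) (u : ℕ × ℕ) : ℕ :=
  if u.1 = 0 then 2 * r else if u.1 = 1 then 2 * r + 1 else
    if u.1 = 2 then 2 * u.2 else if u.1 = 3 then 2 * u.2 + 1 else
    if u.1 = 4 then 2 * r + 2 + 2 * u.2 else 2 * r + 2 + 2 * u.2 + 1

/-- The position of a vertex. -/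
def posC (Q : List Quad) (g : ℕ → ℤ) (u : ℕ × ℕ) : ℤ :=
  g (el Q u) * (4 * Q.length + 2) + off Q.length u

theorem off_lt {u : ℕ × ℕ} (hu : u ∈ vsC E Q) : off Q.length u < 4 * Q.length + 2 := by
  rw [mem_vsC] at hu
  unfold off
  rcases hu with ⟨h1, h2⟩ | ⟨h1, h2, h3⟩
  · split_ifs <;> omega
  · split_ifs <;> omega

theorem pos_lt_of {g : ℕ → ℤ} {u v : ℕ × ℕ} (hu : u ∈ vsC E Q)
    (h : g (el Q u) < g (el Q v)) : posC Q g u < posC Q g v := by
  have h1 := off_lt hu
  unfold posC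
  have h2 : g (el Q u) + 1 ≤ g (el Q v) := h
  have h3 : (g (el Q u) + 1) * (4 * (Q.length : ℤ) + 2) ≤
      g (el Q v) * (4 * (Q.length : ℤ) + 2) := mul_le_mul_of_nonneg_right h2 (by positivity)
  rw [add_mul, one_mul] at h3
  omega

theorem pos_eq_of {g : ℕ → ℤ} {u v : ℕ × ℕ} (h : el Q u = el Q v) :
    posC Q g u < posC Q g v ↔ off Q.length u < off Q.length v := by
  unfold posC
  rw [h]
  omega

/-- Positions of vertices in different clusters. -/
theorem pos_iff_of {g : ℕ → ℤ} (hg : Set.InjOn g {x | x ∈ E}) (hQ : QOk E Q) {u v : ℕ × ℕ}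
    (hu : u ∈ vsC E Q) (hv : v ∈ vsC E Q) (h : el Q u ≠ el Q v) :
    (posC Q g u < posC Q g v ↔ g (el Q u) < g (el Q v)) ∧ g (el Q u) ≠ g (el Q v) := by
  have hne : g (el Q u) ≠ g (el Q v) := fun h' => h (hg (el_mem hQ hu) (el_mem hQ hv) h')
  refine ⟨⟨fun h1 => ?_, pos_lt_of hu⟩, hne⟩
  rcases lt_or_gt_of_ne hne with h2 | h2
  · exact h2
  · have := pos_lt_of (g := g) hv h2
    omega

theorem posC_inj {g : ℕ → ℤ} (hg : Set.InjOn g {x | x ∈ E}) (hQ : QOk E Q) :
    Function.Injective (fun u : {x // x ∈ vsC E Q} => posC Q g u.1) := by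
  rintro ⟨u, hu⟩ ⟨v, hv⟩ huv
  simp only at huv
  by_cases h : el Q u = el Q v
  · have h1 : off Q.length u = off Q.length v := by
      have h1 := pos_eq_of (g := g) h
      have h2 := pos_eq_of (g := g) h.symm
      rw [huv] at h1 h2
      omega
    apply Subtype.ext
    simp only
    obtain ⟨k, x⟩ := u
    obtain ⟨l, y⟩ := v
    rw [mem_vsC] at hu hv
    simp only at hu hv
    unfold off at h1
    simp only at h1
    rcases hu with ⟨a1, a2⟩ | ⟨a1, a2, a3⟩ <;> rcases hv with ⟨b1, b2⟩ | ⟨b1, b2, b3⟩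
    · unfold el at h
      simp only [a1, b1, if_true] at h
      subst h
      interval_cases k <;> interval_cases l <;> simp at h1 ⊢
    · interval_cases k <;> interval_cases l <;> simp at h1 <;> omega
    · interval_cases k <;> interval_cases l <;> simp at h1 <;> omega
    · interval_cases k <;> interval_cases l <;> simp at h1 ⊢ <;> omega
  · have := pos_iff_of hg hQ hu hv h
    have := pos_iff_of hg hQ hv hu (Ne.symm h)
    omega

end

end Pool.Agent.H495R3.Cy
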