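import Pool.Agent.H495R3.CySat2

/-!
# The reduction is computable in polynomial time
-/

set_option autoImplicit false

namespace Pool.Agent.H495R3.Cy

open Pool.Agent.NPC

variable {α : Type} [TEnc α]

theorem qc_poly {q : α → Quad} {k : α → ℕ} (hq : Poly q) (hk : Poly k) :
    Poly (fun a => qc (q a) (k a)) := by
  unfold qc
  fun_prop

attribute [fun_prop] qc_poly

theorem el_poly {Q : α → List Quad} {u : α → ℕ × ℕ} (hq : Poly Q) (hu : Poly u) :
    Poly (fun a => el (Q a) (u a)) := by
  unfold el
  fun_prop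

attribute [fun_prop] el_poly

theorem isA_poly {k : α → ℕ} (hk : Poly k) : Poly (fun a => isA (k a)) := by
  unfold isA
  fun_prop

attribute [fun_prop] isA_poly

theorem isB_poly {k : α → ℕ} (hk : Poly k) : Poly (fun a => isB (k a)) := by
  unfold isB
  fun_prop

attribute [fun_prop] isB_poly

theorem adjC_poly {Q : α → List Quad} {u v : α → ℕ × ℕ} (hq : Poly Q) (hu : Poly u)
    (hv : Poly v) : Poly (fun a => adjC (Q a) (u a) (v a)) := by
  unfold adjC
  fun_prop

attribute [fun_prop] adjC_poly

theorem els_poly {φ : α → List Cl} (hf : Poly φ) : Poly (fun a => els (φ a)) := by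
  have h : UPoly (fun a => 3 + 8 * (φ a).length) :=
    (UPoly.const 3).add ((UPoly.const 8).mul (UPoly.length hf))
  exact h.range

attribute [fun_prop] els_poly

theorem range3_poly {φ : α → List Cl} (hf : Poly φ) :
    Poly (fun a => List.range (3 * (φ a).length)) := by
  have h : UPoly (fun a => 3 * (φ a).length) := (UPoly.const 3).mul (UPoly.length hf)
  exact h.range

theorem lc_poly {l : α → Bool × ℕ} (hl : Poly l) : Poly (fun a => lc (l a)) := by
  unfold lc
  fun_prop

attribute [fun_prop] lc_poly

theorem betw_poly {a b c : α → ℕ} (ha : Poly a) (hb : Poly b) (hc : Poly c) :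
    Poly (fun x => betw (a x) (b x) (c x)) := by
  unfold betw
  fun_prop

attribute [fun_prop] betw_poly

theorem clQ_poly {n c : α → ℕ} {d : α → Cl} (hn : Poly n) (hc : Poly c) (hd : Poly d) :
    Poly (fun x => clQ (n x) (c x) (d x)) := by
  unfold clQ
  fun_prop

attribute [fun_prop] clQ_poly

theorem quads_poly {φ : α → List Cl} (hf : Poly φ) : Poly (fun a => quads (φ a)) := by
  unfold quads
  refine NPC.Poly.append (NPC.Poly.flatMap (F := fun (_ : α) v => betw (3 + 2 * v) 1
    (3 + 2 * v + 1)) (range3_poly hf) (by fun_prop)) ?_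
  exact NPC.Poly.flatMap (F := fun (a : α) (p : Cl × ℕ) => clQ (φ a).length p.2 p.1)
    (by fun_prop) (by fun_prop)

attribute [fun_prop] quads_poly

theorem vsC_poly : Poly (fun φ : List Cl => vsC (els φ) (quads φ)) := by
  unfold vsC
  refine NPC.Poly.append (NPC.Poly.map (F := fun (_ : List Cl) x => ((0 : ℕ), x))
    (by fun_prop) (by fun_prop)) ?_
  refine NPC.Poly.append (NPC.Poly.map (F := fun (_ : List Cl) x => ((1 : ℕ), x))
    (by fun_prop) (by fun_prop)) ?_
  refine NPC.Poly.flatMap (F := fun (_ : List Cl) i => [((2 : ℕ), i), (3, i), (4, i), (5, i)])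
    ?_ (by fun_prop)
  exact (UPoly.length (quads_poly NPC.Poly.id)).range

theorem cyRed_poly : Poly cyRed :=
  H622R2.mat_poly (l := fun φ => vsC (els φ) (quads φ)) (adj := fun φ => adjC (quads φ))
    vsC_poly (by fun_prop)

/-- The problem is hard. -/
theorem hardI_BipGoodOrdering : HardI BipGoodOrdering :=
  (hardPr_SAT3b.trans (Pr' := fun _ => True) cyRed_poly (fun _ _ => trivial)
    (fun _ h => cyRed_correct h.1 h.2.1)).toHardI

end Pool.Agent.H495R3.Cy
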