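import Pool.Agent.H495R3.CyCor

/-!
# From 3SAT to non-separation constraints

The elements are `0` (infinity), `1` (the middle), `2` (false), `3 + 2 v + b` for the literals, and
two auxiliary elements for every clause.
-/

set_option autoImplicit false

namespace Pool.Agent.H495R3.Cy

open Pool.Agent.NPC

/-- Clauses with three literals. -/
abbrev Cl := (Bool × ℕ) × (Bool × ℕ) × (Bool × ℕ)

/-- The element of a literal. -/
def lc (l : Bool × ℕ) : ℕ := 3 + 2 * l.2 + (if l.1 = true then 1 else 0)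

/-- The constraints saying that `b` is between `a` and `c` when the circle is cut at `0`. -/
def betw (a b c : ℕ) : List Quad := [(0, b, a, c), (0, a, c, b)]

/-- The constraints of the clause number `c`. -/
def clQ (n c : ℕ) (d : Cl) : List Quad :=
  betw (lc d.1) (3 + 6 * n + 2 * c) (lc d.2.1) ++
    (betw (lc d.2.2) (3 + 6 * n + 2 * c + 1) 2 ++
      betw (3 + 6 * n + 2 * c) 1 (3 + 6 * n + 2 * c + 1))

/-- All constraints. -/
def quads (φ : List Cl) : List Quad :=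
  (List.range (3 * φ.length)).flatMap (fun v => betw (3 + 2 * v) 1 (3 + 2 * v + 1)) ++
    φ.zipIdx.flatMap (fun p => clQ φ.length p.2 p.1)

/-- The elements. -/
def els (φ : List Cl) : List ℕ := List.range (3 + 8 * φ.length)

theorem mem_els {φ : List Cl} (x : ℕ) : x ∈ els φ ↔ x < 3 + 8 * φ.length := by
  unfold els
  rw [List.mem_range]

theorem lc_lt {φ : List Cl} {l : Bool × ℕ} (h : l.2 < 3 * φ.length) :
    3 ≤ lc l ∧ lc l < 3 + 6 * φ.length := by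
  unfold lc
  split_ifs <;> omega

theorem lc_ne {l l' : Bool × ℕ} (h : l.2 ≠ l'.2) : lc l ≠ lc l' := by
  unfold lc
  split_ifs <;> omega

/-- The triples of the betweenness constraints. -/
def Trip (φ : List Cl) (a b c : ℕ) : Prop :=
  (∃ v < 3 * φ.length, a = 3 + 2 * v ∧ b = 1 ∧ c = 3 + 2 * v + 1) ∨
  ∃ k, ∃ hk : k < φ.length, (a = lc φ[k].1 ∧ b = 3 + 6 * φ.length + 2 * k ∧ c = lc φ[k].2.1) ∨
    (a = lc φ[k].2.2 ∧ b = 3 + 6 * φ.length + 2 * k + 1 ∧ c = 2) ∨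
    (a = 3 + 6 * φ.length + 2 * k ∧ b = 1 ∧ c = 3 + 6 * φ.length + 2 * k + 1)

theorem mem_quads {φ : List Cl} (q : Quad) :
    q ∈ quads φ ↔ ∃ a b c, Trip φ a b c ∧ q ∈ betw a b c := by
  unfold quads clQ
  simp only [List.mem_append, List.mem_flatMap, List.mem_range]
  constructor
  · rintro (⟨v, hv, h⟩ | ⟨⟨d, k⟩, hd, h⟩)
    · exact ⟨_, _, _, Or.inl ⟨v, hv, rfl, rfl, rfl⟩, h⟩
    · rw [List.mem_zipIdx_iff_getElem?] at hd
      simp only at hd h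
      obtain ⟨hk, hd⟩ := List.getElem?_eq_some_iff.1 hd
      subst hd
      rcases h with h | h | h
      · exact ⟨_, _, _, Or.inr ⟨k, hk, Or.inl ⟨rfl, rfl, rfl⟩⟩, h⟩
      · exact ⟨_, _, _, Or.inr ⟨k, hk, Or.inr (Or.inl ⟨rfl, rfl, rfl⟩)⟩, h⟩
      · exact ⟨_, _, _, Or.inr ⟨k, hk, Or.inr (Or.inr ⟨rfl, rfl, rfl⟩)⟩, h⟩
  · rintro ⟨a, b, c, ⟨v, hv, rfl, rfl, rfl⟩ | ⟨k, hk, h'⟩, h⟩
    · exact Or.inl ⟨v, hv, h⟩
    · right
      refine ⟨(φ[k], k), ?_, ?_⟩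
      · rw [List.mem_zipIdx_iff_getElem?]
        simp
      · simp only
        rcases h' with ⟨rfl, rfl, rfl⟩ | ⟨rfl, rfl, rfl⟩ | ⟨rfl, rfl, rfl⟩
        · exact Or.inl h
        · exact Or.inr (Or.inl h)
        · exact Or.inr (Or.inr h)

theorem trip_ok {φ : List Cl} (hd : Distinct3 φ) (hb : Bounded3 φ) {a b c : ℕ}
    (h : Trip φ a b c) : a ≠ b ∧ b ≠ c ∧ a ≠ c ∧ 0 < a ∧ 0 < b ∧ 0 < c ∧
      a < 3 + 8 * φ.length ∧ b < 3 + 8 * φ.length ∧ c < 3 + 8 * φ.length := by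
  rcases h with ⟨v, hv, rfl, rfl, rfl⟩ | ⟨k, hk, h⟩
  · omega
  · obtain ⟨d1, d2, d3⟩ := hd _ (List.getElem_mem hk)
    obtain ⟨b1, b2, b3⟩ := hb _ (List.getElem_mem hk)
    have c1 := lc_lt b1
    have c2 := lc_lt b2
    have c3 := lc_lt b3
    have e1 := lc_ne d1
    rcases h with ⟨rfl, rfl, rfl⟩ | ⟨rfl, rfl, rfl⟩ | ⟨rfl, rfl, rfl⟩
    · omega
    · omega
    · omega

theorem quads_ok {φ : List Cl} (hd : Distinct3 φ) (hb : Bounded3 φ) : QOk (els φ) (quads φ) := by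
  intro q hq
  obtain ⟨a, b, c, ht, hq⟩ := (mem_quads q).1 hq
  obtain ⟨h1, h2, h3, h4, h5, h6, h7, h8, h9⟩ := trip_ok hd hb ht
  simp only [betw, List.mem_cons, List.not_mem_nil, or_false] at hq
  rcases hq with rfl | rfl
  · simp only [mem_els]
    refine ⟨by omega, h8, h7, h9, by omega, by omega, by omega, h1.symm, h2, h3⟩
  · simp only [mem_els]
    refine ⟨by omega, h7, h9, h8, by omega, by omega, by omega, h3, h1, h2.symm⟩

/-! ### Soundness -/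

section Sound

variable {g : ℕ → ℤ}

/-- If `m` is between `a` and `c` (cut at `z`), then `a` and `c` are on different sides. -/
theorem side_mid {z m a c : ℤ} (h1 : z ≠ m) (h2 : z ≠ a) (h3 : z ≠ c) (h4 : m ≠ a) (h5 : m ≠ c)
    (h6 : a ≠ c)
    (k1 : ((z < m ∧ m < a) ∨ (a < m ∧ m < z)) ↔ ((z < c ∧ c < a) ∨ (a < c ∧ c < z)))
    (k2 : ((z < a ∧ a < c) ∨ (c < a ∧ a < z)) ↔ ((z < m ∧ m < c) ∨ (c < m ∧ m < z))) :
    ¬ (((z < a ∧ a < m) ∨ (m < a ∧ a < z)) ↔ ((z < c ∧ c < m) ∨ (m < c ∧ c < z))) := by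
  rcases lt_or_gt_of_ne h1 with h1 | h1 <;> rcases lt_or_gt_of_ne h2 with h2 | h2 <;>
    rcases lt_or_gt_of_ne h3 with h3 | h3 <;> rcases lt_or_gt_of_ne h4 with h4 | h4 <;>
    rcases lt_or_gt_of_ne h5 with h5 | h5 <;> rcases lt_or_gt_of_ne h6 with h6 | h6 <;>
    simp only [h1, h2, h3, h4, h5, h6, not_lt_of_gt h1, not_lt_of_gt h2, not_lt_of_gt h3,
      not_lt_of_gt h4, not_lt_of_gt h5, not_lt_of_gt h6, and_true, true_and, and_false, false_and,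
      or_true, or_false, false_or, true_or, iff_true, true_iff, iff_false, false_iff, not_true,
      not_false_iff, and_self, or_self, iff_self] at k1 k2 ⊢ <;> omega

/-- If `w` is between `a` and `c` (cut at `z`), which are on the same side, then `w` is on that
side. -/
theorem side_btw {z m a c w : ℤ} (h1 : z ≠ m) (h2 : z ≠ a) (h3 : z ≠ c) (h4 : m ≠ a) (h5 : m ≠ c)
    (h6 : a ≠ c) (h7 : w ≠ z) (h8 : w ≠ m) (h9 : w ≠ a) (h10 : w ≠ c)
    (k1 : ((z < w ∧ w < a) ∨ (a < w ∧ w < z)) ↔ ((z < c ∧ c < a) ∨ (a < c ∧ c < z)))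
    (k2 : ((z < a ∧ a < c) ∨ (c < a ∧ a < z)) ↔ ((z < w ∧ w < c) ∨ (c < w ∧ w < z)))
    (hs : ((z < a ∧ a < m) ∨ (m < a ∧ a < z)) ↔ ((z < c ∧ c < m) ∨ (m < c ∧ c < z))) :
    ((z < w ∧ w < m) ∨ (m < w ∧ w < z)) ↔ ((z < a ∧ a < m) ∨ (m < a ∧ a < z)) := by
  have k3 := side_mid (z := z) (m := w) (a := a) (c := c) h7.symm h2 h3 h9 h10 h6 k1 k2
  by_cases e1 : (z < a ∧ a < w) ∨ (w < a ∧ a < z)
  · have e2 : ¬ ((z < c ∧ c < w) ∨ (w < c ∧ c < z)) := fun e => k3 (iff_of_true e1 e)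
    by_cases e3 : (z < a ∧ a < m) ∨ (m < a ∧ a < z)
    · have e4 := hs.1 e3
      refine iff_of_true ?_ e3
      rcases e1 with e1 | e1 <;> rcases e3 with e3 | e3 <;> rcases e4 with e4 | e4 <;> omega
    · have e4 : ¬ ((z < c ∧ c < m) ∨ (m < c ∧ c < z)) := fun e => e3 (hs.2 e)
      refine iff_of_false (fun e5 => ?_) e3
      rcases e1 with e1 | e1 <;> rcases e5 with e5 | e5 <;> omega
  · have e2 : (z < c ∧ c < w) ∨ (w < c ∧ c < z) := by
      by_contra e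
      exact k3 (iff_of_false e1 e)
    by_cases e3 : (z < a ∧ a < m) ∨ (m < a ∧ a < z)
    · have e4 := hs.1 e3
      refine iff_of_true ?_ e3
      rcases e2 with e2 | e2 <;> rcases e3 with e3 | e3 <;> rcases e4 with e4 | e4 <;> omega
    · have e4 : ¬ ((z < c ∧ c < m) ∨ (m < c ∧ c < z)) := fun e => e3 (hs.2 e)
      refine iff_of_false (fun e5 => ?_) e3
      rcases e2 with e2 | e2 <;> rcases e5 with e5 | e5 <;> omega

end Sound

theorem solv_to_sat {φ : List Cl} (hd : Distinct3 φ) (hb : Bounded3 φ)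
    (h : Solv (els φ) (quads φ)) : SAT3 φ := by
  classical
  obtain ⟨g, hg, hs⟩ := h
  have hne : ∀ x y, x < 3 + 8 * φ.length → y < 3 + 8 * φ.length → x ≠ y → g x ≠ g y := by
    intro x y hx hy hxy h
    exact hxy (hg ((mem_els x).2 hx) ((mem_els y).2 hy) h)
  -- the two facts about betweenness
  have hk : ∀ a b c, Trip φ a b c → NonSep g 0 a b c ∧ NonSep g 0 c a b := by
    intro a b c ht
    have m1 : ((0, b, a, c) : Quad) ∈ quads φ :=
      (mem_quads _).2 ⟨a, b, c, ht, by simp [betw]⟩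
    have m2 : ((0, a, c, b) : Quad) ∈ quads φ :=
      (mem_quads _).2 ⟨a, b, c, ht, by simp [betw]⟩
    exact ⟨hs _ m1, hs _ m2⟩
  have hmid : ∀ a c, Trip φ a 1 c → ¬ (Btw g 0 1 a ↔ Btw g 0 1 c) := by
    intro a c ht
    obtain ⟨h1, h2, h3, h4, h5, h6, h7, h8, h9⟩ := trip_ok hd hb ht
    obtain ⟨k1, k2⟩ := hk a 1 c ht
    exact side_mid (hne _ _ (by omega) h8 (by omega)) (hne _ _ (by omega) h7 (by omega))
      (hne _ _ (by omega) h9 (by omega)) (hne _ _ h8 h7 h1.symm) (hne _ _ h8 h9 h2)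
      (hne _ _ h7 h9 h3) k1 k2
  have hbtw : ∀ a b c, Trip φ a b c → b ≠ 1 → a ≠ 1 → c ≠ 1 → (Btw g 0 1 a ↔ Btw g 0 1 c) →
      (Btw g 0 1 b ↔ Btw g 0 1 a) := by
    intro a b c ht n1 n2 n3 hs
    obtain ⟨h1, h2, h3, h4, h5, h6, h7, h8, h9⟩ := trip_ok hd hb ht
    obtain ⟨k1, k2⟩ := hk a b c ht
    exact side_btw (hne _ _ (by omega) (by omega) (by omega)) (hne _ _ (by omega) h7 (by omega))
      (hne _ _ (by omega) h9 (by omega)) (hne _ _ (by omega) h7 n2.symm)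
      (hne _ _ (by omega) h9 n3.symm) (hne _ _ h7 h9 h3) (hne _ _ h8 (by omega) (by omega))
      (hne _ _ h8 (by omega) n1) (hne _ _ h8 h7 h1.symm) (hne _ _ h8 h9 h2) k1 k2 hs
  let τ : ℕ → Bool := fun v => !decide (Btw g 0 1 (3 + 2 * v + 1) ↔ Btw g 0 1 2)
  have hlit : ∀ l : Bool × ℕ, l.2 < 3 * φ.length → τ l.2 ≠ l.1 →
      (Btw g 0 1 (lc l) ↔ Btw g 0 1 2) := by
    rintro ⟨b, v⟩ hv hne
    have h1 := hmid (3 + 2 * v) (3 + 2 * v + 1) (Or.inl ⟨v, hv, rfl, rfl, rfl⟩)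
    cases b with
    | true =>
      have : lc (true, v) = 3 + 2 * v + 1 := rfl
      rw [this]
      simpa [τ] using hne
    | false =>
      have : lc (false, v) = 3 + 2 * v := rfl
      rw [this]
      have h2 : ¬ (Btw g 0 1 (3 + 2 * v + 1) ↔ Btw g 0 1 2) := by simpa [τ] using hne
      by_cases e1 : Btw g 0 1 (3 + 2 * v) <;> by_cases e2 : Btw g 0 1 (3 + 2 * v + 1) <;>
        by_cases e3 : Btw g 0 1 2 <;> simp only [e1, e2, e3] at h1 h2 ⊢ <;> simp at h1 h2 ⊢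
  refine ⟨τ, fun d hd' => ?_⟩
  obtain ⟨k, hk', rfl⟩ := List.getElem_of_mem hd'
  obtain ⟨b1, b2, b3⟩ := hb _ (List.getElem_mem hk')
  by_contra hcon
  push Not at hcon
  obtain ⟨n1, n2, n3⟩ := hcon
  have s1 := hlit _ b1 n1
  have s2 := hlit _ b2 n2
  have s3 := hlit _ b3 n3
  have c1 := lc_lt b1
  have c2 := lc_lt b2
  have c3 := lc_lt b3
  have w1 := hbtw _ _ _ (Or.inr ⟨k, hk', Or.inl ⟨rfl, rfl, rfl⟩⟩) (by omega) (by omega) (by omega)
    (s1.trans s2.symm)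
  have w2 := hbtw _ _ _ (Or.inr ⟨k, hk', Or.inr (Or.inl ⟨rfl, rfl, rfl⟩)⟩) (by omega) (by omega)
    (by omega) s3
  exact hmid _ _ (Or.inr ⟨k, hk', Or.inr (Or.inr ⟨rfl, rfl, rfl⟩)⟩)
    ((w1.trans s1).trans (w2.trans s3).symm)

end Pool.Agent.H495R3.Cy
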