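import Pool.Agent.H495R3.CySat

/-!
# From satisfying assignments to orderings
-/

set_option autoImplicit false

namespace Pool.Agent.H495R3.Cy

open Pool.Agent.NPC

section

variable (φ : List Cl) (τ : ℕ → Bool)

/-- The element is to the right of the middle (false). -/
def Rt (x : ℕ) : Bool := if x < 3 then true else !decide (τ ((x - 3) / 2) = decide ((x - 3) % 2 = 1))

/-- The main position of an element. -/
def P0 (x : ℕ) : ℤ := if Rt τ x = true then (x + 1 : ℤ) else -(x + 1 : ℤ)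

/-- The neighbour of an auxiliary element, and the element towards which it lies. -/
def hst (j : ℕ) : ℕ × ℕ :=
  (φ[j / 2]?).elim (0, 0) (fun c =>
    if j % 2 = 0 then
      (if τ c.1.2 = c.1.1 then (lc c.1, lc c.2.1) else
        if τ c.2.1.2 = c.2.1.1 then (lc c.2.1, lc c.1) else (lc c.1, lc c.2.1))
    else
      (if τ c.1.2 = c.1.1 ∨ τ c.2.1.2 = c.2.1.1 then (2, lc c.2.2) else (lc c.2.2, 2)))

/-- The scale. -/
def sc : ℤ := 4 * φ.length + 4

/-- The ordering. -/
def gS (x : ℕ) : ℤ :=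
  if x = 0 then -((8 * φ.length + 20) * sc φ) else if x = 1 then 0 else
    if x < 3 + 6 * φ.length then P0 τ x * sc φ else
      P0 τ (hst φ τ (x - (3 + 6 * φ.length))).1 * sc φ +
        (if P0 τ (hst φ τ (x - (3 + 6 * φ.length))).1 < P0 τ (hst φ τ (x - (3 + 6 * φ.length))).2
          then ((x - (3 + 6 * φ.length) + 1 : ℕ) : ℤ) else -((x - (3 + 6 * φ.length) + 1 : ℕ) : ℤ))

end

variable {φ : List Cl} {τ : ℕ → Bool}

theorem Rt_lc (l : Bool × ℕ) : Rt τ (lc l) = !decide (τ l.2 = l.1) := by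
  obtain ⟨b, v⟩ := l
  unfold Rt lc
  cases b with
  | true =>
    rw [if_neg (by simp; omega)]
    have h1 : (3 + 2 * v + (if true = true then 1 else 0) - 3) / 2 = v := by
      rw [if_pos rfl]; omega
    have h2 : (3 + 2 * v + (if true = true then 1 else 0) - 3) % 2 = 1 := by
      rw [if_pos rfl]; omega
    rw [h1, h2]
    simp
  | false =>
    rw [if_neg (by simp)]
    have h1 : (3 + 2 * v - 3) / 2 = v := by omega
    have h2 : (3 + 2 * v - 3) % 2 = 0 := by omega
    simp [h1, h2]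

theorem P0_abs (x : ℕ) : P0 τ x = x + 1 ∨ P0 τ x = -(x + 1) := by
  unfold P0
  split_ifs
  · exact Or.inl rfl
  · exact Or.inr rfl

theorem P0_right {x : ℕ} (h : Rt τ x = true) : P0 τ x = x + 1 := by
  unfold P0; rw [if_pos h]

theorem P0_left {x : ℕ} (h : Rt τ x = false) : P0 τ x = -(x + 1) := by
  unfold P0; rw [if_neg (by simp [h])]

theorem P0_ne {x y : ℕ} (h : x ≠ y) : P0 τ x ≠ P0 τ y := by
  have h1 := P0_abs (τ := τ) x
  have h2 := P0_abs (τ := τ) y
  omega

/-- Host and target of an auxiliary element. -/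
theorem hst_spec (hd : Distinct3 φ) (hb : Bounded3 φ) {j : ℕ} (hj : j < 2 * φ.length) :
    2 ≤ (hst φ τ j).1 ∧ (hst φ τ j).1 < 3 + 6 * φ.length ∧ 2 ≤ (hst φ τ j).2 ∧
      (hst φ τ j).2 < 3 + 6 * φ.length ∧ (hst φ τ j).1 ≠ (hst φ τ j).2 := by
  have hk : j / 2 < φ.length := by omega
  obtain ⟨d1, d2, d3⟩ := hd _ (List.getElem_mem hk)
  obtain ⟨b1, b2, b3⟩ := hb _ (List.getElem_mem hk)
  have c1 := lc_lt b1
  have c2 := lc_lt b2
  have c3 := lc_lt b3
  have e1 := lc_ne d1
  unfold hst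
  rw [List.getElem?_eq_getElem hk]
  simp only [Option.elim_some]
  split_ifs <;> simp only <;> omega

theorem hst_even {k : ℕ} (hk : k < φ.length) :
    hst φ τ (2 * k) = if τ φ[k].1.2 = φ[k].1.1 then (lc φ[k].1, lc φ[k].2.1) else
        if τ φ[k].2.1.2 = φ[k].2.1.1 then (lc φ[k].2.1, lc φ[k].1) else
          (lc φ[k].1, lc φ[k].2.1) := by
  unfold hst
  rw [show 2 * k / 2 = k by omega, List.getElem?_eq_getElem hk, show 2 * k % 2 = 0 by omega]
  simp

theorem hst_odd {k : ℕ} (hk : k < φ.length) :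
    hst φ τ (2 * k + 1) = if τ φ[k].1.2 = φ[k].1.1 ∨ τ φ[k].2.1.2 = φ[k].2.1.1 then
      (2, lc φ[k].2.2) else (lc φ[k].2.2, 2) := by
  unfold hst
  rw [show (2 * k + 1) / 2 = k by omega, List.getElem?_eq_getElem hk,
    show (2 * k + 1) % 2 = 1 by omega]
  simp

theorem gS_zero : gS φ τ 0 = -((8 * φ.length + 20) * sc φ) := by
  unfold gS; rw [if_pos rfl]

theorem gS_one : gS φ τ 1 = 0 := by
  unfold gS; rw [if_neg (by norm_num), if_pos rfl]

theorem gS_main {x : ℕ} (h2 : 2 ≤ x) (h : x < 3 + 6 * φ.length) : gS φ τ x = P0 τ x * sc φ := by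
  unfold gS; rw [if_neg (by omega), if_neg (by omega), if_pos h]

theorem gS_aux (j : ℕ) : gS φ τ (3 + 6 * φ.length + j) = P0 τ (hst φ τ j).1 * sc φ +
    (if P0 τ (hst φ τ j).1 < P0 τ (hst φ τ j).2 then ((j + 1 : ℕ) : ℤ) else -((j + 1 : ℕ) : ℤ)) := by
  unfold gS
  rw [if_neg (by omega), if_neg (by omega), if_neg (by omega), Nat.add_sub_cancel_left]

theorem sc_pos : 0 < sc φ := by unfold sc; positivity

/-- Comparison of scaled positions. -/
theorem scaled_lt {p q a b : ℤ} (h : p < q) (ha : a ≤ 2 * φ.length + 1)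
    (hb : -(2 * φ.length + 1) ≤ b) : p * sc φ + a < q * sc φ + b := by
  have h1 : (p + 1) * sc φ ≤ q * sc φ := mul_le_mul_of_nonneg_right (by omega) sc_pos.le
  rw [add_mul, one_mul] at h1
  have h2 : sc φ = 4 * φ.length + 4 := rfl
  omega

/-- Scaled form of every value but the first. -/
theorem gS_form (hd : Distinct3 φ) (hb : Bounded3 φ) {x : ℕ} (h1 : 1 ≤ x)
    (h : x < 3 + 8 * φ.length) : ∃ p a : ℤ, gS φ τ x = p * sc φ + a ∧
      -(3 + 6 * φ.length : ℤ) ≤ p ∧ -(2 * φ.length : ℤ) ≤ a ∧ a ≤ 2 * φ.length ∧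
      ((x = 1 ∧ p = 0 ∧ a = 0) ∨ (2 ≤ x ∧ x < 3 + 6 * φ.length ∧ p = P0 τ x ∧ a = 0) ∨
        (3 + 6 * φ.length ≤ x ∧ (a = ((x - (3 + 6 * φ.length) + 1 : ℕ) : ℤ) ∨
          a = -((x - (3 + 6 * φ.length) + 1 : ℕ) : ℤ)))) := by
  by_cases hx1 : x = 1
  · subst hx1
    exact ⟨0, 0, by rw [gS_one]; simp, by omega, by omega, by omega, Or.inl ⟨rfl, rfl, rfl⟩⟩
  by_cases hx2 : x < 3 + 6 * φ.length
  · have := P0_abs (τ := τ) x
    refine ⟨P0 τ x, 0, by rw [gS_main (by omega) hx2]; simp, by omega, by omega, by omega,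
      Or.inr (Or.inl ⟨by omega, hx2, rfl, rfl⟩)⟩
  · obtain ⟨j, rfl⟩ : ∃ j, x = 3 + 6 * φ.length + j := ⟨x - (3 + 6 * φ.length), by omega⟩
    have hs := hst_spec (τ := τ) hd hb (j := j) (by omega)
    have := P0_abs (τ := τ) (hst φ τ j).1
    rw [gS_aux]
    refine ⟨_, _, rfl, by omega, ?_, ?_, Or.inr (Or.inr ⟨by omega, ?_⟩)⟩
    · split_ifs <;> omega
    · split_ifs <;> omega
    · rw [Nat.add_sub_cancel_left]
      split_ifs
      · exact Or.inl rfl
      · exact Or.inr rfl

theorem scaled_inj {p q a b : ℤ} (ha : -(2 * φ.length : ℤ) ≤ a) (ha' : a ≤ 2 * φ.length)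
    (hb : -(2 * φ.length : ℤ) ≤ b) (hb' : b ≤ 2 * φ.length)
    (h : p * sc φ + a = q * sc φ + b) : p = q ∧ a = b := by
  have hpq : p = q := by
    rcases lt_trichotomy p q with h1 | h1 | h1
    · have := scaled_lt (φ := φ) (a := a) (b := b) h1 (by omega) (by omega)
      omega
    · exact h1
    · have := scaled_lt (φ := φ) (a := b) (b := a) h1 (by omega) (by omega)
      omega
  subst hpq
  exact ⟨rfl, by omega⟩

theorem gS_zero_lt (hd : Distinct3 φ) (hb : Bounded3 φ) {x : ℕ} (h1 : 1 ≤ x)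
    (h : x < 3 + 8 * φ.length) : gS φ τ 0 < gS φ τ x := by
  obtain ⟨p, a, e, h2, h3, h4, _⟩ := gS_form (τ := τ) hd hb h1 h
  rw [e, gS_zero, ← neg_mul]
  have := scaled_lt (φ := φ) (p := -(8 * φ.length + 20)) (q := p) (a := 0) (b := a) (by omega)
    (by omega) (by omega)
  rwa [add_zero] at this

theorem gS_inj (hd : Distinct3 φ) (hb : Bounded3 φ) : Set.InjOn (gS φ τ) {x | x ∈ els φ} := by
  intro x hx y hy hxy
  have hx' : x < 3 + 8 * φ.length := (mem_els x).1 hx
  have hy' : y < 3 + 8 * φ.length := (mem_els y).1 hy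
  by_cases hx0 : x = 0
  · by_cases hy0 : y = 0
    · rw [hx0, hy0]
    · have := gS_zero_lt (τ := τ) hd hb (by omega : 1 ≤ y) hy'
      rw [hx0] at hxy
      omega
  · by_cases hy0 : y = 0
    · have := gS_zero_lt (τ := τ) hd hb (by omega : 1 ≤ x) hx'
      rw [hy0] at hxy
      omega
    · obtain ⟨p, a, e, h2, h3, h4, h5⟩ := gS_form (τ := τ) hd hb (by omega : 1 ≤ x) hx'
      obtain ⟨q, b, e', g2, g3, g4, g5⟩ := gS_form (τ := τ) hd hb (by omega : 1 ≤ y) hy'
      rw [e, e'] at hxy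
      obtain ⟨hpq, hab⟩ := scaled_inj h3 h4 g3 g4 hxy
      have hPx := P0_abs (τ := τ) x
      have hPy := P0_abs (τ := τ) y
      omega

/-- Linear betweenness gives the two constraints. -/
theorem betw_of {g : ℕ → ℤ} {a b c : ℕ} (h1 : g 0 < g a) (h2 : g 0 < g b) (h3 : g 0 < g c)
    (h : (g a < g b ∧ g b < g c) ∨ (g c < g b ∧ g b < g a)) :
    ∀ q ∈ betw a b c, NonSep g q.1 q.2.2.1 q.2.1 q.2.2.2 := by
  intro q hq
  simp only [betw, List.mem_cons, List.not_mem_nil, or_false] at hq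
  rcases hq with rfl | rfl
  · unfold NonSep Btw
    simp only
    rcases h with h | h
    · exact iff_of_false (by omega) (by omega)
    · exact iff_of_true (by omega) (by omega)
  · unfold NonSep Btw
    simp only
    rcases h with h | h
    · exact iff_of_true (by omega) (by omega)
    · exact iff_of_false (by omega) (by omega)

/-- An auxiliary element is between its host and its target. -/
theorem aux_between (hd : Distinct3 φ) (hb : Bounded3 φ) {j : ℕ} (hj : j < 2 * φ.length) :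
    (gS φ τ (hst φ τ j).1 < gS φ τ (3 + 6 * φ.length + j) ∧
      gS φ τ (3 + 6 * φ.length + j) < gS φ τ (hst φ τ j).2) ∨
    (gS φ τ (hst φ τ j).2 < gS φ τ (3 + 6 * φ.length + j) ∧
      gS φ τ (3 + 6 * φ.length + j) < gS φ τ (hst φ τ j).1) := by
  obtain ⟨h1, h2, h3, h4, h5⟩ := hst_spec (τ := τ) hd hb hj
  rw [gS_aux, gS_main h1 h2, gS_main h3 h4]
  have hne := P0_ne (τ := τ) h5
  rcases lt_or_gt_of_ne hne with h | h
  · left
    rw [if_pos h]
    have := scaled_lt (φ := φ) (a := ((j + 1 : ℕ) : ℤ)) (b := 0) h (by omega) (by omega)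
    omega
  · right
    rw [if_neg (by omega)]
    have := scaled_lt (φ := φ) (a := 0) (b := -((j + 1 : ℕ) : ℤ)) h (by omega) (by omega)
    omega

/-- An auxiliary element is on the side of its host. -/
theorem aux_side (j : ℕ) (hj : j < 2 * φ.length) :
    (Rt τ (hst φ τ j).1 = true → 0 < gS φ τ (3 + 6 * φ.length + j)) ∧
    (Rt τ (hst φ τ j).1 = false → gS φ τ (3 + 6 * φ.length + j) < 0) := by
  rw [gS_aux]
  constructor
  · intro h
    rw [P0_right h]
    have := scaled_lt (φ := φ) (p := 0) (q := ((hst φ τ j).1 : ℤ) + 1) (a := 0)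
      (b := (if ((hst φ τ j).1 : ℤ) + 1 < P0 τ (hst φ τ j).2 then ((j + 1 : ℕ) : ℤ)
        else -((j + 1 : ℕ) : ℤ))) (by omega) (by omega) (by split_ifs <;> omega)
    omega
  · intro h
    rw [P0_left h]
    have := scaled_lt (φ := φ) (p := -(((hst φ τ j).1 : ℤ) + 1)) (q := 0)
      (a := (if -(((hst φ τ j).1 : ℤ) + 1) < P0 τ (hst φ τ j).2 then ((j + 1 : ℕ) : ℤ)
        else -((j + 1 : ℕ) : ℤ))) (b := 0) (by omega) (by split_ifs <;> omega) (by omega)
    omega

theorem sat_to_solv (hd : Distinct3 φ) (hb : Bounded3 φ) (h : SAT3 φ) :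
    Solv (els φ) (quads φ) := by
  obtain ⟨τ, hτ⟩ := h
  refine ⟨gS φ τ, gS_inj hd hb, fun q hq => ?_⟩
  obtain ⟨a, b, c, ht, hq⟩ := (mem_quads q).1 hq
  obtain ⟨h1, h2, h3, h4, h5, h6, h7, h8, h9⟩ := trip_ok hd hb ht
  refine betw_of (gS_zero_lt hd hb h4 h7) (gS_zero_lt hd hb h5 h8) (gS_zero_lt hd hb h6 h9) ?_ q hq
  rcases ht with ⟨v, hv, rfl, rfl, rfl⟩ | ⟨k, hk, ht⟩
  · -- the middle is between the two literals
    rw [gS_one, gS_main (by omega) (by omega), gS_main (by omega) (by omega)]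
    have e1 : Rt τ (3 + 2 * v) = !decide (τ v = false) := Rt_lc (false, v)
    have e2 : Rt τ (3 + 2 * v + 1) = !decide (τ v = true) := Rt_lc (true, v)
    have hs := sc_pos (φ := φ)
    cases hv' : τ v with
    | true =>
      rw [hv'] at e1 e2
      right
      rw [P0_right (τ := τ) (x := 3 + 2 * v) (by simpa using e1),
        P0_left (τ := τ) (x := 3 + 2 * v + 1) (by simpa using e2)]
      constructor
      · exact mul_neg_of_neg_of_pos (by omega) hs
      · exact mul_pos (by omega) hs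
    | false =>
      rw [hv'] at e1 e2
      left
      rw [P0_left (τ := τ) (x := 3 + 2 * v) (by simpa using e1),
        P0_right (τ := τ) (x := 3 + 2 * v + 1) (by simpa using e2)]
      constructor
      · exact mul_neg_of_neg_of_pos (by omega) hs
      · exact mul_pos (by omega) hs
  · have t1 := aux_between (τ := τ) hd hb (j := 2 * k) (by omega)
    have t2 := aux_between (τ := τ) hd hb (j := 2 * k + 1) (by omega)
    have s1 := aux_side (τ := τ) (φ := φ) (2 * k) (by omega)
    have s2 := aux_side (τ := τ) (φ := φ) (2 * k + 1) (by omega)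
    rw [hst_even hk] at t1 s1
    rw [hst_odd hk] at t2 s2
    have r1 := Rt_lc (τ := τ) φ[k].1
    have r2 := Rt_lc (τ := τ) φ[k].2.1
    have r3 := Rt_lc (τ := τ) φ[k].2.2
    have rf : Rt τ 2 = true := by unfold Rt; rw [if_pos (by norm_num)]
    rcases ht with ⟨rfl, rfl, rfl⟩ | ⟨rfl, rfl, rfl⟩ | ⟨rfl, rfl, rfl⟩
    · split_ifs at t1
      · exact t1
      · exact t1.symm
      · exact t1
    · rw [show 3 + 6 * φ.length + 2 * k + 1 = 3 + 6 * φ.length + (2 * k + 1) by omega]
      split_ifs at t2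
      · exact t2.symm
      · exact t2
    · rw [gS_one, show 3 + 6 * φ.length + 2 * k + 1 = 3 + 6 * φ.length + (2 * k + 1) by omega]
      by_cases l1 : τ φ[k].1.2 = φ[k].1.1
      · rw [if_pos l1] at s1
        rw [if_pos (Or.inl l1)] at s2
        left
        exact ⟨s1.2 (by simp [r1, l1]), s2.1 rf⟩
      · by_cases l2 : τ φ[k].2.1.2 = φ[k].2.1.1
        · rw [if_neg l1, if_pos l2] at s1
          rw [if_pos (Or.inr l2)] at s2
          left
          exact ⟨s1.2 (by simp [r2, l2]), s2.1 rf⟩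
        · have l3 : τ φ[k].2.2.2 = φ[k].2.2.1 := by
            rcases hτ _ (List.getElem_mem hk) with h | h | h
            · exact absurd h l1
            · exact absurd h l2
            · exact h
          rw [if_neg l1, if_neg l2] at s1
          rw [if_neg (by tauto)] at s2
          right
          exact ⟨s2.2 (by simp [r3, l3]), s1.1 (by simp [r1, l1])⟩

/-- The reduction. -/
def cyRed (φ : List Cl) : List (List Bool) :=
  H622R2.mat (vsC (els φ) (quads φ)) (adjC (quads φ))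

theorem vsC_nodup (φ : List Cl) : (vsC (els φ) (quads φ)).Nodup := by
  unfold vsC els
  rw [List.nodup_append, List.nodup_append]
  refine ⟨List.nodup_range.map (fun a b h => by simpa using h),
    ⟨List.nodup_range.map (fun a b h => by simpa using h), ?_, ?_⟩, ?_⟩
  · refine H622R2.nodup_flatMap_of (fun x : ℕ × ℕ => x.2) List.nodup_range (fun i _ => by simp) ?_
    intro i _ b hb
    simp only [List.mem_cons, List.not_mem_nil, or_false] at hb
    rcases hb with rfl | rfl | rfl | rfl <;> rfl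
  · intro x hx y hy hxy
    subst hxy
    simp only [List.mem_map, List.mem_flatMap, List.mem_cons, List.not_mem_nil, or_false] at hx hy
    obtain ⟨_, _, rfl⟩ := hx
    obtain ⟨_, _, h⟩ := hy
    simp at h
  · intro x hx y hy hxy
    subst hxy
    simp only [List.mem_append, List.mem_map, List.mem_flatMap, List.mem_cons,
      List.not_mem_nil, or_false] at hx hy
    obtain ⟨_, _, rfl⟩ := hx
    rcases hy with ⟨_, _, h⟩ | ⟨_, _, h⟩ <;> simp at h

open H622R2 in
theorem cyRed_correct (hd : Distinct3 φ) (hb : Bounded3 φ) :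
    SAT3 φ ↔ BipGoodOrdering (cyRed φ) := by
  have e := matIso (vsC (els φ) (quads φ)) (adjC (quads φ)) (vsC_nodup φ)
  have hq := quads_ok hd hb
  constructor
  · intro h
    exact ⟨(grC_bipartite (E := els φ) (Q := quads φ)).of_hom e.toHom,
      HasGoodOrdering.of_iso e (solv_to_good hq (sat_to_solv hd hb h))⟩
  · rintro ⟨-, h⟩
    exact solv_to_sat hd hb (good_to_solv hq (HasGoodOrdering.of_iso e.symm h))

end Pool.Agent.H495R3.Cy
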