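import Pool.Agent.NPC.Sat2
import Pool.Agent.H671R2.PolyAuto

/-!
# Hypergraphic matroids and matroid matching

An instance is the list of the pairs of hyperedges; a hyperedge is the list of its vertices.
-/

set_option autoImplicit false

namespace Pool.Agent.H495R3.HM

/-- Independence in the hypergraphic matroid of the family `E` of hyperedges. -/
def Ind {ι V : Type} [DecidableEq V] (E : ι → Finset V) (F : Finset ι) : Prop :=
  ∀ X ⊆ F, X.Nonempty → X.card + 1 ≤ (X.biUnion E).card

/-- An instance: the hyperedges are `I[i].1` and `I[i].2`, and these two form the block number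
`i` of the partition into pairs. -/
abbrev Inst := List (List ℕ × List ℕ)

/-- The vertex set of a hyperedge: `(i, false)` is the first and `(i, true)` is the second
hyperedge of the pair number `i`. -/
def edge (I : Inst) (e : Fin I.length × Bool) : Finset ℕ :=
  (if e.2 = true then (I[e.1]).2 else (I[e.1]).1).toFinset

/-- The union of the pairs with numbers in `S` is independent. -/
def IsMatching (I : Inst) (S : Finset (Fin I.length)) : Prop :=
  Ind (edge I) (S ×ˢ (Finset.univ : Finset Bool))

open Classical in
/-- The maximum number of pairs whose union is independent. -/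
noncomputable def maxPairs (I : Inst) : ℕ :=
  (Finset.univ.filter (fun S : Finset (Fin I.length) => IsMatching I S)).sup Finset.card

/-- All hyperedges have exactly two vertices: the matroid is the cycle matroid of a multigraph. -/
def IsGraph (I : Inst) : Prop := ∀ p ∈ I, p.1.toFinset.card = 2 ∧ p.2.toFinset.card = 2

theorem le_maxPairs {I : Inst} {S : Finset (Fin I.length)} (h : IsMatching I S) :
    S.card ≤ maxPairs I := by
  classical
  unfold maxPairs
  exact Finset.le_sup (f := Finset.card) (by simpa using h)

theorem isMatching_empty (I : Inst) : IsMatching I ∅ := by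
  intro X hX hne
  simp only [Finset.empty_product, Finset.subset_empty] at hX
  subst hX
  simp at hne

theorem exists_maxPairs (I : Inst) : ∃ S : Finset (Fin I.length), IsMatching I S ∧
    S.card = maxPairs I := by
  classical
  obtain ⟨S, hS, h⟩ := Finset.exists_mem_eq_sup
    (Finset.univ.filter (fun S : Finset (Fin I.length) => IsMatching I S))
    ⟨∅, by simpa using isMatching_empty I⟩ Finset.card
  exact ⟨S, by simpa using hS, h.symm⟩

/-! ### Trimming -/

section Trim

variable {ι V : Type} [DecidableEq V] {E E' : ι → Finset V} {F : Finset ι}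

theorem Ind.mono_edge (h : Ind E' F) (hs : ∀ e ∈ F, E' e ⊆ E e) : Ind E F := by
  intro X hX hne
  refine (h X hX hne).trans (Finset.card_le_card ?_)
  intro v hv
  simp only [Finset.mem_biUnion] at hv ⊢
  obtain ⟨e, he, hv⟩ := hv
  exact ⟨e, he, hs e (hX he) hv⟩

theorem Ind.subset {F' : Finset ι} (h : Ind E F) (hs : F' ⊆ F) : Ind E F' :=
  fun X hX hne => h X (hX.trans hs) hne

theorem Ind.card_edge (h : Ind E F) {e : ι} (he : e ∈ F) : 2 ≤ (E e).card := by
  have := h {e} (by simpa using he) (Finset.singleton_nonempty e)
  simpa using this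

variable [DecidableEq ι]

/-- If the removal of `v` from the hyperedge `e` destroys independence, there is a tight set. -/
theorem tight_of_not {e : ι} {v : V} (h : Ind E F)
    (hn : ¬ Ind (Function.update E e ((E e).erase v)) F) :
    ∃ Y ⊆ F.erase e, ((Y.biUnion E) ∪ (E e).erase v).card ≤ Y.card + 1 := by
  unfold Ind at hn
  push Not at hn
  obtain ⟨X, hX, hne, hlt⟩ := hn
  have he : e ∈ X := by
    by_contra hcon
    have hh := h X hX hne
    have heq : X.biUnion (Function.update E e ((E e).erase v)) = X.biUnion E := by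
      refine Finset.biUnion_congr rfl fun f hf => ?_
      rw [Function.update_of_ne (by rintro rfl; exact hcon hf)]
    rw [heq] at hlt
    omega
  refine ⟨X.erase e, Finset.erase_subset_erase e hX, ?_⟩
  have heq : X.biUnion (Function.update E e ((E e).erase v)) =
      (X.erase e).biUnion E ∪ (E e).erase v := by
    conv_lhs => rw [← Finset.insert_erase he, Finset.biUnion_insert]
    rw [Function.update_self, Finset.union_comm]
    congr 1
    refine Finset.biUnion_congr rfl fun f hf => ?_
    rw [Function.update_of_ne (Finset.ne_of_mem_erase hf)]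
  rw [← heq, Finset.card_erase_of_mem he]
  have : 0 < X.card := Finset.card_pos.2 hne
  omega

/-- A hyperedge with at least three vertices can be shrunk. -/
theorem trim_step {e : ι} (h : Ind E F) (he : e ∈ F) (h3 : 3 ≤ (E e).card) :
    ∃ v ∈ E e, Ind (Function.update E e ((E e).erase v)) F := by
  by_contra hcon
  push Not at hcon
  obtain ⟨x, y, z, hx, hy, hz, hxy, hxz, hyz⟩ := Finset.two_lt_card_iff.1 h3
  obtain ⟨Y1, hY1, h1⟩ := tight_of_not h (hcon x hx)
  obtain ⟨Y2, hY2, h2⟩ := tight_of_not h (hcon y hy)
  have hU : (Y1 ∪ Y2).card + 2 ≤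
      ((Y1.biUnion E ∪ (E e).erase x) ∪ (Y2.biUnion E ∪ (E e).erase y)).card := by
    have hh := h (insert e (Y1 ∪ Y2)) (by
      intro f hf
      simp only [Finset.mem_insert, Finset.mem_union] at hf
      rcases hf with rfl | hf | hf
      · exact he
      · exact Finset.mem_of_mem_erase (hY1 hf)
      · exact Finset.mem_of_mem_erase (hY2 hf)) (Finset.insert_nonempty _ _)
    rw [Finset.card_insert_of_notMem (by
      intro hf
      simp only [Finset.mem_union] at hf
      rcases hf with hf | hf
      · exact (Finset.mem_erase.1 (hY1 hf)).1 rfl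
      · exact (Finset.mem_erase.1 (hY2 hf)).1 rfl)] at hh
    refine (by omega : (Y1 ∪ Y2).card + 2 ≤ ((insert e (Y1 ∪ Y2)).biUnion E).card).trans
      (Finset.card_le_card ?_)
    intro v hv
    simp only [Finset.mem_biUnion, Finset.mem_insert, Finset.mem_union, Finset.mem_erase] at hv ⊢
    obtain ⟨f, hf | hf | hf, hv⟩ := hv
    · subst hf
      by_cases hvx : v = x
      · right; right
        exact ⟨by rw [hvx]; exact hxy, hv⟩
      · left; right
        exact ⟨hvx, hv⟩
    · left; left; exact ⟨f, hf, hv⟩
    · right; left; exact ⟨f, hf, hv⟩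
  have hI : (Y1 ∩ Y2).card + 1 ≤
      ((Y1.biUnion E ∪ (E e).erase x) ∩ (Y2.biUnion E ∪ (E e).erase y)).card := by
    rcases (Y1 ∩ Y2).eq_empty_or_nonempty with hem | hne
    · rw [hem, Finset.card_empty, zero_add]
      refine Finset.card_pos.2 ⟨z, ?_⟩
      simp only [Finset.mem_inter, Finset.mem_union, Finset.mem_erase]
      exact ⟨Or.inr ⟨hxz.symm, hz⟩, Or.inr ⟨hyz.symm, hz⟩⟩
    · refine (h (Y1 ∩ Y2) (fun f hf => Finset.mem_of_mem_erase
        (hY1 (Finset.mem_inter.1 hf).1)) hne).trans (Finset.card_le_card ?_)
      intro v hv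
      simp only [Finset.mem_biUnion, Finset.mem_inter, Finset.mem_union] at hv ⊢
      obtain ⟨f, ⟨hf1, hf2⟩, hv⟩ := hv
      exact ⟨Or.inl ⟨f, hf1, hv⟩, Or.inl ⟨f, hf2, hv⟩⟩
  have e1 := Finset.card_union_add_card_inter (Y1.biUnion E ∪ (E e).erase x)
    (Y2.biUnion E ∪ (E e).erase y)
  have e2 := Finset.card_union_add_card_inter Y1 Y2
  omega

/-- Independent families of hyperedges can be trimmed to forests. -/
theorem trim (n : ℕ) : ∀ E : ι → Finset V, Ind E F → ∑ e ∈ F, (E e).card ≤ n →
    ∃ E' : ι → Finset V, (∀ e ∈ F, E' e ⊆ E e ∧ (E' e).card = 2) ∧ Ind E' F := by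
  induction n with
  | zero =>
    intro E h hs
    refine ⟨E, fun e he => ?_, h⟩
    have h1 := h.card_edge he
    have h2 := Finset.single_le_sum (f := fun e => (E e).card) (fun _ _ => Nat.zero_le _) he
    omega
  | succ n ih =>
    intro E h hs
    by_cases h2 : ∀ e ∈ F, (E e).card = 2
    · exact ⟨E, fun e he => ⟨Finset.Subset.refl _, h2 e he⟩, h⟩
    · push Not at h2
      obtain ⟨e, he, h2⟩ := h2
      have h3 := h.card_edge he
      obtain ⟨v, hv, hI⟩ := trim_step h he (by omega)
      obtain ⟨E', hE', hI'⟩ := ih _ hI (by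
        rw [← Finset.add_sum_erase _ _ he] at hs ⊢
        rw [Function.update_self, Finset.card_erase_of_mem hv]
        have : ∑ f ∈ F.erase e, (Function.update E e ((E e).erase v) f).card =
            ∑ f ∈ F.erase e, (E f).card := by
          refine Finset.sum_congr rfl fun f hf => ?_
          rw [Function.update_of_ne (Finset.ne_of_mem_erase hf)]
        rw [this]
        omega)
      refine ⟨E', fun f hf => ⟨?_, (hE' f hf).2⟩, hI'⟩
      by_cases hfe : f = e
      · subst hfe
        have := (hE' f hf).1
        rw [Function.update_self] at this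
        exact this.trans (Finset.erase_subset _ _)
      · have := (hE' f hf).1
        rwa [Function.update_of_ne hfe] at this

/-- Reindexing. -/
theorem Ind.reindex {κ : Type} [DecidableEq κ] {E2 : κ → Finset V} {t : ι → κ}
    (ht : Set.InjOn t {x | x ∈ F}) (hE : ∀ x ∈ F, E2 (t x) ⊆ E x)
    (h : Ind E2 (F.image t)) : Ind E F := by
  intro X hX hne
  have h1 := h (X.image t) (Finset.image_subset_image hX) (hne.image t)
  rw [Finset.card_image_of_injOn (fun x hx y hy => ht (hX hx) (hX hy))] at h1
  refine h1.trans (Finset.card_le_card ?_)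
  intro v hv
  simp only [Finset.mem_biUnion, Finset.mem_image] at hv ⊢
  obtain ⟨_, ⟨x, hx, rfl⟩, hv⟩ := hv
  exact ⟨x, hx, hE x (hX hx) hv⟩

end Trim

end Pool.Agent.H495R3.HM
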