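import Pool.Agent.H495R3.HmUp

/-!
# The reduction is computable in polynomial time
-/

set_option autoImplicit false

namespace Pool.Agent.H495R3.HM

open Pool.Agent.NPC

variable {α : Type} [TEnc α]

theorem prv_poly {i : α → ℕ} {b c : α → Bool} (hi : Poly i) (hb : Poly b) (hc : Poly c) :
    Poly (fun a => prv (i a) (b a) (c a)) := by
  unfold prv
  fun_prop

attribute [fun_prop] prv_poly

theorem prE_poly {i : α → ℕ} {b : α → Bool} (hi : Poly i) (hb : Poly b) :
    Poly (fun a => prE (i a) (b a)) := by
  unfold prE
  fun_prop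

attribute [fun_prop] prE_poly

theorem linesOf_poly {l : α → List ℕ} {i : α → ℕ} {b : α → Bool} (hl : Poly l) (hi : Poly i)
    (hb : Poly b) : Poly (fun a => linesOf (l a) (i a) (b a)) := by
  unfold linesOf
  fun_prop

attribute [fun_prop] linesOf_poly

theorem toGraph_poly : Poly toGraph := by
  unfold toGraph
  fun_prop

end Pool.Agent.H495R3.HM
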