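import Pool.Agent.H495R3.HmDefs

/-!
# Reduction of hypergraphic matroid matching to graphic matroid matching
-/

set_option autoImplicit false

namespace Pool.Agent.H495R3.HM

/-- A private vertex of the hyperedge `(i, b)`. -/
def prv (i : ℕ) (b c : Bool) : ℕ :=
  2 * (4 * i + (if b = true then 2 else 0) + (if c = true then 1 else 0)) + 1

/-- The private edge of the hyperedge `(i, b)`. -/
def prE (i : ℕ) (b : Bool) : List ℕ := [prv i b false, prv i b true]

/-- The pairs (edge inside the hyperedge, private edge). -/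
def linesOf (l : List ℕ) (i : ℕ) (b : Bool) : List (List ℕ × List ℕ) :=
  l.flatMap fun u => (l.filter (fun v => decide (v ≠ u))).map fun v => ([2 * u, 2 * v], prE i b)

/-- The graph. -/
def toGraph (I : Inst) : Inst :=
  I.zipIdx.flatMap fun p => (prE p.2 false, prE p.2 true) ::
    (linesOf p.1.1 p.2 false ++ linesOf p.1.2 p.2 true)

/-- The private edge as a set. -/
def pe (i : ℕ) (b : Bool) : Finset ℕ := {prv i b false, prv i b true}

theorem pe_card (i : ℕ) (b : Bool) : (pe i b).card = 2 := by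
  unfold pe
  rw [Finset.card_pair]
  unfold prv
  simp

theorem mem_pe_iff {i : ℕ} {b : Bool} {x : ℕ} : x ∈ pe i b ↔ ∃ c, x = prv i b c := by
  unfold pe
  simp only [Finset.mem_insert, Finset.mem_singleton]
  constructor
  · rintro (h | h)
    · exact ⟨_, h⟩
    · exact ⟨_, h⟩
  · rintro ⟨c, h⟩
    cases c
    · exact Or.inl h
    · exact Or.inr h

theorem prv_inj {i j : ℕ} {b b' c c' : Bool} (h : prv i b c = prv j b' c') :
    i = j ∧ b = b' ∧ c = c' := by
  unfold prv at h
  cases b <;> cases b' <;> cases c <;> cases c' <;> simp at h ⊢ <;> omega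

theorem pe_inter {i j : ℕ} {b b' : Bool} {x : ℕ} (h : x ∈ pe i b) (h' : x ∈ pe j b') :
    i = j ∧ b = b' := by
  obtain ⟨c, rfl⟩ := mem_pe_iff.1 h
  obtain ⟨c', h'⟩ := mem_pe_iff.1 h'
  have := prv_inj h'
  exact ⟨this.1, this.2.1⟩

theorem pe_inj {i j : ℕ} {b b' : Bool} (h : pe i b = pe j b') : i = j ∧ b = b' :=
  pe_inter (x := prv i b false) (mem_pe_iff.2 ⟨_, rfl⟩) (by rw [← h]; exact mem_pe_iff.2 ⟨_, rfl⟩)

theorem prE_toFinset (i : ℕ) (b : Bool) : (prE i b).toFinset = pe i b := by
  unfold prE pe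
  ext x
  simp

variable {I : Inst}

theorem mem_edge {i : Fin I.length} {b : Bool} {u : ℕ} :
    u ∈ edge I (i, b) ↔ u ∈ (if b = true then (I[i]).2 else (I[i]).1) := by
  unfold edge
  simp

theorem mem_linesOf {l : List ℕ} {i : ℕ} {b : Bool} {q : List ℕ × List ℕ} :
    q ∈ linesOf l i b ↔ ∃ u v, u ∈ l ∧ v ∈ l ∧ v ≠ u ∧ q = ([2 * u, 2 * v], prE i b) := by
  unfold linesOf
  simp only [List.mem_flatMap, List.mem_map, List.mem_filter, decide_eq_true_eq]
  constructor
  · rintro ⟨u, hu, v, ⟨hv, hne⟩, rfl⟩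
    exact ⟨u, v, hu, hv, hne, rfl⟩
  · rintro ⟨u, v, hu, hv, hne, rfl⟩
    exact ⟨u, hu, v, ⟨hv, hne⟩, rfl⟩

theorem mem_toGraph {q : List ℕ × List ℕ} : q ∈ toGraph I ↔ ∃ i : Fin I.length,
    q = (prE i false, prE i true) ∨ ∃ b u v, u ∈ edge I (i, b) ∧ v ∈ edge I (i, b) ∧ v ≠ u ∧
      q = ([2 * u, 2 * v], prE i b) := by
  unfold toGraph
  simp only [List.mem_flatMap, List.mem_cons, List.mem_append, mem_linesOf]
  constructor
  · rintro ⟨⟨p, i⟩, hp, h⟩
    rw [List.mem_zipIdx_iff_getElem?] at hp
    obtain ⟨hi, hp⟩ := List.getElem?_eq_some_iff.1 hp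
    simp only at hp h hi
    refine ⟨⟨i, hi⟩, ?_⟩
    rcases h with h | ⟨u, v, hu, hv, hne, h⟩ | ⟨u, v, hu, hv, hne, h⟩
    · exact Or.inl h
    · refine Or.inr ⟨false, u, v, ?_, ?_, hne, h⟩
      · rw [mem_edge]; simpa [hp] using hu
      · rw [mem_edge]; simpa [hp] using hv
    · refine Or.inr ⟨true, u, v, ?_, ?_, hne, h⟩
      · rw [mem_edge]; simpa [hp] using hu
      · rw [mem_edge]; simpa [hp] using hv
  · rintro ⟨i, h⟩
    refine ⟨(I[i], i.1), ?_, ?_⟩
    · rw [List.mem_zipIdx_iff_getElem?]
      simp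
    · rcases h with h | ⟨b, u, v, hu, hv, hne, h⟩
      · exact Or.inl h
      · rw [mem_edge] at hu hv
        cases b
        · exact Or.inr (Or.inl ⟨u, v, by simpa using hu, by simpa using hv, hne, h⟩)
        · exact Or.inr (Or.inr ⟨u, v, by simpa using hu, by simpa using hv, hne, h⟩)

theorem isGraph_toGraph (I : Inst) : IsGraph (toGraph I) := by
  intro q hq
  obtain ⟨i, h | ⟨b, u, v, _, _, hne, h⟩⟩ := mem_toGraph.1 hq
  · rw [h]
    simp only [prE_toFinset]
    exact ⟨pe_card _ _, pe_card _ _⟩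
  · rw [h]
    simp only [prE_toFinset]
    refine ⟨?_, pe_card _ _⟩
    have : ([2 * u, 2 * v] : List ℕ).toFinset = {2 * u, 2 * v} := by
      ext x; simp
    rw [this]
    exact Finset.card_pair (by omega)

/-- The pair number `j` of the graph is the pair of private edges of the pair `i`. -/
def Typ0 (I : Inst) (j : Fin (toGraph I).length) (i : Fin I.length) : Prop :=
  ∀ b, edge (toGraph I) (j, b) = pe i b

/-- The pair number `j` of the graph is an edge inside the hyperedge `(i, b)` and its private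
edge. -/
def Typ1 (I : Inst) (j : Fin (toGraph I).length) (i : Fin I.length) (b : Bool) : Prop :=
  edge (toGraph I) (j, true) = pe i b ∧ ∃ u v, u ∈ edge I (i, b) ∧ v ∈ edge I (i, b) ∧ v ≠ u ∧
    edge (toGraph I) (j, false) = ({u, v} : Finset ℕ).image (fun x => 2 * x)

theorem kinds (j : Fin (toGraph I).length) :
    ∃ i, Typ0 I j i ∨ ∃ b, Typ1 I j i b := by
  obtain ⟨i, h | ⟨b, u, v, hu, hv, hne, h⟩⟩ := mem_toGraph.1 (List.getElem_mem j.2)
  · refine ⟨i, Or.inl fun b => ?_⟩
    unfold edge
    rw [show (toGraph I)[(j, b).1] = (toGraph I)[j.1] from rfl, h]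
    cases b
    · simp [prE_toFinset]
    · simp [prE_toFinset]
  · refine ⟨i, Or.inr ⟨b, ?_, u, v, hu, hv, hne, ?_⟩⟩
    · unfold edge
      rw [show (toGraph I)[(j, true).1] = (toGraph I)[j.1] from rfl, h]
      simp [prE_toFinset]
    · unfold edge
      rw [show (toGraph I)[(j, false).1] = (toGraph I)[j.1] from rfl, h]
      ext x
      simp

theorem exists_typ0 (i : Fin I.length) : ∃ j, Typ0 I j i := by
  obtain ⟨k, hk, h⟩ := List.mem_iff_getElem.1 (mem_toGraph.2 ⟨i, Or.inl rfl⟩)
  refine ⟨⟨k, hk⟩, fun b => ?_⟩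
  unfold edge
  rw [show (toGraph I)[((⟨k, hk⟩ : Fin (toGraph I).length), b).1] = (toGraph I)[k] from rfl, h]
  cases b
  · simp [prE_toFinset]
  · simp [prE_toFinset]

theorem exists_typ1 {i : Fin I.length} {b : Bool} {u v : ℕ} (hu : u ∈ edge I (i, b))
    (hv : v ∈ edge I (i, b)) (hne : v ≠ u) : ∃ j, edge (toGraph I) (j, true) = pe i b ∧
      edge (toGraph I) (j, false) = ({u, v} : Finset ℕ).image (fun x => 2 * x) := by
  obtain ⟨k, hk, h⟩ := List.mem_iff_getElem.1
    (mem_toGraph.2 ⟨i, Or.inr ⟨b, u, v, hu, hv, hne, rfl⟩⟩)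
  refine ⟨⟨k, hk⟩, ?_, ?_⟩
  · unfold edge
    rw [show (toGraph I)[((⟨k, hk⟩ : Fin (toGraph I).length), true).1] = (toGraph I)[k]
      from rfl, h]
    simp [prE_toFinset]
  · unfold edge
    rw [show (toGraph I)[((⟨k, hk⟩ : Fin (toGraph I).length), false).1] = (toGraph I)[k]
      from rfl, h]
    ext x
    simp

section

variable {ι κ V : Type} [DecidableEq V]

theorem Ind.image [DecidableEq κ] {E : κ → Finset V} {s : ι → κ} {D : Finset ι}
    (h : Ind (fun x => E (s x)) D) : Ind E (D.image s) := by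
  classical
  intro X hX hne
  have hXe : (D.filter (fun x => s x ∈ X)).image s = X := by
    ext x
    simp only [Finset.mem_image, Finset.mem_filter]
    constructor
    · rintro ⟨y, ⟨_, hy⟩, rfl⟩; exact hy
    · intro hx
      obtain ⟨y, hy, rfl⟩ := Finset.mem_image.1 (hX hx)
      exact ⟨y, ⟨hy, hx⟩, rfl⟩
  have hne' : (D.filter (fun x => s x ∈ X)).Nonempty := by
    rw [← Finset.image_nonempty (f := s), hXe]; exact hne
  have h1 := h (D.filter (fun x => s x ∈ X)) (Finset.filter_subset _ _) hne'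
  have h2 : X.card ≤ (D.filter (fun x => s x ∈ X)).card := by
    conv_lhs => rw [← hXe]
    exact Finset.card_image_le
  have h3 : (D.filter (fun x => s x ∈ X)).biUnion (fun x => E (s x)) = X.biUnion E := by
    conv_rhs => rw [← hXe, Finset.image_biUnion]
  rw [h3] at h1
  omega

theorem Ind.of_image {W : Type} [DecidableEq W] {E : ι → Finset V} {f : V → W} {D : Finset ι}
    (h : Ind (fun x => (E x).image f) D) : Ind E D := by
  intro X hX hne
  refine (h X hX hne).trans ?_
  rw [← Finset.biUnion_image]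
  exact Finset.card_image_le

end

/-- The structured ground set: edges inside hyperedges and private edges. -/
def E2 (E' : Fin I.length × Bool → Finset ℕ) :
    (Fin I.length × Bool) ⊕ (Fin I.length × Bool) → Finset ℕ
  | Sum.inl c => (E' c).image (fun x => 2 * x)
  | Sum.inr c => pe c.1 c.2

theorem ind_E2 {E' : Fin I.length × Bool → Finset ℕ} {F G : Finset (Fin I.length × Bool)}
    (h : Ind E' F) : Ind (E2 E') (F.disjSum G) := by
  intro X hX hne
  have hc := X.card_toLeft_add_card_toRight
  have hdis : Disjoint (X.toLeft.biUnion (fun c => (E' c).image (fun x => 2 * x)))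
      (X.toRight.biUnion (fun c => pe c.1 c.2)) := by
    rw [Finset.disjoint_left]
    intro x hx hx'
    simp only [Finset.mem_biUnion, Finset.mem_image] at hx hx'
    obtain ⟨_, _, y, _, rfl⟩ := hx
    obtain ⟨c, _, hc⟩ := hx'
    obtain ⟨d, hd⟩ := mem_pe_iff.1 hc
    unfold prv at hd
    omega
  have h1 : (X.toLeft.biUnion (fun c => (E' c).image (fun x => 2 * x))).card +
      (X.toRight.biUnion (fun c => pe c.1 c.2)).card ≤ (X.biUnion (E2 E')).card := by
    rw [← Finset.card_union_of_disjoint hdis]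
    refine Finset.card_le_card ?_
    intro x hx
    simp only [Finset.mem_union, Finset.mem_biUnion, Finset.mem_toLeft, Finset.mem_toRight] at hx ⊢
    rcases hx with ⟨c, hc, hx⟩ | ⟨c, hc, hx⟩
    · exact ⟨_, hc, hx⟩
    · exact ⟨_, hc, hx⟩
  have h2 : (X.toRight.biUnion (fun c => pe c.1 c.2)).card = X.toRight.card * 2 := by
    rw [Finset.card_biUnion]
    · rw [Finset.sum_congr rfl (fun c _ => pe_card c.1 c.2), Finset.sum_const, smul_eq_mul]
    · intro c _ d _ hcd
      rw [Function.onFun, Finset.disjoint_left]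
      intro x hx hx'
      have := pe_inter hx hx'
      exact hcd (Prod.ext (Fin.ext this.1) this.2)
  have h3 : (X.toLeft.biUnion (fun c => (E' c).image (fun x => 2 * x))).card =
      (X.toLeft.biUnion E').card := by
    rw [← Finset.biUnion_image]
    exact Finset.card_image_of_injective _ (fun a b h => by simpa using h)
  have hsub : X.toLeft ⊆ F := by
    intro c hc
    rw [Finset.mem_toLeft] at hc
    have := hX hc
    simpa using this
  rcases X.toLeft.eq_empty_or_nonempty with he | he
  · have : 0 < X.card := Finset.card_pos.2 hne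
    rw [he, Finset.card_empty] at hc
    omega
  · have := h _ hsub he
    omega

/-- The lower bound. -/
theorem le_red (I : Inst) : I.length + maxPairs I ≤ maxPairs (toGraph I) := by
  classical
  obtain ⟨S, hS, hc⟩ := exists_maxPairs I
  obtain ⟨E', hE', hI⟩ := trim _ _ hS le_rfl
  rcases Nat.eq_zero_or_pos I.length with h0 | hpos
  · have : S.card ≤ Fintype.card (Fin I.length) := Finset.card_le_univ S
    rw [Fintype.card_fin] at this
    omega
  choose h hh using exists_typ0 (I := I)
  have hJ : Nonempty (Fin (toGraph I).length) := ⟨h ⟨0, hpos⟩⟩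
  have hg : ∀ c ∈ S ×ˢ (Finset.univ : Finset Bool), ∃ j : Fin (toGraph I).length,
      edge (toGraph I) (j, true) = pe c.1 c.2 ∧
        edge (toGraph I) (j, false) = (E' c).image (fun x => 2 * x) := by
    intro c hc
    obtain ⟨hsub, hcard⟩ := hE' c hc
    obtain ⟨u, v, huv, he⟩ := Finset.card_eq_two.1 hcard
    rw [he]
    refine exists_typ1 (hsub ?_) (hsub ?_) huv.symm
    · rw [he]; simp
    · rw [he]; simp
  choose! g hg using hg
  -- the matching
  have hT : ((S ×ˢ (Finset.univ : Finset Bool)).image g ∪ Sᶜ.image h).card =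
      I.length + S.card := by
    rw [Finset.card_union_of_disjoint, Finset.card_image_of_injOn, Finset.card_image_of_injective,
      Finset.card_product, Finset.card_compl, Fintype.card_fin, Finset.card_univ,
      Fintype.card_bool]
    · have : S.card ≤ Fintype.card (Fin I.length) := Finset.card_le_univ S
      rw [Fintype.card_fin] at this
      omega
    · intro i j hij
      have h1 := hh i true
      rw [hij, hh j true] at h1
      exact Fin.ext (pe_inj h1).1.symm
    · intro c hc d hd hcd
      have h1 := (hg c hc).1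
      rw [hcd, (hg d hd).1] at h1
      exact Prod.ext (Fin.ext (pe_inj h1).1.symm) (pe_inj h1).2.symm
    · rw [Finset.disjoint_left]
      intro j hj hj'
      obtain ⟨c, hc, rfl⟩ := Finset.mem_image.1 hj
      obtain ⟨i, hi, hi'⟩ := Finset.mem_image.1 hj'
      have h1 := hh i false
      rw [hi', (hg c hc).2] at h1
      have h2 : prv i false false ∈ (E' c).image (fun x => 2 * x) := by
        rw [h1]; exact mem_pe_iff.2 ⟨_, rfl⟩
      obtain ⟨y, _, hy⟩ := Finset.mem_image.1 h2
      unfold prv at hy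
      omega
  rw [← hc, ← hT]
  refine le_maxPairs ?_
  have key := Ind.image (E := edge (toGraph I)) (D := (S ×ˢ (Finset.univ : Finset Bool)).disjSum
    (Finset.univ : Finset (Fin I.length × Bool)))
    (s := fun d => match d with
      | Sum.inl c => (g c, false)
      | Sum.inr c => if c.1 ∈ S then (g c, true) else (h c.1, c.2)) (by
      refine Ind.mono_edge (ind_E2 hI) ?_
      intro d hd
      rcases d with c | c
      · have hc : c ∈ S ×ˢ (Finset.univ : Finset Bool) := by simpa using hd
        simp only [E2]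
        rw [(hg c hc).2]
      · simp only [E2]
        by_cases hcS : c.1 ∈ S
        · rw [if_pos hcS, (hg c (by simp [hcS])).1]
        · rw [if_neg hcS, hh c.1 c.2])
  refine key.subset ?_
  rintro ⟨j, b⟩ hj
  simp only [Finset.mem_product, Finset.mem_union, Finset.mem_univ, and_true] at hj
  rw [Finset.mem_image]
  rcases hj with hj | hj
  · obtain ⟨c, hc, rfl⟩ := Finset.mem_image.1 hj
    have hcS : c.1 ∈ S := (Finset.mem_product.1 hc).1
    cases b
    · exact ⟨Sum.inl c, by simpa using hcS, rfl⟩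
    · exact ⟨Sum.inr c, by simp, by simp [hcS]⟩
  · obtain ⟨i, hi, rfl⟩ := Finset.mem_image.1 hj
    refine ⟨Sum.inr (i, b), by simp, ?_⟩
    simp only
    rw [if_neg (by simpa using hi)]

end Pool.Agent.H495R3.HM
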