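import Pool.Agent.H495R3.HmRed

/-!
# The upper bound
-/

set_option autoImplicit false

namespace Pool.Agent.H495R3.HM

variable {I : Inst}

/-- Two different members of an independent family cannot be equal edges with two ends. -/
theorem no_parallel {ι V : Type} [DecidableEq V] [DecidableEq ι] {E : ι → Finset V} {F : Finset ι}
    (h : Ind E F) {x y : ι} (hx : x ∈ F) (hy : y ∈ F) (hxy : x ≠ y) (he : E x = E y)
    (hc : (E x).card = 2) : False := by
  have h1 := h {x, y} (by
    intro z hz
    simp only [Finset.mem_insert, Finset.mem_singleton] at hz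
    rcases hz with rfl | rfl
    · exact hx
    · exact hy) (Finset.insert_nonempty _ _)
  rw [Finset.card_pair hxy] at h1
  have h2 : ({x, y} : Finset ι).biUnion E = E x := by
    ext v
    simp [he]
  rw [h2] at h1
  omega

theorem Typ1.unique {j : Fin (toGraph I).length} {i i' : Fin I.length} {b b' : Bool}
    (h : Typ1 I j i b) (h' : Typ1 I j i' b') : i = i' ∧ b = b' := by
  have := h.1.symm.trans h'.1
  exact ⟨Fin.ext (pe_inj this).1, (pe_inj this).2⟩

/-- Two different members of a matching with the same owner. -/
theorem two_members {T : Finset (Fin (toGraph I).length)} (hT : IsMatching (toGraph I) T)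
    {j j' : Fin (toGraph I).length} (hj : j ∈ T) (hj' : j' ∈ T) (hne : j ≠ j')
    {i : Fin I.length} (h : Typ0 I j i ∨ ∃ b, Typ1 I j i b)
    (h' : Typ0 I j' i ∨ ∃ b, Typ1 I j' i b) : ∃ b, Typ1 I j i b ∧ Typ1 I j' i (!b) := by
  have mem : ∀ (k : Fin (toGraph I).length) (b : Bool), k ∈ T →
      (k, b) ∈ T ×ˢ (Finset.univ : Finset Bool) := fun k b hk => by simpa using hk
  rcases h with h | ⟨b, h⟩ <;> rcases h' with h' | ⟨b', h'⟩
  · exact (no_parallel hT (mem j false hj) (mem j' false hj') (fun e => hne (Prod.ext_iff.1 e).1)
      ((h false).trans (h' false).symm) (by rw [h false]; exact pe_card _ _)).elim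
  · exact (no_parallel hT (mem j b' hj) (mem j' true hj') (fun e => hne (Prod.ext_iff.1 e).1)
      ((h b').trans h'.1.symm) (by rw [h b']; exact pe_card _ _)).elim
  · exact (no_parallel hT (mem j true hj) (mem j' b hj') (fun e => hne (Prod.ext_iff.1 e).1)
      (h.1.trans (h' b).symm) (by rw [h.1]; exact pe_card _ _)).elim
  · by_cases hb : b = b'
    · subst hb
      exact (no_parallel hT (mem j true hj) (mem j' true hj')
        (fun e => hne (Prod.ext_iff.1 e).1) (h.1.trans h'.1.symm)
        (by rw [h.1]; exact pe_card _ _)).elim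
    · refine ⟨b, h, ?_⟩
      have : (!b) = b' := by cases b <;> cases b' <;> simp at hb ⊢
      rw [this]
      exact h'

/-- The upper bound. -/
theorem red_le (I : Inst) : maxPairs (toGraph I) ≤ I.length + maxPairs I := by
  classical
  obtain ⟨T, hT, hc⟩ := exists_maxPairs (toGraph I)
  rw [← hc]
  -- the hyperedges used
  let T1 : Finset (Fin I.length × Bool) := Finset.univ.filter
    (fun c => ∃ j ∈ T, Typ1 I j c.1 c.2)
  have hT1 : Ind (edge I) T1 := by
    have hex : ∀ c ∈ T1, ∃ j ∈ T, Typ1 I j c.1 c.2 := by
      intro c hc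
      simpa [T1] using hc
    rcases T1.eq_empty_or_nonempty with he | ⟨c0, hc0⟩
    · rw [he]
      intro X hX hne
      simp only [Finset.subset_empty] at hX
      subst hX
      simp at hne
    · obtain ⟨j0, _, _⟩ := hex c0 hc0
      have : Nonempty (Fin (toGraph I).length) := ⟨j0⟩
      choose! g hgT hg using hex
      have h2 : ∀ c ∈ T1, ∃ u v, u ∈ edge I c ∧ v ∈ edge I c ∧ v ≠ u ∧
          edge (toGraph I) (g c, false) = ({u, v} : Finset ℕ).image (fun x => 2 * x) :=
        fun c hc => (hg c hc).2
      choose! u v hu hv hne he using h2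
      have h3 : Ind (fun c => ({u c, v c} : Finset ℕ)) T1 := by
        refine Ind.of_image (f := fun x => 2 * x) ?_
        refine Ind.reindex (t := fun c => (g c, false)) (E2 := edge (toGraph I)) ?_ ?_ ?_
        · intro c hc d hd hcd
          have h4 : g c = g d := (Prod.ext_iff.1 hcd).1
          have h5 := hg c hc
          rw [h4] at h5
          have h6 := h5.unique (hg d hd)
          exact Prod.ext h6.1 h6.2
        · intro c hc
          rw [he c hc]
        · refine hT.subset ?_
          intro x hx
          obtain ⟨c, hc, rfl⟩ := Finset.mem_image.1 hx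
          simpa using hgT c hc
      refine h3.mono_edge fun c hc => ?_
      intro x hx
      simp only [Finset.mem_insert, Finset.mem_singleton] at hx
      rcases hx with rfl | rfl
      · exact hu c hc
      · exact hv c hc
  let S : Finset (Fin I.length) := Finset.univ.filter
    (fun i => (i, false) ∈ T1 ∧ (i, true) ∈ T1)
  have hS : IsMatching I S := by
    refine hT1.subset ?_
    rintro ⟨i, b⟩ hi
    have : (i, false) ∈ T1 ∧ (i, true) ∈ T1 := by simpa [S] using hi
    cases b
    · exact this.1
    · exact this.2
  have hSc := le_maxPairs hS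
  choose own hown using kinds (I := I)
  have hfib : ∀ i : Fin I.length, (T.filter (fun j => own j = i)).card ≤
      1 + (if i ∈ S then 1 else 0) := by
    intro i
    have hpair : ∀ j ∈ T.filter (fun j => own j = i), ∀ j' ∈ T.filter (fun j => own j = i),
        j ≠ j' → ∃ b, Typ1 I j i b ∧ Typ1 I j' i (!b) := by
      intro j hj j' hj' hne
      rw [Finset.mem_filter] at hj hj'
      refine two_members hT hj.1 hj'.1 hne ?_ ?_
      · have := hown j
        rwa [hj.2] at this
      · have := hown j'
        rwa [hj'.2] at this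
    by_cases hi : i ∈ S
    · rw [if_pos hi]
      by_contra hcon
      obtain ⟨j1, j2, j3, h1, h2, h3, h12, h13, h23⟩ := Finset.two_lt_card_iff.1
        (by omega : 2 < (T.filter (fun j => own j = i)).card)
      obtain ⟨b, e1, e2⟩ := hpair j1 h1 j2 h2 h12
      obtain ⟨b', e1', e3⟩ := hpair j1 h1 j3 h3 h13
      obtain ⟨b'', e2', e3'⟩ := hpair j2 h2 j3 h3 h23
      have g1 := (e1.unique e1').2
      have g2 := (e2.unique e2').2
      have g3 := (e3.unique e3').2
      subst g1
      rw [← g2] at g3
      cases b <;> simp at g3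
    · rw [if_neg hi, add_zero]
      rw [Finset.card_le_one]
      intro j hj j' hj'
      by_contra hne
      obtain ⟨b, e1, e2⟩ := hpair j hj j' hj' hne
      rw [Finset.mem_filter] at hj hj'
      apply hi
      simp only [S, T1, Finset.mem_filter, Finset.mem_univ, true_and]
      cases b
      · exact ⟨⟨j, hj.1, e1⟩, ⟨j', hj'.1, e2⟩⟩
      · exact ⟨⟨j', hj'.1, e2⟩, ⟨j, hj.1, e1⟩⟩
  have hsum : T.card = ∑ i : Fin I.length, (T.filter (fun j => own j = i)).card :=
    Finset.card_eq_sum_card_fiberwise (fun j _ => Finset.mem_coe.2 (Finset.mem_univ (own j)))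
  rw [hsum]
  calc ∑ i : Fin I.length, (T.filter (fun j => own j = i)).card
      ≤ ∑ i : Fin I.length, (1 + (if i ∈ S then 1 else 0)) := Finset.sum_le_sum fun i _ => hfib i
    _ = I.length + S.card := by
        rw [Finset.sum_add_distrib]
        simp
    _ ≤ I.length + maxPairs I := by omega

/-- The reduction changes the optimum by the number of pairs. -/
theorem maxPairs_toGraph (I : Inst) : maxPairs (toGraph I) = I.length + maxPairs I :=
  le_antisymm (red_le I) (le_red I)

end Pool.Agent.H495R3.HM
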